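import Pool.Agent.MP_0f71ae_nt.Sz.Def

/-!
# Freiman isomorphism and monotonicity for the weighted counts
-/

set_option autoImplicit false

namespace Pool.Agent.MP_0f71ae_nt.Sz

open Finset Pool.Agent.MP_0f71ae_nt.Reg Pool.Agent.MP_0f71ae_nt.Cnt

theorem fi_apFree_mono {A B : Finset ℕ} (h : A ⊆ B) (hB : APFree B) : APFree A :=
  fun a d hd hc => hB a d hd ⟨h hc.1, h hc.2.1, h hc.2.2⟩

theorem fi_inj (a q : ℕ) (hq : 1 ≤ q) : Function.Injective (fun j : ℕ => a + q * j) := by
  intro x y h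
  simp only at h
  exact Nat.eq_of_mul_eq_mul_left (show 0 < q by omega) (by omega)

theorem fi_apFree_image (a q : ℕ) (hq : 1 ≤ q) (I : Finset ℕ) :
    APFree (I.image (fun j => a + q * j)) ↔ APFree I := by
  have hinj := fi_inj a q hq
  constructor
  · intro h x d hd hc
    refine h (a + q * x) (q * d) (Nat.mul_pos (by omega) (by omega)) ⟨?_, ?_, ?_⟩
    · exact Finset.mem_image_of_mem _ hc.1
    · rw [show a + q * x + q * d = a + q * (x + d) by ring]
      exact Finset.mem_image_of_mem (fun j => a + q * j) hc.2.1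
    · rw [show a + q * x + 2 * (q * d) = a + q * (x + 2 * d) by ring]
      exact Finset.mem_image_of_mem (fun j => a + q * j) hc.2.2
  · intro h x d hd hc
    obtain ⟨x0, h0, e0⟩ := Finset.mem_image.1 hc.1
    obtain ⟨x1, h1, e1⟩ := Finset.mem_image.1 hc.2.1
    obtain ⟨x2, h2, e2⟩ := Finset.mem_image.1 hc.2.2
    have h01 : q * x0 < q * x1 := by omega
    have h01' : x0 < x1 := Nat.lt_of_mul_lt_mul_left h01
    have h12 : q * (x0 + x2) = q * (2 * x1) := by
      rw [mul_add, show q * (2 * x1) = 2 * (q * x1) by ring]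
      omega
    have h12' : x0 + x2 = 2 * x1 := Nat.eq_of_mul_eq_mul_left (by omega) h12
    refine h x0 (x1 - x0) (by omega) ⟨h0, ?_, ?_⟩
    · rw [show x0 + (x1 - x0) = x1 by omega]; exact h1
    · rw [show x0 + 2 * (x1 - x0) = x2 by omega]; exact h2

theorem Z_image (w : ℝ) (a q : ℕ) (hq : 1 ≤ q) (T : Finset ℕ) :
    Z w (T.image (fun j => a + q * j)) = Z w T := by
  classical
  have hinj := fi_inj a q hq
  unfold Z
  symm
  refine Finset.sum_bij (fun I _ => I.image (fun j => a + q * j)) ?_ ?_ ?_ ?_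
  · intro I hI
    rw [Finset.mem_filter, Finset.mem_powerset] at hI ⊢
    exact ⟨Finset.image_subset_image hI.1, (fi_apFree_image a q hq I).2 hI.2⟩
  · intro I _ J _ h
    exact Finset.image_injective hinj h
  · intro J hJ
    rw [Finset.mem_filter, Finset.mem_powerset] at hJ
    obtain ⟨I, hI, rfl⟩ := Finset.subset_image_iff.1 (by exact_mod_cast hJ.1)
    refine ⟨I, ?_, rfl⟩
    rw [Finset.mem_filter, Finset.mem_powerset]
    exact ⟨by exact_mod_cast hI, (fi_apFree_image a q hq I).1 hJ.2⟩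
  · intro I _
    rw [Finset.card_image_of_injective _ hinj]

theorem fi_image_range (n : ℕ) : (range n).image (fun j => 1 + 1 * j) = Icc 1 n := by
  ext x
  rw [Finset.mem_image, Finset.mem_Icc]
  constructor
  · rintro ⟨j, hj, rfl⟩
    rw [Finset.mem_range] at hj
    omega
  · rintro ⟨h1, h2⟩
    exact ⟨x - 1, Finset.mem_range.2 (by omega), by omega⟩

theorem card_prog (p : ℕ × ℕ × ℕ) (hp : 1 ≤ p.2.1) : (prog p).card = p.2.2 := by
  rw [prog, Finset.card_image_of_injective _ (fi_inj p.1 p.2.1 hp), Finset.card_range]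

theorem Z_prog (w : ℝ) (p : ℕ × ℕ × ℕ) (hp : 1 ≤ p.2.1) : Z w (prog p) = Z w (Icc 1 p.2.2) := by
  rw [prog, Z_image w p.1 p.2.1 hp, ← fi_image_range, Z_image w 1 1 le_rfl]

theorem Z_mono {w : ℝ} (hw : 0 ≤ w) {A B : Finset ℕ} (h : A ⊆ B) : Z w A ≤ Z w B := by
  classical
  unfold Z
  apply Finset.sum_le_sum_of_subset_of_nonneg
  · intro I hI
    rw [Finset.mem_filter, Finset.mem_powerset] at hI ⊢
    exact ⟨hI.1.trans h, hI.2⟩
  · intro _ _ _
    exact pow_nonneg hw _

theorem card_inter_prog_le {A : Finset ℕ} (hA : APFree A) (p : ℕ × ℕ × ℕ) (hp : 1 ≤ p.2.1) :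
    (A ∩ prog p).card ≤ r3 p.2.2 := by
  classical
  -- pull back
  set J : Finset ℕ := (range p.2.2).filter (fun j => p.1 + p.2.1 * j ∈ A) with hJ
  have h1 : A ∩ prog p = J.image (fun j => p.1 + p.2.1 * j) := by
    ext x
    rw [Finset.mem_inter, prog, Finset.mem_image, Finset.mem_image]
    constructor
    · rintro ⟨hx, j, hj, rfl⟩
      exact ⟨j, by rw [hJ, Finset.mem_filter]; exact ⟨hj, hx⟩, rfl⟩
    · rintro ⟨j, hj, rfl⟩
      rw [hJ, Finset.mem_filter] at hj
      exact ⟨hj.2, j, hj.1, rfl⟩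
  have h2 : APFree J :=
    (fi_apFree_image p.1 p.2.1 hp J).1 (h1 ▸ fi_apFree_mono Finset.inter_subset_left hA)
  rw [h1, Finset.card_image_of_injective _ (fi_inj p.1 p.2.1 hp)]
  have h3 : (J.image (fun j => 1 + 1 * j)).card = J.card :=
    Finset.card_image_of_injective _ (fi_inj 1 1 le_rfl)
  rw [← h3]
  refine card_le_r3 ?_ ((fi_apFree_image 1 1 le_rfl J).2 h2)
  rw [← fi_image_range]
  exact Finset.image_subset_image (Finset.filter_subset _ _)

end Pool.Agent.MP_0f71ae_nt.Sz
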