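import Pool.Agent.MP_0f71ae_nt.Sz.PI
import Pool.Agent.MP_0f71ae_nt.Sz.FI

/-!
# SB1: exponential moment of a union of pieces
-/

set_option autoImplicit false

namespace Pool.Agent.MP_0f71ae_nt.Sz

open Finset Pool.Agent.MP_0f71ae_nt.Reg Pool.Agent.MP_0f71ae_nt.Cnt

theorem sum_card_prog {L N : ℕ} (P : Fin L → ℕ × ℕ × ℕ) (hP : IsPart N L P) :
    ∑ i, (prog (P i)).card = N := by
  obtain ⟨-, hd, hU⟩ := hP
  rw [← Finset.card_biUnion (fun i _ j _ hij => hd i j hij), hU]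
  simp

theorem sum_card_inter {L N : ℕ} (P : Fin L → ℕ × ℕ × ℕ) (hP : IsPart N L P) (A : Finset ℕ)
    (hA : A ⊆ Icc 1 N) : ∑ i, (A ∩ prog (P i)).card = A.card := by
  obtain ⟨-, hd, hU⟩ := hP
  rw [← Finset.card_biUnion (fun i _ j _ hij =>
    Finset.disjoint_of_subset_left inter_subset_right
      (Finset.disjoint_of_subset_right inter_subset_right (hd i j hij)))]
  congr 1
  ext x
  rw [mem_biUnion]
  constructor
  · rintro ⟨i, _, hx⟩
    exact (mem_inter.1 hx).1
  · intro hx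
    have h1 : x ∈ Finset.univ.biUnion (fun i => prog (P i)) := by rw [hU]; exact hA hx
    rw [mem_biUnion] at h1
    obtain ⟨i, hi, hxi⟩ := h1
    exact ⟨i, hi, mem_inter.2 ⟨hx, hxi⟩⟩

open Classical in
theorem chernoff {η ρ W : ℝ} (hη : 0 ≤ η) (hρ : 0 ≤ ρ) {L N : ℕ} (hN : 1 ≤ N)
    (hB : BlockBd η ρ W N)
    (P : Fin L → ℕ × ℕ × ℕ) (hP : IsPart N L P) (S : Finset (Fin L)) (w θ : ℝ) (hw : 0 < w)
    (hθ : 0 ≤ θ) (hwW : w * Real.exp θ ≤ W) (m : ℕ) (t : ℝ) :
    ((((Icc 1 N).powerset.filter (fun A => APFree A ∧ A.card = m ∧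
      t ≤ ((∑ i ∈ S, (A ∩ prog (P i)).card : ℕ) : ℝ))).card : ℕ) : ℝ) *
        (w ^ m * Real.exp (θ * t)) ≤
      Real.exp ((1 + η) * (((∑ i ∈ S, (prog (P i)).card : ℕ) : ℝ) / N *
        (Real.log (1 + w * Real.exp θ) - Real.log (1 + w)) + Real.log (1 + w) + η +
          L * ρ * (Real.log (1 + W) + η)) * r3 N) := by
  set v : Fin L → ℝ := fun i => if i ∈ S then w * Real.exp θ else w with hv
  have hexp1 : 1 ≤ Real.exp θ := Real.one_le_exp hθ
  have hwe : w ≤ w * Real.exp θ := le_mul_of_one_le_right hw.le hexp1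
  have hv0 : ∀ i, 0 ≤ v i := by
    intro i
    simp only [hv]
    split_ifs
    · positivity
    · exact hw.le
  have hvW : ∀ i, v i ≤ W := by
    intro i
    simp only [hv]
    split_ifs
    · exact hwW
    · exact hwe.trans hwW
  set B : Finset (Finset ℕ) := (Icc 1 N).powerset.filter (fun A => APFree A ∧ A.card = m ∧
      t ≤ ((∑ i ∈ S, (A ∩ prog (P i)).card : ℕ) : ℝ)) with hBdef
  set D : Finset (Finset ℕ) := (Icc 1 N).powerset.filter (fun A => APFree A) with hD
  have hprod0 : ∀ A : Finset ℕ, 0 ≤ ∏ i, v i ^ (A ∩ prog (P i)).card :=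
    fun A => Finset.prod_nonneg fun i _ => pow_nonneg (hv0 i) _
  have h1 : (B.card : ℝ) * (w ^ m * Real.exp (θ * t)) ≤
      ∑ A ∈ D, ∏ i, v i ^ (A ∩ prog (P i)).card := by
    have hsub : B ⊆ D := by
      intro A hA
      rw [hBdef, mem_filter] at hA
      rw [hD, mem_filter]
      exact ⟨hA.1, hA.2.1⟩
    refine le_trans ?_ (Finset.sum_le_sum_of_subset_of_nonneg hsub (fun A _ _ => hprod0 A))
    rw [← nsmul_eq_mul]
    apply Finset.card_nsmul_le_sum
    intro A hA
    rw [hBdef, mem_filter, mem_powerset] at hA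
    obtain ⟨hAN, hAf, hAm, hAt⟩ := hA
    have h2 : ∏ i, v i ^ (A ∩ prog (P i)).card =
        w ^ m * Real.exp (θ * ((∑ i ∈ S, (A ∩ prog (P i)).card : ℕ) : ℝ)) := by
      have h3 : ∀ i, v i ^ (A ∩ prog (P i)).card = w ^ (A ∩ prog (P i)).card *
          (if i ∈ S then Real.exp θ ^ (A ∩ prog (P i)).card else 1) := by
        intro i
        simp only [hv]
        split_ifs
        · rw [mul_pow]
        · rw [mul_one]
      rw [Finset.prod_congr rfl (fun i _ => h3 i), Finset.prod_mul_distrib,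
        Finset.prod_pow_eq_pow_sum, sum_card_inter P hP A hAN, hAm, Finset.prod_ite_mem,
        Finset.univ_inter, Finset.prod_pow_eq_pow_sum, ← Real.exp_nat_mul, mul_comm θ]
    rw [h2]
    apply mul_le_mul_of_nonneg_left _ (by positivity)
    apply Real.exp_le_exp.2
    exact mul_le_mul_of_nonneg_left hAt hθ
  have h4 : ∑ A ∈ D, ∏ i, v i ^ (A ∩ prog (P i)).card ≤ ∏ i, Z (v i) (prog (P i)) :=
    prod_ineq L (fun i => prog (P i)) (Icc 1 N) hP.2.1 hP.2.2 v hv0
  set ℓ : Fin L → ℕ := fun i => (prog (P i)).card with hℓ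
  have hℓsum : ∑ i, ℓ i = N := sum_card_prog P hP
  have hℓN : ∀ i, ℓ i ≤ N := by
    intro i
    rw [← hℓsum]
    exact Finset.single_le_sum (f := ℓ) (fun _ _ => Nat.zero_le _) (Finset.mem_univ i)
  have h5 : ∀ i, Z (v i) (prog (P i)) ≤
      Real.exp ((1 + η) * ((ℓ i : ℝ) / N + ρ) * (Real.log (1 + v i) + η) * r3 N) := by
    intro i
    rw [Z_prog (v i) (P i) (hP.1 i), ← card_prog (P i) (hP.1 i)]
    exact hB.2 (ℓ i) (hℓN i) (v i) (hv0 i) (hvW i)
  have h6 : ∏ i, Z (v i) (prog (P i)) ≤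
      Real.exp (∑ i, (1 + η) * ((ℓ i : ℝ) / N + ρ) * (Real.log (1 + v i) + η) * r3 N) := by
    rw [Real.exp_sum]
    apply Finset.prod_le_prod
    · intro i _
      unfold Z
      exact Finset.sum_nonneg fun I _ => pow_nonneg (hv0 i) _
    · intro i _
      exact h5 i
  refine (h1.trans (h4.trans h6)).trans (Real.exp_le_exp.2 ?_)
  have hNr : (0 : ℝ) < N := by exact_mod_cast hN
  have hr0 : (0 : ℝ) ≤ r3 N := Nat.cast_nonneg _
  have e1 : ∑ i, (1 + η) * ((ℓ i : ℝ) / N + ρ) * (Real.log (1 + v i) + η) * r3 N =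
      (1 + η) * (∑ i, ((ℓ i : ℝ) / N + ρ) * (Real.log (1 + v i) + η)) * r3 N := by
    rw [Finset.mul_sum, Finset.sum_mul]
    apply Finset.sum_congr rfl
    intro i _
    ring
  rw [e1]
  apply mul_le_mul_of_nonneg_right _ hr0
  apply mul_le_mul_of_nonneg_left _ (by linarith)
  have hlog : ∀ i, Real.log (1 + v i) =
      Real.log (1 + w) + (if i ∈ S then (Real.log (1 + w * Real.exp θ) - Real.log (1 + w)) else 0) := by
    intro i
    simp only [hv]
    split_ifs <;> ring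
  have hlogW : ∀ i, Real.log (1 + v i) + η ≤ Real.log (1 + W) + η := by
    intro i
    have := Real.log_le_log (show 0 < 1 + v i by linarith [hv0 i]) (show 1 + v i ≤ 1 + W by
      linarith [hvW i])
    linarith
  have e2 : ∑ i, ((ℓ i : ℝ) / N + ρ) * (Real.log (1 + v i) + η) =
      (∑ i, (ℓ i : ℝ) / N * (Real.log (1 + v i) + η)) +
        ∑ i, ρ * (Real.log (1 + v i) + η) := by
    rw [← Finset.sum_add_distrib]
    apply Finset.sum_congr rfl
    intro i _
    ring
  have e3 : ∑ i, ρ * (Real.log (1 + v i) + η) ≤ L * ρ * (Real.log (1 + W) + η) := by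
    have h7 : ∑ i : Fin L, ρ * (Real.log (1 + v i) + η) ≤
        ∑ _i : Fin L, ρ * (Real.log (1 + W) + η) :=
      Finset.sum_le_sum fun i _ => mul_le_mul_of_nonneg_left (hlogW i) hρ
    refine h7.trans (le_of_eq ?_)
    rw [Finset.sum_const, Finset.card_univ, Fintype.card_fin, nsmul_eq_mul]
    ring
  have hsumr : ∑ i, (ℓ i : ℝ) / N = 1 := by
    rw [← Finset.sum_div]
    have : ∑ i, (ℓ i : ℝ) = N := by exact_mod_cast hℓsum
    rw [this, div_self hNr.ne']
  have e4 : ∑ i, (ℓ i : ℝ) / N * (Real.log (1 + v i) + η) =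
      ((∑ i ∈ S, (prog (P i)).card : ℕ) : ℝ) / N *
        (Real.log (1 + w * Real.exp θ) - Real.log (1 + w)) + Real.log (1 + w) + η := by
    have h8 : ∀ i, (ℓ i : ℝ) / N * (Real.log (1 + v i) + η) =
        (ℓ i : ℝ) / N * (Real.log (1 + w) + η) +
          (if i ∈ S then (ℓ i : ℝ) / N * (Real.log (1 + w * Real.exp θ) - Real.log (1 + w))
            else 0) := by
      intro i
      rw [hlog i]
      split_ifs <;> ring
    rw [Finset.sum_congr rfl (fun i _ => h8 i), Finset.sum_add_distrib, ← Finset.sum_mul, hsumr,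
      Finset.sum_ite_mem, Finset.univ_inter, ← Finset.sum_mul, ← Finset.sum_div]
    push_cast
    ring
  rw [e2, e4]
  linarith

end Pool.Agent.MP_0f71ae_nt.Sz
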