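import Mathlib

/-!
# Hoeffding's bound for a Bernoulli variable and the largest term of the binomial expansion
-/

set_option autoImplicit false

namespace Pool.Agent.MP_0f71ae_nt.Sz

/-- Hoeffding's bound for a Bernoulli variable -/
theorem ch_bern_mgf (l θ : ℝ) (h0 : 0 ≤ l) (h1 : l ≤ 1) :
    (1 - l) + l * Real.exp θ ≤ Real.exp (l * θ + θ ^ 2 / 8) := by
  classical
  obtain ⟨μ, hμ⟩ : ∃ μ : MeasureTheory.Measure ℝ, μ = ENNReal.ofReal (1 - l) • MeasureTheory.Measure.dirac 0 +
      ENNReal.ofReal l • MeasureTheory.Measure.dirac 1 := ⟨_, rfl⟩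
  have hint : ∀ f : ℝ → ℝ, Measurable f → ∫ x, f x ∂μ = (1 - l) * f 0 + l * f 1 := by
    intro f hf
    rw [hμ, MeasureTheory.integral_add_measure, MeasureTheory.integral_smul_measure,
      MeasureTheory.integral_smul_measure, MeasureTheory.integral_dirac, MeasureTheory.integral_dirac,
      ENNReal.toReal_ofReal (by linarith), ENNReal.toReal_ofReal h0, smul_eq_mul, smul_eq_mul]
    · exact MeasureTheory.Integrable.smul_measure (MeasureTheory.integrable_dirac (by simp)) ENNReal.ofReal_ne_top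
    · exact MeasureTheory.Integrable.smul_measure (MeasureTheory.integrable_dirac (by simp)) ENNReal.ofReal_ne_top
  have hprob : MeasureTheory.IsProbabilityMeasure μ := by
    constructor
    rw [hμ]
    simp only [MeasureTheory.Measure.coe_add, MeasureTheory.Measure.coe_smul, Pi.add_apply, Pi.smul_apply,
      MeasureTheory.measure_univ, smul_eq_mul, mul_one]
    rw [← ENNReal.ofReal_add (by linarith) h0]
    simp
  have hb : ∀ᵐ x ∂μ, x ∈ Set.Icc (0 : ℝ) 1 := by
    rw [hμ, MeasureTheory.ae_add_measure_iff]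
    constructor
    · apply MeasureTheory.Measure.ae_smul_measure
      rw [MeasureTheory.ae_dirac_eq]
      simp
    · apply MeasureTheory.Measure.ae_smul_measure
      rw [MeasureTheory.ae_dirac_eq]
      simp
  have h := ProbabilityTheory.hasSubgaussianMGF_of_mem_Icc (μ := μ) (X := fun x : ℝ => x) (a := 0) (b := 1)
    aemeasurable_id hb
  have h2 := h.mgf_le θ
  rw [ProbabilityTheory.mgf, hint _ (by fun_prop), hint _ (by fun_prop)] at h2
  have e : (((‖(1 : ℝ) - 0‖₊ / 2) ^ 2 : NNReal) : ℝ) * θ ^ 2 / 2 = θ ^ 2 / 8 := by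
    simp
    ring
  rw [e] at h2
  simp only [mul_zero, mul_one, zero_add, zero_sub] at h2
  have h3 : ((1 - l) + l * Real.exp θ) = ((1 - l) * Real.exp (θ * -l) + l * Real.exp (θ * (1 - l))) * Real.exp (l * θ) := by
    rw [add_mul, mul_assoc, mul_assoc, ← Real.exp_add, ← Real.exp_add,
      show θ * -l + l * θ = 0 by ring, show θ * (1 - l) + l * θ = θ by ring, Real.exp_zero, mul_one]
  rw [h3, Real.exp_add, mul_comm (Real.exp (l * θ))]
  exact mul_le_mul_of_nonneg_right h2 (Real.exp_pos _).le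

/-! ### HF: Hoeffding -/
theorem hoeff (w θ : ℝ) (hw : 0 < w) :
    Real.log (1 + w * Real.exp θ) ≤ Real.log (1 + w) + w / (1 + w) * θ + θ ^ 2 / 8 := by
  have h := ch_bern_mgf (w / (1 + w)) θ (by positivity)
    (by rw [div_le_one (by positivity)]; linarith)
  have hp : (0:ℝ) < 1 + w := by linarith
  have h2 : 1 + w * Real.exp θ =
      (1 + w) * ((1 - w / (1 + w)) + w / (1 + w) * Real.exp θ) := by
    field_simp
    ring
  have h3 : 1 + w * Real.exp θ ≤ (1 + w) * Real.exp (w / (1 + w) * θ + θ ^ 2 / 8) := by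
    rw [h2]
    exact mul_le_mul_of_nonneg_left h hp.le
  have h4 : (0:ℝ) < 1 + w * Real.exp θ := by positivity
  have h5 := Real.log_le_log h4 h3
  rw [Real.log_mul hp.ne' (Real.exp_pos _).ne', Real.log_exp] at h5
  linarith

/-- The term `j` of the expansion of `(m + (r - m))^r`. -/
private noncomputable def ch_trm (r m j : ℕ) : ℝ :=
  (r.choose j : ℝ) * (m : ℝ) ^ j * ((r : ℝ) - m) ^ (r - j)

private theorem ch_trm_nonneg (r m j : ℕ) (h : m ≤ r) : 0 ≤ ch_trm r m j := by
  have : (0:ℝ) ≤ (r : ℝ) - m := by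
    have : (m:ℝ) ≤ r := by exact_mod_cast h
    linarith
  unfold ch_trm
  positivity

private theorem ch_trm_step (r m j : ℕ) (hj : j < r) :
    ((j : ℝ) + 1) * ((r : ℝ) - m) * ch_trm r m (j + 1) = ((r : ℝ) - j) * m * ch_trm r m j := by
  have hc : ((r.choose (j + 1) : ℕ) : ℝ) * ((j : ℝ) + 1) = (r.choose j : ℝ) * ((r : ℝ) - j) := by
    have h1 := Nat.choose_succ_right_eq r j
    have h2 : ((r.choose (j + 1) * (j + 1) : ℕ) : ℝ) = ((r.choose j * (r - j) : ℕ) : ℝ) := by
      exact_mod_cast h1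
    rw [Nat.cast_mul, Nat.cast_mul, Nat.cast_sub hj.le] at h2
    push_cast at h2
    exact h2
  have he : r - j = (r - (j + 1)) + 1 := by omega
  unfold ch_trm
  rw [he, pow_succ, pow_succ]
  calc ((j : ℝ) + 1) * ((r : ℝ) - m) *
        ((r.choose (j + 1) : ℝ) * ((m : ℝ) ^ j * m) * ((r : ℝ) - m) ^ (r - (j + 1)))
      = ((r.choose (j + 1) : ℝ) * ((j : ℝ) + 1)) * ((r : ℝ) - m) * ((m : ℝ) ^ j * m) *
        ((r : ℝ) - m) ^ (r - (j + 1)) := by ring
    _ = _ := by rw [hc]; ring

/-- up to `m` the terms increase. -/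
private theorem ch_trm_mono (r m j : ℕ) (h : m < r) (hj : j < m) : ch_trm r m j ≤ ch_trm r m (j + 1) := by
  have hs := ch_trm_step r m j (by omega)
  have h1 : (0:ℝ) < (r : ℝ) - m := by
    have : (m:ℝ) < r := by exact_mod_cast h
    linarith
  have hj' : (j : ℝ) + 1 ≤ m := by exact_mod_cast hj
  have hm' : (m : ℝ) < r := by exact_mod_cast h
  have h0 := ch_trm_nonneg r m j h.le
  have hpos : (0:ℝ) < ((j : ℝ) + 1) * ((r : ℝ) - m) := by positivity
  have hcmp : ((j : ℝ) + 1) * ((r : ℝ) - m) ≤ ((r : ℝ) - j) * m := by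
    have hj0 : (0:ℝ) ≤ j := Nat.cast_nonneg j
    nlinarith
  have h2 : ((j : ℝ) + 1) * ((r : ℝ) - m) * ch_trm r m j ≤
      ((j : ℝ) + 1) * ((r : ℝ) - m) * ch_trm r m (j + 1) := by
    rw [hs]
    exact mul_le_mul_of_nonneg_right hcmp h0
  exact le_of_mul_le_mul_left h2 hpos

/-- from `m` on the terms decrease. -/
private theorem ch_trm_anti (r m j : ℕ) (h : m < r) (hj : m ≤ j) (hjr : j < r) :
    ch_trm r m (j + 1) ≤ ch_trm r m j := by
  have hs := ch_trm_step r m j hjr
  have h1 : (0:ℝ) < (r : ℝ) - m := by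
    have : (m:ℝ) < r := by exact_mod_cast h
    linarith
  have hj' : (m : ℝ) ≤ j := by exact_mod_cast hj
  have hjr' : (j : ℝ) + 1 ≤ r := by exact_mod_cast hjr
  have h0 := ch_trm_nonneg r m j h.le
  have hpos : (0:ℝ) < ((j : ℝ) + 1) * ((r : ℝ) - m) := by positivity
  have hcmp : ((r : ℝ) - j) * m ≤ ((j : ℝ) + 1) * ((r : ℝ) - m) := by
    have hm0 : (0:ℝ) ≤ m := Nat.cast_nonneg m
    nlinarith
  have h2 : ((j : ℝ) + 1) * ((r : ℝ) - m) * ch_trm r m (j + 1) ≤
      ((j : ℝ) + 1) * ((r : ℝ) - m) * ch_trm r m j := by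
    rw [hs]
    exact mul_le_mul_of_nonneg_right hcmp h0
  exact le_of_mul_le_mul_left h2 hpos

private theorem ch_trm_le (r m j : ℕ) (h : m < r) (hj : j ≤ r) : ch_trm r m j ≤ ch_trm r m m := by
  rcases le_total j m with hjm | hjm
  · -- increasing
    obtain ⟨d, rfl⟩ := Nat.exists_eq_add_of_le hjm
    have key : ∀ e : ℕ, e ≤ d → ch_trm r (j + d) j ≤ ch_trm r (j + d) (j + e) := by
      intro e
      induction e with
      | zero => intro _; exact le_rfl
      | succ e ih =>
        intro he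
        exact (ih (by omega)).trans (ch_trm_mono r (j + d) (j + e) h (by omega))
    exact key d le_rfl
  · obtain ⟨d, rfl⟩ := Nat.exists_eq_add_of_le hjm
    have key : ∀ e : ℕ, m + e ≤ r → ch_trm r m (m + e) ≤ ch_trm r m m := by
      intro e
      induction e with
      | zero => intro _; exact le_rfl
      | succ e ih =>
        intro he
        exact (ch_trm_anti r m (m + e) h (by omega) (by omega)).trans (ih (by omega))
    exact key d hj

/-- The largest term of `(m + (r-m))^r` is the `m`-th. -/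
theorem ch_pow_le (r m : ℕ) (h : m < r) :
    (r : ℝ) ^ r ≤ ((r : ℝ) + 1) * ((r.choose m : ℝ) * (m : ℝ) ^ m * ((r : ℝ) - m) ^ (r - m)) := by
  have h1 : (r : ℝ) ^ r = ∑ j ∈ Finset.range (r + 1), ch_trm r m j := by
    have h2 := add_pow (m : ℝ) ((r : ℝ) - m) r
    have h3 : (m : ℝ) + ((r : ℝ) - m) = r := by ring
    rw [h3] at h2
    rw [h2]
    apply Finset.sum_congr rfl
    intro j _
    unfold ch_trm
    ring
  rw [h1]
  calc ∑ j ∈ Finset.range (r + 1), ch_trm r m j ≤ ∑ j ∈ Finset.range (r + 1), ch_trm r m m := by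
        apply Finset.sum_le_sum
        intro j hj
        exact ch_trm_le r m j h (by have := Finset.mem_range.mp hj; omega)
    _ = _ := by
        rw [Finset.sum_const, Finset.card_range, nsmul_eq_mul]
        push_cast
        rfl

/-- `w^(-m) (1+w)^r ≤ (r+1) binom(r,m)` for `w = m/(r-m)`. -/
theorem ch_choose (r m : ℕ) (h0 : 0 < m) (h : m < r) :
    (1 + (m : ℝ) / ((r : ℝ) - m)) ^ r / ((m : ℝ) / ((r : ℝ) - m)) ^ m ≤
      ((r : ℝ) + 1) * (r.choose m : ℝ) := by
  have hm' : (m : ℝ) < r := by exact_mod_cast h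
  have hm0 : (0 : ℝ) < m := by exact_mod_cast h0
  have h1 : (0:ℝ) < (r : ℝ) - m := by linarith
  have hp := ch_pow_le r m h
  have e1 : (1 + (m : ℝ) / ((r : ℝ) - m)) = r / ((r : ℝ) - m) := by
    field_simp
    ring
  rw [e1, div_pow, div_pow]
  have e2 : ((r : ℝ) - m) ^ r = ((r : ℝ) - m) ^ (r - m) * ((r : ℝ) - m) ^ m := by
    rw [← pow_add]
    congr 1
    omega
  rw [e2, div_div_div_eq, div_le_iff₀ (by positivity)]
  calc (r : ℝ) ^ r * ((r : ℝ) - m) ^ m
      ≤ (((r : ℝ) + 1) * ((r.choose m : ℝ) * (m : ℝ) ^ m * ((r : ℝ) - m) ^ (r - m))) *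
        ((r : ℝ) - m) ^ m := mul_le_mul_of_nonneg_right hp (by positivity)
    _ = _ := by ring

/-! ### CH: the largest term of the binomial expansion -/
theorem pow_le_choose (r m : ℕ) (hm : 0 < m) (hmr : m < r) :
    (1 + (m : ℝ) / ((r : ℝ) - m)) ^ r ≤
      ((r : ℝ) + 1) * (r.choose m) * ((m : ℝ) / ((r : ℝ) - m)) ^ m := by
  have h1 := ch_choose r m hm hmr
  have hm' : (m : ℝ) < r := by exact_mod_cast hmr
  have hm0 : (0 : ℝ) < m := by exact_mod_cast hm
  have h2 : (0:ℝ) < (r : ℝ) - m := by linarith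
  rwa [div_le_iff₀ (by positivity)] at h1

end Pool.Agent.MP_0f71ae_nt.Sz
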