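import Pool.Agent.MP_0f71ae_nt.Sz.Def
import Pool.Agent.MP_0f71ae_nt.Sz.CH

/-!
# Row SA: the size law
-/

set_option autoImplicit false

namespace Pool.Agent.MP_0f71ae_nt.Sz

open Finset Pool.Agent.MP_0f71ae_nt.Reg Pool.Agent.MP_0f71ae_nt.Cnt

theorem sa_sub {A B : Finset ℕ} (h : A ⊆ B) (hB : APFree B) : APFree A := by
  rintro a d hd ⟨h1, h2, h3⟩
  exact hB a d hd ⟨h h1, h h2, h h3⟩

theorem size_lower (N m : ℕ) (hm : m ≤ r3 N) : (r3 N).choose m ≤ F N m := by
  classical
  obtain ⟨A, hA, hf, hc⟩ := exists_r3 N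
  rw [← hc, ← Finset.card_powersetCard]
  unfold F
  apply Finset.card_le_card
  intro B hB
  rw [Finset.mem_powersetCard] at hB
  rw [Finset.mem_filter, Finset.mem_powerset]
  exact ⟨hB.1.trans hA, sa_sub hB.1 hf, hB.2⟩

theorem sa_F_le (N m : ℕ) {w : ℝ} (hw : 0 ≤ w) : (F N m : ℝ) * w ^ m ≤ Z w (Icc 1 N) := by
  classical
  unfold F Z
  have h1 : ((((Icc 1 N).powerset.filter (fun A => APFree A ∧ A.card = m)).card : ℕ) : ℝ) * w ^ m
      = ∑ I ∈ (Icc 1 N).powerset.filter (fun A => APFree A ∧ A.card = m), w ^ I.card := by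
    rw [Finset.sum_congr rfl (g := fun _ => w ^ m)]
    · rw [Finset.sum_const, nsmul_eq_mul]
    · intro I hI
      rw [(Finset.mem_filter.mp hI).2.2]
  have h2 : (∑ I ∈ (Icc 1 N).powerset.filter (fun A => APFree A ∧ A.card = m), w ^ I.card) ≤
      ∑ I ∈ (Icc 1 N).powerset.filter (fun I => APFree I), w ^ I.card := by
    apply Finset.sum_le_sum_of_subset_of_nonneg
    · intro I hI
      rw [Finset.mem_filter] at hI ⊢
      exact ⟨hI.1, hI.2.1⟩
    · intro I _ _
      positivity
  calc _ = _ := by convert h1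
    _ ≤ _ := by convert h2

theorem sa_F_zero (N : ℕ) : F N 0 ≤ 1 := by
  classical
  unfold F
  rw [Finset.card_le_one]
  intro a ha b hb
  rw [Finset.mem_filter] at ha hb
  rw [Finset.card_eq_zero.mp ha.2.2, Finset.card_eq_zero.mp hb.2.2]

theorem size_upper (ε : ℝ) (hε : 0 < ε) (hε1 : ε ≤ 1) :
    ∃ η : ℝ, 0 < η ∧ η ≤ 1 ∧ ∃ W : ℝ, 1 ≤ W ∧ ∃ C1 : ℝ, ∀ N : ℕ, 1 ≤ N → ∀ ρ : ℝ, 0 ≤ ρ → ρ ≤ η →
      BlockBd η ρ W N → C1 * Real.log (N + 1) ≤ r3 N → ∀ m ≤ r3 N,
        (F N m : ℝ) ≤ (2 : ℝ) ^ (ε * r3 N) * (r3 N).choose m := by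
  set W : ℝ := (24 / ε) ^ 2 with hW
  have h24 : 24 ≤ 24 / ε := by
    rw [le_div_iff₀ hε]
    linarith
  have hW1 : 1 ≤ W := by
    rw [hW]
    nlinarith
  have hW0 : 0 < W := by linarith
  have hlW : 0 ≤ Real.log (1 + W) := Real.log_nonneg (by linarith)
  set η : ℝ := ε / (64 * (Real.log (1 + W) + 1)) with hη
  have hη0 : 0 < η := by positivity
  have hηl : η * (Real.log (1 + W) + 1) = ε / 64 := by
    rw [hη]
    field_simp
  have hη1 : η ≤ ε / 64 := by
    rw [← hηl]
    nlinarith
  have hlog2 : (1 : ℝ) / 2 < Real.log 2 := by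
    have := Real.log_two_gt_d9
    linarith
  refine ⟨η, hη0, by linarith, W, hW1, 16 / ε, ?_⟩
  intro N hN ρ hρ hρη hB hC m hm
  set r : ℕ := r3 N with hr
  have hr0 : (0 : ℝ) ≤ r := Nat.cast_nonneg _
  have hNr : (N : ℝ) ≠ 0 := by
    have : (0 : ℝ) < N := by exact_mod_cast hN
    exact this.ne'
  have hlogN : Real.log (N + 1) ≤ ε / 16 * r := by
    have h1 : 16 / ε * Real.log (N + 1) * (ε / 16) ≤ r * (ε / 16) :=
      mul_le_mul_of_nonneg_right hC (by positivity)
    have h2 : 16 / ε * Real.log (N + 1) * (ε / 16) = Real.log (N + 1) := by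
      field_simp
    linarith
  have h2pow : (2 : ℝ) ^ (ε * r) = Real.exp (Real.log 2 * (ε * r)) := by
    rw [Real.rpow_def_of_pos (by norm_num)]
  -- the bound of the generating function
  have hZ : ∀ w : ℝ, 0 ≤ w → w ≤ W → Z w (Icc 1 N) ≤
      Real.exp ((Real.log (1 + w) + ε / 16) * r) := by
    intro w hw hwW
    have h1 := hB.2 N le_rfl w hw hwW
    refine h1.trans (Real.exp_le_exp.mpr ?_)
    rw [div_self hNr]
    have hl0 : 0 ≤ Real.log (1 + w) := Real.log_nonneg (by linarith)
    have hl1 : Real.log (1 + w) ≤ Real.log (1 + W) :=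
      Real.log_le_log (by linarith) (by linarith)
    apply mul_le_mul_of_nonneg_right _ hr0
    have h3 : (1 + η) * (1 + ρ) ≤ 1 + 3 * η := by nlinarith
    have h4 : (1 + η) * (1 + ρ) * (Real.log (1 + w) + η) ≤
        (1 + 3 * η) * (Real.log (1 + w) + η) := mul_le_mul_of_nonneg_right h3 (by positivity)
    have h5 : η * Real.log (1 + w) ≤ η * Real.log (1 + W) := mul_le_mul_of_nonneg_left hl1 hη0.le
    have h6 : η * η ≤ η * 1 := mul_le_mul_of_nonneg_left (by linarith) hη0.le
    nlinarith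
  rcases Nat.eq_zero_or_pos m with hm0 | hm0
  · subst hm0
    have h1 : (F N 0 : ℝ) ≤ 1 := by exact_mod_cast sa_F_zero N
    have h2 : (1 : ℝ) ≤ (2 : ℝ) ^ (ε * r) := Real.one_le_rpow (by norm_num) (by positivity)
    simpa using h1.trans h2
  by_cases hcase : (m : ℝ) ≤ W * ((r : ℝ) - m)
  · -- the main case
    have hmR : (0 : ℝ) < m := by exact_mod_cast hm0
    have hrm : 0 < (r : ℝ) - m := by
      by_contra hcon
      push Not at hcon
      nlinarith
    have hmr : m < r := by
      have : (m : ℝ) < r := by linarith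
      exact_mod_cast this
    set w : ℝ := (m : ℝ) / ((r : ℝ) - m) with hw
    have hw0 : 0 < w := by positivity
    have hwW : w ≤ W := by
      rw [hw, div_le_iff₀ hrm]
      exact hcase
    have h1 := sa_F_le N m hw0.le
    have h2 := hZ w hw0.le hwW
    have h3 := pow_le_choose r m hm0 hmr
    rw [← hw] at h3
    have h4 : Real.exp ((Real.log (1 + w) + ε / 16) * r) = (1 + w) ^ r * Real.exp (ε / 16 * r) := by
      rw [add_mul, Real.exp_add, mul_comm (Real.log (1 + w)), Real.exp_nat_mul,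
        Real.exp_log (by linarith)]
    have h5 : ((r : ℝ) + 1) ≤ Real.exp (ε / 16 * r) := by
      have h6 : (r : ℝ) ≤ N := by exact_mod_cast r3_le N
      have h7 : (0 : ℝ) < (N : ℝ) + 1 := by positivity
      calc (r : ℝ) + 1 ≤ N + 1 := by linarith
        _ = Real.exp (Real.log (N + 1)) := (Real.exp_log h7).symm
        _ ≤ Real.exp (ε / 16 * r) := Real.exp_le_exp.mpr hlogN
    have hwm : 0 < w ^ m := by positivity
    have hch : (0 : ℝ) ≤ (r.choose m : ℝ) := Nat.cast_nonneg _
    have h8 : (F N m : ℝ) * w ^ m ≤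
        ((2 : ℝ) ^ (ε * r) * (r.choose m)) * w ^ m := by
      calc (F N m : ℝ) * w ^ m ≤ (1 + w) ^ r * Real.exp (ε / 16 * r) := by
            rw [← h4]
            exact h1.trans h2
        _ ≤ (((r : ℝ) + 1) * (r.choose m) * w ^ m) * Real.exp (ε / 16 * r) :=
            mul_le_mul_of_nonneg_right h3 (Real.exp_pos _).le
        _ ≤ ((Real.exp (ε / 16 * r)) * (r.choose m) * w ^ m) * Real.exp (ε / 16 * r) := by
            apply mul_le_mul_of_nonneg_right _ (Real.exp_pos _).le
            apply mul_le_mul_of_nonneg_right _ hwm.le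
            exact mul_le_mul_of_nonneg_right h5 hch
        _ = (Real.exp (ε / 16 * r) * Real.exp (ε / 16 * r)) * (r.choose m) * w ^ m := by ring
        _ ≤ (2 : ℝ) ^ (ε * r) * (r.choose m) * w ^ m := by
            apply mul_le_mul_of_nonneg_right _ hwm.le
            apply mul_le_mul_of_nonneg_right _ hch
            rw [← Real.exp_add, h2pow]
            apply Real.exp_le_exp.mpr
            have : 1 / 2 * (ε * r) ≤ Real.log 2 * (ε * r) :=
              mul_le_mul_of_nonneg_right hlog2.le (by positivity)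
            nlinarith [mul_nonneg hε.le hr0]
    exact le_of_mul_le_mul_right h8 hwm
  · -- nearly extremal sizes
    push Not at hcase
    have h1 := sa_F_le N m hW0.le
    have h2 := hZ W hW0.le le_rfl
    have hWm : 0 < W ^ m := by positivity
    have hch : (1 : ℝ) ≤ (r.choose m : ℝ) := by
      exact_mod_cast Nat.choose_pos hm
    have h3 : (F N m : ℝ) * W ^ m ≤ (2 : ℝ) ^ (ε * r) * W ^ m := by
      refine (h1.trans h2).trans ?_
      rw [h2pow]
      have h4 : W ^ m = Real.exp (m * Real.log W) := by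
        rw [Real.exp_nat_mul, Real.exp_log hW0]
      rw [h4, ← Real.exp_add]
      apply Real.exp_le_exp.mpr
      have hlW0 : 0 ≤ Real.log W := Real.log_nonneg hW1
      -- log (1 + W) ≤ log W + 1 / W
      have h5 : Real.log (1 + W) ≤ Real.log W + 1 / W := by
        have h6 : 1 + W = W * (1 + 1 / W) := by
          field_simp
          ring
        rw [h6, Real.log_mul hW0.ne' (by positivity)]
        have h7 := Real.log_le_sub_one_of_pos (show (0 : ℝ) < 1 + 1 / W by positivity)
        linarith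
      -- log W ≤ 2 √W
      have h8 : Real.log W ≤ 2 * (24 / ε) := by
        rw [hW, Real.log_pow]
        have h9 := Real.log_le_sub_one_of_pos (show (0 : ℝ) < 24 / ε by positivity)
        push_cast
        linarith
      have h10 : (r : ℝ) - m ≤ r / W := by
        rw [le_div_iff₀ hW0]
        have : (m : ℝ) ≤ r := by exact_mod_cast hm
        nlinarith
      have h11 : ((r : ℝ) - m) * Real.log W ≤ r / W * (2 * (24 / ε)) :=
        mul_le_mul h10 h8 hlW0 (by positivity)
      have hinv : (1 : ℝ) / W = ε ^ 2 / 576 := by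
        rw [hW, div_pow, one_div, inv_div]
        norm_num
      have h12 : (1 : ℝ) / W ≤ ε / 16 := by
        rw [hinv]
        nlinarith
      have h13 : (r : ℝ) / W * (2 * (24 / ε)) = r * (ε / 12) := by
        have ha : (r : ℝ) / W = r * (ε ^ 2 / 576) := by
          rw [← hinv, mul_one_div]
        rw [ha]
        have hb : ε ^ 2 / 576 * (2 * (24 / ε)) = ε / 12 := by
          rw [sq, div_mul_eq_mul_div, div_eq_div_iff (by norm_num) (by norm_num)]
          have hc : ε * (24 / ε) = 24 := mul_div_cancel₀ 24 hε.ne'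
          calc ε * ε * (2 * (24 / ε)) * 12 = ε * (ε * (24 / ε)) * 24 := by ring
            _ = ε * 576 := by rw [hc]; ring
        rw [mul_assoc, hb]
      have h14 : 1 / 2 * (ε * r) ≤ Real.log 2 * (ε * r) :=
        mul_le_mul_of_nonneg_right hlog2.le (by positivity)
      have h15 : (Real.log (1 + W) + ε / 16) * r ≤ (Real.log W + ε / 16 + ε / 16) * r := by
        apply mul_le_mul_of_nonneg_right _ hr0
        linarith
      have h16 : 0 ≤ ε * r := by positivity
      nlinarith
    have h4 := le_of_mul_le_mul_right h3 hWm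
    refine h4.trans ?_
    have h5 : (0 : ℝ) ≤ (2 : ℝ) ^ (ε * r) := by positivity
    nlinarith

end Pool.Agent.MP_0f71ae_nt.Sz
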