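import Pool.Agent.MP_0f71ae_nt.Sz.Def

set_option autoImplicit false

namespace Pool.Agent.MP_0f71ae_nt.Sz

open Finset Pool.Agent.MP_0f71ae_nt.Reg

theorem np_norm (N : ℕ) (hN : 1 ≤ N) (p : ℕ × ℕ × ℕ) (hq : 1 ≤ p.2.1)
    (hp : prog p ⊆ Icc 1 N) :
    ∃ p' ∈ (range (N + 1) ×ˢ (range (N + 1) ×ˢ range (N + 1)) : Finset (ℕ × ℕ × ℕ)),
      1 ≤ p'.2.1 ∧ prog p' = prog p := by
  obtain ⟨a, q, l⟩ := p
  simp only at hq
  have hmem : ∀ j, j < l → 1 ≤ a + q * j ∧ a + q * j ≤ N := by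
    intro j hj
    have : a + q * j ∈ Icc 1 N := hp (by
      simp only [prog, mem_image, mem_range]
      exact ⟨j, hj, rfl⟩)
    rwa [mem_Icc] at this
  match l, hmem with
  | 0, _ =>
    refine ⟨(0, 1, 0), ?_, le_refl _, ?_⟩
    · simp only [mem_product, mem_range]
      omega
    · simp [prog]
  | 1, hmem =>
    have h0 := hmem 0 (by omega)
    refine ⟨(a, 1, 1), ?_, le_refl _, ?_⟩
    · simp only [mem_product, mem_range]
      omega
    · simp [prog]
  | l + 2, hmem =>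
    have h1 := hmem 1 (by omega)
    have h2 := hmem (l + 1) (by omega)
    have h3 : 1 * (l + 1) ≤ q * (l + 1) := Nat.mul_le_mul_right _ hq
    refine ⟨(a, q, l + 2), ?_, hq, rfl⟩
    simp only [mem_product, mem_range]
    have h0 := hmem 0 (by omega)
    refine ⟨by omega, by omega, by omega⟩

theorem exists_family (N L : ℕ) (hN : 1 ≤ N) : ∃ Q : Finset (Fin L → ℕ × ℕ × ℕ),
    (Q.card : ℝ) ≤ ((N : ℝ) + 1) ^ (3 * L) ∧ (∀ P ∈ Q, IsPart N L P) ∧
    ∀ P, IsPart N L P → ∃ P' ∈ Q, ∀ i, prog (P i) = prog (P' i) := by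
  classical
  set T : Finset (ℕ × ℕ × ℕ) := range (N + 1) ×ˢ (range (N + 1) ×ˢ range (N + 1)) with hT
  refine ⟨(Fintype.piFinset fun _ : Fin L => T).filter fun P => IsPart N L P, ?_, ?_, ?_⟩
  · have h1 : ((Fintype.piFinset fun _ : Fin L => T).filter fun P => IsPart N L P).card ≤
        (Fintype.piFinset fun _ : Fin L => T).card := card_filter_le _ _
    rw [Fintype.card_piFinset, prod_const, card_univ, Fintype.card_fin, hT, card_product,
      card_product, card_range] at h1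
    have h2 : ((N + 1) * ((N + 1) * (N + 1))) ^ L = (N + 1) ^ (3 * L) := by
      rw [pow_mul]
      congr 1
      ring
    rw [h2] at h1
    exact_mod_cast h1
  · intro P hP
    exact (mem_filter.1 hP).2
  · intro P hP
    obtain ⟨h1, h2, h3⟩ := hP
    have hsub : ∀ i, prog (P i) ⊆ Icc 1 N := by
      intro i
      rw [← h3]
      exact subset_biUnion_of_mem (fun i => prog (P i)) (mem_univ i)
    choose P' m1 m2 m3 using fun i => np_norm N hN (P i) (h1 i) (hsub i)
    refine ⟨P', ?_, fun i => (m3 i).symm⟩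
    rw [mem_filter, Fintype.mem_piFinset]
    refine ⟨m1, m2, fun i j hij => ?_, ?_⟩
    · rw [m3, m3]
      exact h2 i j hij
    · rw [← h3]
      exact biUnion_congr rfl fun i _ => m3 i

end Pool.Agent.MP_0f71ae_nt.Sz
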