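import Pool.Agent.MP_0f71ae_nt.Sz.Def

/-!
# Almost all sets without three-term progressions have about half of the maximal size
-/

set_option autoImplicit false

namespace Pool.Agent.MP_0f71ae_nt.Sz

open Finset Pool.Agent.MP_0f71ae_nt.Reg

theorem sc_log (x : ℝ) : Real.log (1 + Real.exp x) ≤ x / 2 + Real.log 2 + x ^ 2 / 8 := by
  have h1 : 1 + Real.exp x = Real.exp (x / 2) * (2 * Real.cosh (x / 2)) := by
    rw [Real.cosh_eq]
    have e1 : Real.exp (x / 2) * Real.exp (x / 2) = Real.exp x := by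
      rw [← Real.exp_add]; congr 1; ring
    have e2 : Real.exp (x / 2) * Real.exp (-(x / 2)) = 1 := by
      rw [← Real.exp_add]; simp
    nlinarith
  have h2 : Real.cosh (x / 2) ≤ Real.exp ((x / 2) ^ 2 / 2) := Real.cosh_le_exp_half_sq _
  have hc : 0 < Real.cosh (x / 2) := Real.cosh_pos _
  rw [h1, Real.log_mul (Real.exp_pos _).ne' (by positivity), Real.log_exp,
    Real.log_mul (by norm_num) hc.ne']
  have h3 : Real.log (Real.cosh (x / 2)) ≤ (x / 2) ^ 2 / 2 := by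
    rw [Real.log_le_iff_le_exp hc]
    exact h2
  have h4 : (x / 2) ^ 2 / 2 = x ^ 2 / 8 := by ring
  linarith

open Classical in
theorem sc_tail {ε η ρ : ℝ} (hε : 0 < ε) (hε1 : ε ≤ 1) (hη : η = ε ^ 2 / 20) {N : ℕ}
    (hN : 1 ≤ N) (hρ : 0 ≤ ρ) (hρη : ρ ≤ η) (hB : BlockBd η ρ (Real.exp 4) N) (x : ℝ)
    (hx : |x| = 4 * ε) (T : Finset (Finset ℕ))
    (hT : ∀ A ∈ T, A ⊆ Icc 1 N ∧ APFree A ∧ x * (r3 N / 2) + |x| * (ε * r3 N) ≤ x * A.card) :
    (T.card : ℝ) ≤ (2 : ℝ) ^ ((1 - ε ^ 2) * r3 N) := by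
  have hη0 : 0 < η := by rw [hη]; positivity
  have hη1 : η ≤ 1 / 20 := by rw [hη]; nlinarith
  set r : ℝ := (r3 N : ℝ) with hr
  have hr0 : 0 ≤ r := Nat.cast_nonneg _
  have hx4 : x ≤ 4 := by
    have := le_abs_self x
    nlinarith
  have hN0 : (0 : ℝ) < N := by exact_mod_cast hN
  have hZ := hB.2 N le_rfl (Real.exp x) (Real.exp_pos _).le (Real.exp_le_exp.2 hx4)
  rw [div_self hN0.ne'] at hZ
  set y : ℝ := Real.log (1 + Real.exp x) with hy
  have hy0 : 0 ≤ y := Real.log_nonneg (by have := Real.exp_pos x; linarith)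
  have hyb : y ≤ x / 2 + Real.log 2 + x ^ 2 / 8 := sc_log x
  have hx2 : x ^ 2 = 16 * ε ^ 2 := by
    rw [← sq_abs, hx]; ring
  have hl2 := Real.log_two_lt_d9
  have hy5 : y ≤ 5 := by
    rw [hx2] at hyb
    nlinarith
  -- the sum over `T`
  have h1 : (T.card : ℝ) * Real.exp (x * (r / 2) + |x| * (ε * r)) ≤
      Z (Real.exp x) (Icc 1 N) := by
    calc (T.card : ℝ) * Real.exp (x * (r / 2) + |x| * (ε * r))
        = ∑ A ∈ T, Real.exp (x * (r / 2) + |x| * (ε * r)) := by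
          rw [sum_const, nsmul_eq_mul]
      _ ≤ ∑ A ∈ T, Real.exp x ^ A.card := by
          apply sum_le_sum
          intro A hA
          rw [← Real.exp_nat_mul, mul_comm (A.card : ℝ) x]
          exact Real.exp_le_exp.2 (hT A hA).2.2
      _ ≤ Z (Real.exp x) (Icc 1 N) := by
          unfold Z
          apply sum_le_sum_of_subset_of_nonneg
          · intro A hA
            rw [mem_filter, mem_powerset]
            exact ⟨(hT A hA).1, (hT A hA).2.1⟩
          · intro A _ _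
            positivity
  have h2 : (T.card : ℝ) ≤
      Real.exp ((1 + η) * (1 + ρ) * (y + η) * r - (x * (r / 2) + |x| * (ε * r))) := by
    rw [Real.exp_sub, le_div_iff₀ (Real.exp_pos _)]
    exact h1.trans hZ
  refine h2.trans ?_
  rw [Real.rpow_def_of_pos (by norm_num)]
  apply Real.exp_le_exp.2
  have h3 : (1 + η) * (1 + ρ) * (y + η) ≤ y + 19 * η := by
    have e1 : (1 + η) * (1 + ρ) ≤ (1 + η) * (1 + η) := by
      apply mul_le_mul_of_nonneg_left (by linarith) (by linarith)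
    have e2 : (1 + η) * (1 + ρ) * (y + η) ≤ (1 + η) * (1 + η) * (y + η) :=
      mul_le_mul_of_nonneg_right e1 (by linarith)
    have e3 : (1 + η) * (1 + η) ≤ 1 + 3 * η := by nlinarith
    have e4 : (1 + η) * (1 + η) * (y + η) ≤ (1 + 3 * η) * (y + η) :=
      mul_le_mul_of_nonneg_right e3 (by linarith)
    nlinarith
  have h4 : (1 + η) * (1 + ρ) * (y + η) * r ≤ (y + 19 * η) * r :=
    mul_le_mul_of_nonneg_right h3 hr0
  have h5 : (y + 19 * η) * r - (x * (r / 2) + |x| * (ε * r)) =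
      (y + 19 * η - x / 2 - |x| * ε) * r := by ring
  have h6 : y + 19 * η - x / 2 - |x| * ε ≤ Real.log 2 * (1 - ε ^ 2) := by
    rw [hx, hη]
    rw [hx2] at hyb
    have hε2 : 0 < ε ^ 2 := by positivity
    nlinarith
  calc (1 + η) * (1 + ρ) * (y + η) * r - (x * (r / 2) + |x| * (ε * r))
      ≤ (y + 19 * η) * r - (x * (r / 2) + |x| * (ε * r)) := by linarith
    _ = (y + 19 * η - x / 2 - |x| * ε) * r := h5
    _ ≤ (Real.log 2 * (1 - ε ^ 2)) * r := mul_le_mul_of_nonneg_right h6 hr0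
    _ = Real.log 2 * ((1 - ε ^ 2) * r) := by ring

open Classical in
theorem half (ε : ℝ) (hε : 0 < ε) (hε1 : ε ≤ 1) :
    ∃ η : ℝ, 0 < η ∧ η ≤ 1 ∧ ∃ W : ℝ, 1 ≤ W ∧ ∃ c : ℝ, 0 < c ∧ ∀ N : ℕ, 1 ≤ N → ∀ ρ : ℝ, 0 ≤ ρ →
      ρ ≤ η → BlockBd η ρ W N →
        ((((Icc 1 N).powerset.filter
          (fun A => APFree A ∧ ¬ |(A.card : ℝ) - r3 N / 2| ≤ ε * r3 N)).card : ℕ) : ℝ) ≤
          2 * (2 : ℝ) ^ ((1 - c) * r3 N) := by
  refine ⟨ε ^ 2 / 20, by positivity, by nlinarith, Real.exp 4, Real.one_le_exp (by norm_num),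
    ε ^ 2, by positivity, ?_⟩
  intro N hN ρ hρ hρη hB
  set S := (Icc 1 N).powerset.filter
    (fun A => APFree A ∧ ¬ |(A.card : ℝ) - r3 N / 2| ≤ ε * r3 N) with hS
  set S1 := S.filter (fun A => ε * r3 N < (A.card : ℝ) - r3 N / 2) with hS1
  set S2 := S.filter (fun A => ¬ ε * r3 N < (A.card : ℝ) - r3 N / 2) with hS2
  have hc : S.card = S1.card + S2.card := (card_filter_add_card_filter_not _).symm
  have h1 : (S1.card : ℝ) ≤ (2 : ℝ) ^ ((1 - ε ^ 2) * r3 N) := by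
    refine sc_tail hε hε1 rfl hN hρ hρη hB (4 * ε) (abs_of_pos (by positivity)) S1 ?_
    intro A hA
    rw [hS1, mem_filter, hS, mem_filter, mem_powerset] at hA
    refine ⟨hA.1.1, hA.1.2.1, ?_⟩
    rw [abs_of_pos (by positivity : (0 : ℝ) < 4 * ε)]
    nlinarith [hA.2, hε]
  have h2 : (S2.card : ℝ) ≤ (2 : ℝ) ^ ((1 - ε ^ 2) * r3 N) := by
    refine sc_tail hε hε1 rfl hN hρ hρη hB (-(4 * ε))
      (by rw [abs_neg]; exact abs_of_pos (by positivity)) S2 ?_
    intro A hA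
    rw [hS2, mem_filter, hS, mem_filter, mem_powerset] at hA
    refine ⟨hA.1.1, hA.1.2.1, ?_⟩
    have h3 : (A.card : ℝ) - r3 N / 2 < -(ε * r3 N) := by
      by_contra hcon
      apply hA.1.2.2
      rw [abs_le]
      exact ⟨by linarith, by linarith [hA.2]⟩
    rw [abs_neg, abs_of_pos (by positivity : (0 : ℝ) < 4 * ε)]
    nlinarith [h3, hε]
  rw [hc]
  push_cast
  linarith

end Pool.Agent.MP_0f71ae_nt.Sz
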