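import Pool.Agent.MP_0f71ae_nt.Cnt.Defs

/-!
# Definitions for the size law and the typical structure of sets without three-term progressions
-/

set_option autoImplicit false

namespace Pool.Agent.MP_0f71ae_nt.Sz

open Finset Pool.Agent.MP_0f71ae_nt.Reg

open Classical in
/-- The generating function of the AP-free subsets of `A`. -/
noncomputable def Z (w : ℝ) (A : Finset ℕ) : ℝ :=
  ∑ I ∈ A.powerset.filter (fun I => APFree I), w ^ I.card

/-- The progression `a, a + q, …, a + q (ℓ - 1)` coded by `p = (a, q, ℓ)`. -/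
def prog (p : ℕ × ℕ × ℕ) : Finset ℕ := (Finset.range p.2.2).image (fun j => p.1 + p.2.1 * j)

open Classical in
/-- The number of AP-free subsets of `{1, …, N}` with `m` elements. -/
noncomputable def F (N m : ℕ) : ℕ :=
  ((Icc 1 N).powerset.filter (fun A => APFree A ∧ A.card = m)).card

/-- `P 0, …, P (L - 1)` are arithmetic progressions (some possibly empty) which partition
`{1, …, N}`. -/
def IsPart (N L : ℕ) (P : Fin L → ℕ × ℕ × ℕ) : Prop :=
  (∀ i, 1 ≤ (P i).2.1) ∧ (∀ i j, i ≠ j → Disjoint (prog (P i)) (prog (P j))) ∧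
    Finset.univ.biUnion (fun i => prog (P i)) = Icc 1 N

/-- `A` is equidistributed with respect to every partition of `{1, …, N}` into at most `L`
progressions: the discrepancies of all the pieces together are at most `ε |A|`. -/
def Equi (ε : ℝ) (L N : ℕ) (A : Finset ℕ) : Prop :=
  ∀ P : Fin L → ℕ × ℕ × ℕ, IsPart N L P →
    ∑ i, |((A ∩ prog (P i)).card : ℝ) - ((prog (P i)).card : ℝ) / N * A.card| ≤ ε * A.card

/-- Upper bounds for `r₃` and for the generating function of all shorter intervals. -/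
def BlockBd (η ρ W : ℝ) (N : ℕ) : Prop :=
  (∀ ℓ : ℕ, ℓ ≤ N → (r3 ℓ : ℝ) ≤ (1 + η) * ((ℓ : ℝ) / N + ρ) * r3 N) ∧
  ∀ ℓ : ℕ, ℓ ≤ N → ∀ w : ℝ, 0 ≤ w → w ≤ W →
    Z w (Icc 1 ℓ) ≤ Real.exp ((1 + η) * ((ℓ : ℝ) / N + ρ) * (Real.log (1 + w) + η) * r3 N)

end Pool.Agent.MP_0f71ae_nt.Sz
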