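import Pool.Agent.MP_0f71ae_nt.Cnt.Rounds
import Pool.Agent.MP_0f71ae_nt.Sz.Def

/-!
# Weighted container recursion for sets without three-term progressions
-/

set_option autoImplicit false

namespace Pool.Agent.MP_0f71ae_nt.Sz

open Finset Pool.Agent.MP_0f71ae_nt.Reg Pool.Agent.MP_0f71ae_nt.Cnt

open Classical in
/-- The generating function of the subsets of `A` which are AP-free and independent in `G`. -/
noncomputable def Zw (w : ℝ) (A : Finset ℕ) (G : SimpleGraph ℕ) : ℝ :=
  ∑ I ∈ A.powerset.filter (fun I => APFree I ∧ Ind G I), w ^ I.card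

theorem Zw_bot (w : ℝ) (A : Finset ℕ) : Zw w A ⊥ = Z w A := by
  classical
  unfold Zw Z
  apply sum_congr _ (fun _ _ => rfl)
  apply filter_congr
  intro I _
  constructor
  · intro h
    exact h.1
  · intro h
    exact ⟨h, by intro y _ z _; simp⟩

theorem Zw_nonneg {w : ℝ} (hw : 0 ≤ w) (A : Finset ℕ) (G : SimpleGraph ℕ) : 0 ≤ Zw w A G := by
  classical
  unfold Zw
  exact sum_nonneg (fun I _ => pow_nonneg hw _)

theorem Z_nonneg {w : ℝ} (hw : 0 ≤ w) (A : Finset ℕ) : 0 ≤ Z w A := by
  classical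
  unfold Z
  exact sum_nonneg (fun I _ => pow_nonneg hw _)

theorem Zw_le_pow {w : ℝ} (hw : 0 ≤ w) (A : Finset ℕ) (G : SimpleGraph ℕ) :
    Zw w A G ≤ (1 + w) ^ A.card := by
  classical
  have h1 : ∑ I ∈ A.powerset, w ^ I.card = (1 + w) ^ A.card := by
    have := Finset.sum_pow_mul_eq_add_pow w (1 : ℝ) A
    rw [add_comm w 1] at this
    rw [← this]
    apply sum_congr rfl
    intro I _
    rw [one_pow, mul_one]
  rw [← h1]
  unfold Zw
  exact sum_le_sum_of_subset_of_nonneg (filter_subset _ _) (fun I _ _ => pow_nonneg hw _)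

theorem Zw_le_bot {w : ℝ} (hw : 0 ≤ w) (A : Finset ℕ) (G : SimpleGraph ℕ) :
    Zw w A G ≤ Zw w A ⊥ := by
  classical
  unfold Zw
  apply sum_le_sum_of_subset_of_nonneg _ (fun I _ _ => pow_nonneg hw _)
  intro I hI
  rw [mem_filter] at hI ⊢
  exact ⟨hI.1, hI.2.1, by intro y _ z _; simp⟩

/-- Splitting according to whether `v ∈ I`. -/
theorem Zw_split {w : ℝ} (hw : 0 ≤ w) {A A' : Finset ℕ} {G G' : SimpleGraph ℕ} {v : ℕ}
    (h : ∀ I ⊆ A, v ∈ I → APFree I → Ind G I → I.erase v ⊆ A' ∧ Ind G' (I.erase v)) :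
    Zw w A G ≤ Zw w (A.erase v) G + w * Zw w A' G' := by
  classical
  unfold Zw
  set S := A.powerset.filter (fun I => APFree I ∧ Ind G I) with hS
  have h1 : ∑ I ∈ S, w ^ I.card = ∑ I ∈ S.filter (fun I => v ∉ I), w ^ I.card +
      ∑ I ∈ S.filter (fun I => ¬ v ∉ I), w ^ I.card :=
    (sum_filter_add_sum_filter_not _ _ _).symm
  rw [h1]
  refine add_le_add ?_ ?_
  · apply sum_le_sum_of_subset_of_nonneg _ (fun I _ _ => pow_nonneg hw _)
    intro I hI
    rw [mem_filter, hS, mem_filter, mem_powerset] at hI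
    rw [mem_filter, mem_powerset]
    exact ⟨subset_erase.2 ⟨hI.1.1, hI.2⟩, hI.1.2⟩
  · have e1 : ∑ I ∈ S.filter (fun I => ¬ v ∉ I), w ^ I.card =
        w * ∑ I ∈ S.filter (fun I => ¬ v ∉ I), w ^ (I.erase v).card := by
      rw [mul_sum]
      apply sum_congr rfl
      intro I hI
      rw [mem_filter, not_not] at hI
      rw [← pow_succ', card_erase_add_one hI.2]
    rw [e1]
    apply mul_le_mul_of_nonneg_left _ hw
    have e2 : ∑ I ∈ S.filter (fun I => ¬ v ∉ I), w ^ (I.erase v).card =
        ∑ J ∈ (S.filter (fun I => ¬ v ∉ I)).image (fun I => I.erase v), w ^ J.card := by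
      rw [sum_image]
      intro I hI J hJ hIJ
      rw [mem_coe, mem_filter, not_not] at hI hJ
      simp only at hIJ
      rw [← insert_erase hI.2, ← insert_erase hJ.2, hIJ]
    rw [e2]
    apply sum_le_sum_of_subset_of_nonneg _ (fun I _ _ => pow_nonneg hw _)
    intro J hJ
    rw [mem_image] at hJ
    obtain ⟨I, hI, rfl⟩ := hJ
    rw [mem_filter, hS, mem_filter, mem_powerset, not_not] at hI
    obtain ⟨⟨hIA, hf, hi⟩, hv⟩ := hI
    obtain ⟨h1, h2⟩ := h I hIA hv hf hi
    rw [mem_filter, mem_powerset]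
    refine ⟨h1, ?_, h2⟩
    intro a d hd hcon
    exact hf a d hd ⟨(mem_erase.1 hcon.1).2, (mem_erase.1 hcon.2.1).2, (mem_erase.1 hcon.2.2).2⟩

/-- The recursion. -/
theorem recursion (U : Finset ℕ) (s a0 β g e0 : ℕ) (w W X : ℝ) (hw : 0 ≤ w) (hW1 : 1 ≤ W)
    (hwW : w ≤ W) (hX : 0 ≤ X) (hs : 1 ≤ s)
    (hbase : ∀ A ⊆ U, A.card < s → Zw w A ⊥ ≤ X)
    (hsat : ∀ A ⊆ U, s ≤ A.card → e0 ≤ (aps A).card)
    (h2 : 2 * a0 * β ≤ e0) (hg : 2 * g * a0 ≤ e0) :
    ∀ n : ℕ, ∀ A ⊆ U, A.card = n → n ≤ a0 → ∀ G : SimpleGraph ℕ,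
      (∀ v ∈ A, dg A G v ≤ β + 1) → ∀ q : ℕ,
      n * (g + β * (β + 1)) < (q + 1) * (β * g) + β * ed A G →
      Zw w A G ≤ (W * (n + 1)) ^ q * X := by
  classical
  have hW0 : 0 ≤ W := by linarith
  intro n
  induction n using Nat.strong_induction_on with
  | _ n ih =>
  intro A hAU hc hn G hdeg q hΦ
  rcases Nat.lt_or_ge A.card s with hlt | hge
  · have h1 : 1 ≤ (W * ((n : ℝ) + 1)) ^ q := by
      apply one_le_pow₀
      have : (0 : ℝ) ≤ n := Nat.cast_nonneg _
      nlinarith
    calc Zw w A G ≤ Zw w A ⊥ := Zw_le_bot hw A G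
      _ ≤ X := hbase A hAU hlt
      _ ≤ (W * ((n : ℝ) + 1)) ^ q * X := le_mul_of_one_le_left hX h1
  have hn1 : 1 ≤ n := by omega
  have hne : A.Nonempty := by rw [← card_pos]; omega
  set K := g + β * (β + 1) with hK
  -- conclusion from a right state
  have fin : ∀ (v : ℕ) (A' : Finset ℕ) (G' : SimpleGraph ℕ), v ∈ A → A' ⊆ A.erase v →
      (∀ w ∈ A', dg A' G' w ≤ β + 1) →
      A'.card * K + β * g < (q + 1) * (β * g) + β * ed A' G' →
      Zw w A G ≤ Zw w (A.erase v) G + w * Zw w A' G' →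
      Zw w A G ≤ (W * ((n : ℝ) + 1)) ^ q * X := by
    intro v A' G' hv hA' hdeg' hΦ' hsplit
    have hce : (A.erase v).card = n - 1 := by rw [card_erase_of_mem hv, hc]
    have hcast : ((n - 1 : ℕ) : ℝ) + 1 = n := by
      have : ((n - 1 : ℕ) : ℝ) = n - 1 := by rw [Nat.cast_sub hn1]; simp
      linarith
    -- left
    have hl : Zw w (A.erase v) G ≤ (W * n) ^ q * X := by
      have := ih (n - 1) (by omega) (A.erase v) ((erase_subset _ _).trans hAU) hce (by omega) G
        (fun w hw => (dg_mono (erase_subset _ _) G w).trans (hdeg w (mem_of_mem_erase hw))) q (by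
          have h1 := ed_le_sdiff A {v} G
          rw [sum_singleton, sdiff_singleton_eq_erase] at h1
          have h3 := hdeg v hv
          have h4 : β * ed A G ≤ β * (ed (A.erase v) G + (β + 1)) :=
            Nat.mul_le_mul_left _ (by omega)
          have h5 : n * K = (n - 1) * K + K := by
            obtain ⟨m, rfl⟩ : ∃ m, n = m + 1 := ⟨n - 1, by omega⟩
            rw [Nat.add_sub_cancel]; ring
          rw [Nat.mul_add] at h4
          omega)
      rw [hcast] at this
      exact this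
    have hcA' : A'.card ≤ n - 1 := hce ▸ card_le_card hA'
    -- `q ≥ 1`
    have hq : 1 ≤ q := by
      by_contra hq0
      have : q = 0 := by omega
      subst this
      have h3 := ed_le_mul A' G' (β + 1) hdeg'
      have h4 : β * ed A' G' ≤ β * (A'.card * (β + 1)) := Nat.mul_le_mul_left _ h3
      have h5 : A'.card * K = A'.card * g + β * (A'.card * (β + 1)) := by rw [hK]; ring
      omega
    obtain ⟨q', rfl⟩ : ∃ q', q = q' + 1 := ⟨q - 1, by omega⟩
    have hn0 : (0 : ℝ) ≤ n := Nat.cast_nonneg _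
    have hr : Zw w A' G' ≤ (W * n) ^ q' * X := by
      have := ih A'.card (by omega) A' (hA'.trans ((erase_subset _ _).trans hAU)) rfl (by omega) G'
        hdeg' q' (by
          have : (q' + 1 + 1) * (β * g) = (q' + 1) * (β * g) + β * g := by ring
          omega)
      refine this.trans (mul_le_mul_of_nonneg_right ?_ hX)
      apply pow_le_pow_left₀ (by positivity)
      apply mul_le_mul_of_nonneg_left _ hW0
      have h6 : (A'.card : ℝ) ≤ ((n - 1 : ℕ) : ℝ) := by exact_mod_cast hcA'
      linarith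
    have hWn : (W * (n : ℝ)) ^ q' ≤ (W * ((n : ℝ) + 1)) ^ q' := by
      apply pow_le_pow_left₀ (by positivity)
      apply mul_le_mul_of_nonneg_left _ hW0
      linarith
    calc Zw w A G ≤ Zw w (A.erase v) G + w * Zw w A' G' := hsplit
      _ ≤ (W * n) ^ (q' + 1) * X + W * ((W * n) ^ q' * X) := by
        apply add_le_add hl
        apply mul_le_mul hwW hr (Zw_nonneg hw _ _) hW0
      _ = (W * n) ^ q' * (W * ((n : ℝ) + 1)) * X := by ring
      _ ≤ (W * ((n : ℝ) + 1)) ^ q' * (W * ((n : ℝ) + 1)) * X := by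
        apply mul_le_mul_of_nonneg_right _ hX
        apply mul_le_mul_of_nonneg_right hWn (by positivity)
      _ = (W * ((n : ℝ) + 1)) ^ (q' + 1) * X := by ring
  by_cases hbig : ∃ v ∈ A, β ≤ dg A G v
  · -- type 1
    obtain ⟨v, hv, hvd⟩ := hbig
    set Nv := dgS A G v with hNv
    set R := insert v Nv with hR
    have hvN : v ∉ Nv := by
      rw [hNv, mem_dgS]
      rintro ⟨-, h⟩
      exact G.loopless.irrefl _ h
    have hRc : R.card = Nv.card + 1 := card_insert_of_notMem hvN
    have hRA : R ⊆ A := insert_subset hv (by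
      intro w hw
      rw [hNv, mem_dgS] at hw
      exact hw.1)
    have hNvc : β ≤ Nv.card := by
      have : dg A G v = Nv.card := by unfold dg; rfl
      omega
    refine fin v (A \ R) G hv ?_ ?_ ?_ ?_
    · intro w hw
      rw [mem_sdiff, hR, mem_insert, not_or] at hw
      exact mem_erase.2 ⟨hw.2.1, hw.1⟩
    · intro w hw
      exact (dg_mono sdiff_subset G w).trans (hdeg w (mem_sdiff.1 hw).1)
    · have h1 := ed_le_sdiff A R G
      have h3 : ∑ u ∈ R, dg A G u ≤ R.card * (β + 1) := by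
        rw [← smul_eq_mul, ← sum_const]
        exact sum_le_sum (fun u hu => hdeg u (hRA hu))
      have h4 : (A \ R).card = n - R.card := by rw [card_sdiff_of_subset hRA, hc]
      have h5 : R.card ≤ n := hc ▸ card_le_card hRA
      rw [h4]
      have h6 : n * K = (n - R.card) * K + R.card * K := by
        rw [← Nat.add_mul]; congr 1; omega
      have h7 : β * ed A G ≤ β * (ed (A \ R) G + R.card * (β + 1)) :=
        Nat.mul_le_mul_left _ (by omega)
      have h8 : R.card * K = R.card * g + β * (R.card * (β + 1)) := by rw [hK]; ring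
      have h9 : β * g ≤ R.card * g := Nat.mul_le_mul_right _ (by omega)
      rw [Nat.mul_add] at h7
      omega
    · apply Zw_split hw
      intro I hIA hvI hIf hIi
      refine ⟨?_, ?_⟩
      · intro w hw
        rw [mem_erase] at hw
        rw [mem_sdiff, hR, mem_insert, not_or]
        refine ⟨hIA hw.2, hw.1, ?_⟩
        rw [hNv, mem_dgS]
        rintro ⟨-, h⟩
        exact hIi v hvI w hw.2 h
      · intro y hy z hz
        exact hIi y (mem_of_mem_erase hy) z (mem_of_mem_erase hz)
  · -- type 2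
    push Not at hbig
    obtain ⟨v, hv, hnew⟩ := exists_new (by omega) hne (hsat A hAU hge) h2 hg hbig
    refine fin v (A.erase v) (G ⊔ lk v) hv (Subset.refl _) ?_ ?_ ?_
    · intro w hw
      have h1 := dg_sup_lk A G v w
      have h3 := hbig w (mem_of_mem_erase hw)
      omega
    · have h1 := ed_le_sdiff A {v} G
      rw [sum_singleton, sdiff_singleton_eq_erase] at h1
      have h3 := hbig v hv
      have h4 : β * (ed A G + g) ≤ β * (ed (A.erase v) (G ⊔ lk v) + (β + 1)) :=
        Nat.mul_le_mul_left _ (by omega)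
      have h5 : n * K = (n - 1) * K + K := by
        obtain ⟨m, rfl⟩ : ∃ m, n = m + 1 := ⟨n - 1, by omega⟩
        rw [Nat.add_sub_cancel]; ring
      have hce : (A.erase v).card = n - 1 := by rw [card_erase_of_mem hv, hc]
      rw [hce]
      rw [Nat.mul_add, Nat.mul_add] at h4
      omega
    · apply Zw_split hw
      intro I hIA hvI hIf hIi
      refine ⟨?_, ?_⟩
      · intro w hw
        rw [mem_erase] at hw
        exact mem_erase.2 ⟨hw.1, hIA hw.2⟩
      · intro y hy z hz hyz
        rw [SimpleGraph.sup_adj] at hyz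
        rcases hyz with h | h
        · exact hIi y (mem_of_mem_erase hy) z (mem_of_mem_erase hz) h
        · simp only [lk] at h
          rcases h with ⟨h1, h2, h3⟩ | ⟨h1, h2, h3⟩
          · refine hIf v (y - v) (by omega) ⟨hvI, ?_, ?_⟩
            · have : v + (y - v) = y := by omega
              rw [this]; exact mem_of_mem_erase hy
            · have : v + 2 * (y - v) = z := by omega
              rw [this]; exact mem_of_mem_erase hz
          · refine hIf v (z - v) (by omega) ⟨hvI, ?_, ?_⟩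
            · have : v + (z - v) = z := by omega
              rw [this]; exact mem_of_mem_erase hz
            · have : v + 2 * (z - v) = y := by omega
              rw [this]; exact mem_of_mem_erase hy

theorem rounds (N s0 b E0 : ℕ) (w W : ℝ) (hw : 0 ≤ w) (hW1 : 1 ≤ W) (hwW : w ≤ W)
    (hb : 2 ≤ b) (hs0 : 1 ≤ s0) (hE : 4 * b * (b + 1) * s0 ≤ E0)
    (hsat : ∀ A ⊆ Icc 1 N, A.card = s0 → E0 ≤ (aps A).card) (i : ℕ) :
    ∀ A ⊆ Icc 1 N, A.card < 2 ^ i * s0 →
      Zw w A ⊥ ≤ (W * (N + 1)) ^ (i * (4 * s0 / b)) * (1 + w) ^ s0 := by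
  have hW0 : 0 ≤ W := by linarith
  induction i with
  | zero =>
    intro A hA hc
    rw [pow_zero, one_mul] at hc
    rw [zero_mul, pow_zero, one_mul]
    exact (Zw_le_pow hw A ⊥).trans (pow_le_pow_right₀ (by linarith) hc.le)
  | succ i ih =>
    intro A hA hc
    set q := 4 * s0 / b with hq
    set X : ℝ := (W * (N + 1)) ^ (i * q) * (1 + w) ^ s0 with hX
    have hX0 : 0 ≤ X := by rw [hX]; positivity
    set P := 2 ^ i with hP
    have hP1 : 1 ≤ P := Nat.one_le_two_pow
    have e4 : 4 ^ i = P * P := by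
      rw [hP, ← mul_pow]; norm_num
    have e8 : 8 ^ i = P * P * P := by
      rw [hP, ← mul_pow, ← mul_pow]; norm_num
    have e2 : 2 ^ (i + 1) = 2 * P := by rw [hP, pow_succ]; ring
    set G0 := b * (b + 1) with hG0
    have hE' : 4 * (G0 * s0) ≤ E0 := by
      have : 4 * b * (b + 1) * s0 = 4 * (G0 * s0) := by rw [hG0]; ring
      omega
    have hbG : b ≤ G0 := by rw [hG0]; exact Nat.le_mul_of_pos_right _ (by omega)
    have key := recursion (Icc 1 N) (P * s0) (2 * P * s0) (P * b) (P * P * G0)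
      (P * P * P * E0) w W X hw hW1 hwW hX0 (Nat.mul_pos hP1 hs0)
      (by intro A hA hc; exact ih A hA hc)
      (by
        intro A hA hc
        have := amplify' (Icc 1 N) s0 E0 hs0 hsat A hA i hc
        rw [e8] at this
        exact this)
      (by
        have h1 : 2 * (2 * P * s0) * (P * b) = P * P * (4 * (b * s0)) := by ring
        have h2 : 4 * (b * s0) ≤ 4 * (G0 * s0) :=
          Nat.mul_le_mul_left _ (Nat.mul_le_mul_right _ hbG)
        rw [h1]
        calc P * P * (4 * (b * s0)) ≤ P * P * E0 := Nat.mul_le_mul_left _ (h2.trans hE')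
          _ ≤ P * P * P * E0 := Nat.mul_le_mul_right _ (Nat.le_mul_of_pos_right _ hP1))
      (by
        have h1 : 2 * (P * P * G0) * (2 * P * s0) = P * P * P * (4 * (G0 * s0)) := by ring
        rw [h1]
        exact Nat.mul_le_mul_left _ hE')
      A.card A hA rfl (by rw [e2] at hc; omega) ⊥ (by intro v _; rw [dg_bot]; omega) q (by
        rw [e2] at hc
        have h1 : (P * b) * (P * b + 1) ≤ P * P * G0 := by
          have : P * P * G0 = (P * b) * (P * b + P) := by rw [hG0]; ring
          rw [this]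
          exact Nat.mul_le_mul_left _ (by omega)
        have h2 : A.card * (P * P * G0 + P * b * (P * b + 1)) ≤
            (2 * P * s0) * (2 * (P * P * G0)) :=
          Nat.mul_le_mul (by omega) (by omega)
        have h3 : 4 * s0 < (q + 1) * b := by
          rw [hq]
          have := Nat.lt_div_mul_add (a := 4 * s0) (b := b) (by omega)
          rw [Nat.add_mul, one_mul]
          exact this
        have h4 : (2 * P * s0) * (2 * (P * P * G0)) = (4 * s0) * (P * (P * P * G0)) := by ring
        have h5 : (q + 1) * (P * b * (P * P * G0)) = ((q + 1) * b) * (P * (P * P * G0)) := by ring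
        have h6 : 0 < P * (P * P * G0) := by
          have : 0 < G0 := by omega
          positivity
        have h7 := Nat.mul_lt_mul_of_pos_right h3 h6
        rw [h5]
        omega)
    have hAN : (A.card : ℝ) ≤ N := by
      have := card_le_card hA
      rw [Nat.card_Icc, Nat.add_sub_cancel] at this
      exact_mod_cast this
    calc Zw w A ⊥ ≤ (W * ((A.card : ℝ) + 1)) ^ q * X := key
      _ ≤ (W * ((N : ℝ) + 1)) ^ q * X := by
        apply mul_le_mul_of_nonneg_right _ hX0
        apply pow_le_pow_left₀ (by positivity)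
        apply mul_le_mul_of_nonneg_left _ hW0
        linarith
      _ = (W * ((N : ℝ) + 1)) ^ ((i + 1) * q) * (1 + w) ^ s0 := by
        rw [hX, ← mul_assoc, ← pow_add]
        congr 2
        ring

theorem Z_le (N s0 b E0 : ℕ) (w W : ℝ) (hw : 0 ≤ w) (hW1 : 1 ≤ W) (hwW : w ≤ W)
    (hb : 2 ≤ b) (hs0 : 1 ≤ s0) (hE : 4 * b * (b + 1) * s0 ≤ E0)
    (hsat : ∀ A ⊆ Icc 1 N, A.card = s0 → E0 ≤ (aps A).card) :
    Z w (Icc 1 N) ≤
      (W * (N + 1)) ^ ((Nat.log 2 N + 1) * (4 * s0 / b)) * (1 + w) ^ s0 := by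
  rw [← Zw_bot]
  apply rounds N s0 b E0 w W hw hW1 hwW hb hs0 hE hsat
  · exact Subset.refl _
  · rw [Nat.card_Icc, Nat.add_sub_cancel]
    calc N < 2 ^ (Nat.log 2 N + 1) := Nat.lt_pow_succ_log_self (by norm_num) N
      _ ≤ 2 ^ (Nat.log 2 N + 1) * s0 := Nat.le_mul_of_pos_right _ hs0

end Pool.Agent.MP_0f71ae_nt.Sz
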