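import Pool.Agent.MP_0f71ae_nt.Sz.LT
import Pool.Agent.MP_0f71ae_nt.Sz.WC
import Pool.Agent.MP_0f71ae_nt.Cnt.Lin2

/-!
# The block bound and the growth of `r₃` at almost all scales of every window
-/

set_option autoImplicit false

namespace Pool.Agent.MP_0f71ae_nt.Sz

open Finset Pool.Agent.MP_0f71ae_nt.Reg Pool.Agent.MP_0f71ae_nt.Cnt

theorem sw_mem_bad (Q : ℕ → Prop) (a K k : ℕ) : k ∈ badScales Q a K ↔
    k ∈ Finset.Ico a (a + K) ∧ ¬ ∀ N : ℕ, 2 ^ k ≤ N → N < 2 ^ (k + 1) → Q N := by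
  classical
  unfold badScales
  rw [mem_filter]

theorem sw_blockBd_mono {η ρ ρ' W : ℝ} (hη : 0 < η) (hρ : ρ ≤ ρ') {N : ℕ}
    (h : BlockBd η ρ W N) : BlockBd η ρ' W N := by
  refine ⟨?_, ?_⟩
  · intro l hl
    refine (h.1 l hl).trans ?_
    apply mul_le_mul_of_nonneg_right _ (Nat.cast_nonneg _)
    apply mul_le_mul_of_nonneg_left _ (by linarith)
    linarith
  · intro l hl w hw0 hwW
    refine (h.2 l hl w hw0 hwW).trans ?_
    apply Real.exp_le_exp.mpr
    apply mul_le_mul_of_nonneg_right _ (Nat.cast_nonneg _)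
    have h1 : 0 ≤ Real.log (1 + w) := Real.log_nonneg (by linarith)
    apply mul_le_mul_of_nonneg_right _ (by linarith)
    apply mul_le_mul_of_nonneg_left _ (by linarith)
    linarith

/-- growth: `C₁ L log (N + 1) ≤ r₃(N)` once `N ≥ e^64` and `N ≥ (4 C₁ L)^4`. -/
theorem sw_growth (D : ℝ) (hD : 1 ≤ D) (N : ℕ) (h1 : Real.exp 64 ≤ N) (h2 : (4 * D) ^ 4 ≤ (N : ℝ)) :
    D * Real.log (N + 1) ≤ r3 N := by
  have hN0 : (0:ℝ) < N := lt_of_lt_of_le (Real.exp_pos _) h1
  set t : ℝ := Real.log N with ht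
  have hNt : (N : ℝ) = Real.exp t := by rw [ht, Real.exp_log hN0]
  have ht64 : 64 ≤ t := by
    rw [ht, Real.le_log_iff_exp_le hN0]
    exact h1
  have hN1 : (1:ℝ) ≤ N := by
    rw [hNt]
    exact Real.one_le_exp (by linarith)
  have hb := behrend N
  -- `4 √t ≤ t / 2`
  have hsq : 4 * √t ≤ t / 2 := by
    have h3 : 8 ≤ √t := by
      rw [show (8:ℝ) = √64 by
        rw [show (64:ℝ) = 8 ^ 2 by norm_num, Real.sqrt_sq (by norm_num)]]
      exact Real.sqrt_le_sqrt ht64
    have h4 : √t * √t = t := Real.mul_self_sqrt (by linarith)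
    nlinarith
  have h5 : Real.exp (t / 2) ≤ r3 N := by
    refine le_trans ?_ hb
    rw [hNt, Real.log_exp, ← Real.exp_add]
    apply Real.exp_le_exp.mpr
    linarith
  refine le_trans ?_ h5
  have h6 : Real.log (N + 1) ≤ 1 + t := by
    have h7 : (N : ℝ) + 1 ≤ 2 * N := by linarith
    have h8 : Real.log (N + 1) ≤ Real.log (2 * N) := Real.log_le_log (by linarith) h7
    rw [Real.log_mul (by norm_num) hN0.ne'] at h8
    have := Real.log_two_lt_d9
    linarith
  have h7 : 1 + t ≤ 4 * Real.exp (t / 4) := by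
    have := Real.add_one_le_exp (t / 4)
    linarith
  have h8 : 4 * D ≤ Real.exp (t / 4) := by
    have h9 : (4 * D) ^ 4 ≤ (Real.exp (t / 4)) ^ 4 := by
      rw [← Real.exp_nat_mul]
      have : ((4:ℕ):ℝ) * (t / 4) = t := by push_cast; ring
      rw [this, ← hNt]
      exact h2
    exact le_of_pow_le_pow_left₀ (by norm_num) (Real.exp_pos _).le h9
  calc D * Real.log (N + 1) ≤ D * (4 * Real.exp (t / 4)) :=
        mul_le_mul_of_nonneg_left (h6.trans h7) (by linarith)
    _ = (4 * D) * Real.exp (t / 4) := by ring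
    _ ≤ Real.exp (t / 4) * Real.exp (t / 4) :=
        mul_le_mul_of_nonneg_right h8 (Real.exp_pos _).le
    _ = Real.exp (t / 2) := by rw [← Real.exp_add]; congr 1; ring

/-! ### SW: the window statement -/
theorem blockBd_win (η W c0 C1 : ℝ) (hη : 0 < η) (hη1 : η ≤ 1) (hW : 1 ≤ W) (hc0 : 0 < c0)
    (hc1 : c0 ≤ 1) (hC1 : 0 ≤ C1) : ∃ C : ℝ, ∀ L a K : ℕ, 1 ≤ L →
    ((badScales (fun N => BlockBd η (c0 / L) W N ∧ C1 * L * Real.log (N + 1) ≤ r3 N) a K).card : ℝ)
      ≤ C * Real.log (L * (a + K + 2)) * √K := by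
  classical
  have hl2 : 0 < Real.log 2 := Real.log_pos (by norm_num)
  have hl2g := Real.log_two_gt_d9
  have hl2l := Real.log_two_lt_d9
  have hlW : 0 ≤ Real.log (2 * W) := Real.log_nonneg (by linarith)
  obtain ⟨ε, hε, hε1, hεη, hεW⟩ : ∃ ε : ℝ, 0 < ε ∧ ε ≤ 1 ∧ ε ≤ η ∧
      2 * ε * Real.log (2 * W) ≤ η := by
    refine ⟨η / (2 * Real.log (2 * W) + 1), by positivity, ?_, ?_, ?_⟩
    · rw [div_le_one (by positivity)]; linarith
    · rw [div_le_iff₀ (by positivity)]
      nlinarith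
    · have h1 : 2 * (η / (2 * Real.log (2 * W) + 1)) * Real.log (2 * W) =
          η * ((2 * Real.log (2 * W)) / (2 * Real.log (2 * W) + 1)) := by
        ring
      rw [h1]
      have h2 : (2 * Real.log (2 * W)) / (2 * Real.log (2 * W) + 1) ≤ 1 := by
        rw [div_le_one (by positivity)]; linarith
      nlinarith
  -- the constant `M0`
  obtain ⟨M0, hM3, hM100, hMc, hMp, hM64, hMC, hM160⟩ : ∃ M0 : ℕ, (3:ℝ) ≤ M0 ∧ 100 / ε ≤ M0 ∧
      2 / c0 ≤ M0 ∧ ((2 ^ (⌈8 / ε⌉₊ + 1) : ℕ) : ℝ) ≤ M0 ∧ Real.exp 64 ≤ M0 ∧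
      4 * (C1 + 1) ≤ M0 ∧ 160 / ε ≤ M0 := by
    obtain ⟨M, hM⟩ := exists_nat_ge (3 + 100 / ε + 2 / c0 + ((2 ^ (⌈8 / ε⌉₊ + 1) : ℕ) : ℝ) +
      Real.exp 64 + 4 * (C1 + 1) + 160 / ε)
    have p1 : 0 < 100 / ε := by positivity
    have p2 : 0 < 2 / c0 := by positivity
    have p3 : (0:ℝ) ≤ ((2 ^ (⌈8 / ε⌉₊ + 1) : ℕ) : ℝ) := Nat.cast_nonneg _
    have p4 := Real.exp_pos 64
    have p5 : 0 ≤ 4 * (C1 + 1) := by positivity
    have p6 : 0 < 160 / ε := by positivity
    exact ⟨M, by linarith, by linarith, by linarith, by linarith, by linarith, by linarith,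
      by linarith⟩
  set D : ℝ := Real.log (1 + M0) / Real.log 2 + 1 with hD
  refine ⟨(1680 * 27 * (160 / ε) + 38) * D, ?_⟩
  intro L a K hL
  rcases Nat.eq_zero_or_pos K with rfl | hK
  · simp [badScales]
  have hLr : (1:ℝ) ≤ L := by exact_mod_cast hL
  have hKr : (1 : ℝ) ≤ K := by exact_mod_cast hK
  have hsK : (1 : ℝ) ≤ √K := by rw [Real.one_le_sqrt]; exact hKr
  have ha0 : (0 : ℝ) ≤ a := Nat.cast_nonneg _
  set T : ℕ := a + K + M0 * L with hT
  have hTr : (T : ℝ) = a + K + M0 * L := by rw [hT]; push_cast; ring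
  have hMT : (M0 : ℝ) * L ≤ T := by rw [hTr]; linarith
  have hM0T : (M0 : ℝ) ≤ T := by
    have h0 : (0:ℝ) ≤ M0 := Nat.cast_nonneg _
    have : (M0 : ℝ) * 1 ≤ M0 * L := mul_le_mul_of_nonneg_left hLr h0
    linarith
  have hT3 : (3:ℝ) ≤ T := hM3.trans hM0T
  have hT1 : (1:ℝ) ≤ T := by linarith
  have hT0 : (0:ℝ) < T := by linarith
  set Zz : ℝ := L * (a + K + 2) with hZz
  have hZ2 : 2 ≤ Zz := by rw [hZz]; nlinarith
  have hZ0 : 0 < Zz := by linarith
  have hlZ : Real.log 2 ≤ Real.log Zz := Real.log_le_log (by norm_num) hZ2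
  have hTZ : (T : ℝ) ≤ (1 + M0) * Zz := by
    have h0 : (0:ℝ) ≤ M0 := Nat.cast_nonneg _
    have h1 : (a : ℝ) + K ≤ Zz := by rw [hZz]; nlinarith
    have h2 : (L : ℝ) ≤ Zz := by rw [hZz]; nlinarith
    have h3 := mul_le_mul_of_nonneg_left h2 h0
    rw [hTr]
    nlinarith
  have hlT : Real.log T ≤ D * Real.log Zz := by
    have h1 : Real.log T ≤ Real.log ((1 + M0) * Zz) := Real.log_le_log hT0 hTZ
    rw [Real.log_mul (by positivity) hZ0.ne'] at h1
    have h2 : Real.log (1 + M0) ≤ Real.log (1 + M0) / Real.log 2 * Real.log Zz := by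
      have h3 : 0 ≤ Real.log (1 + M0) := Real.log_nonneg (by
        have : (0:ℝ) ≤ M0 := Nat.cast_nonneg _
        linarith)
      rw [div_mul_eq_mul_div, le_div_iff₀ hl2]
      exact mul_le_mul_of_nonneg_left hlZ h3
    have h4 : D * Real.log Zz = Real.log (1 + M0) / Real.log 2 * Real.log Zz + Real.log Zz := by
      rw [hD]; ring
    linarith
  have hlT1 : 1 ≤ Real.log T := by
    rw [Real.le_log_iff_exp_le hT0]
    have := Real.exp_one_lt_d9
    linarith
  set Λ : ℝ := (T : ℝ) ^ 12 with hΛ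
  have hΛ1 : 1 ≤ Λ := one_le_pow₀ hT1
  have hΛ0 : 0 < Λ := by linarith
  have hTΛ : (T : ℝ) ≤ Λ := le_self_pow₀ hT1 (by norm_num)
  have hΛ2 : Λ ≤ Λ ^ 2 := le_self_pow₀ hΛ1 (by norm_num)
  set P : ℕ → Prop := fun N => BlockBd η (c0 / L) W N ∧ C1 * L * Real.log (N + 1) ≤ r3 N with hP
  set E1 := badScales (LinAt (ε / 160) (Λ ^ 2)) a K with hE1
  set E2 := (Finset.Ico a (a + K)).filter (fun k => (2 : ℝ) ^ k < (T : ℝ) ^ 25) with hE2
  have hsub : badScales P a K ⊆ E1 ∪ E2 := by
    intro k hk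
    rw [sw_mem_bad] at hk
    rw [mem_union, hE1, hE2, sw_mem_bad, mem_filter]
    by_contra hcon
    rw [not_or] at hcon
    obtain ⟨h1, h2⟩ := hcon
    rw [not_and, not_not] at h1
    rw [not_and, not_lt] at h2
    apply hk.2
    intro N hN1 hN2
    have hkK := (mem_Ico.1 hk.1).2
    have hlin := h1 hk.1 N hN1 hN2
    have hT25 : (T : ℝ) ^ 25 ≤ N := by
      refine (h2 hk.1).trans ?_
      exact_mod_cast hN1
    have hN0 : 1 ≤ N := le_trans Nat.one_le_two_pow hN1
    have hTN : (T : ℝ) ≤ N := (le_self_pow₀ hT1 (by norm_num)).trans hT25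
    have hΛN : Λ ≤ N := (pow_le_pow_right₀ hT1 (by norm_num)).trans hT25
    refine ⟨?_, ?_⟩
    · -- block bound
      have hlin1 : LinAt η Λ N := by
        intro x hx1 hx2
        have hx0 : 0 < x := lt_of_lt_of_le (by positivity) hx1
        have h3 := hlin x (by
          refine le_trans ?_ hx1
          exact one_div_le_one_div_of_le hΛ0 hΛ2) (hx2.trans hΛ2)
        refine h3.trans ?_
        apply mul_le_mul_of_nonneg_right (by linarith) (by positivity)
      have hB := blockBd_of (η := η) (Λ := Λ) (W := W) hη hη1 hΛ1 (N := N) hΛN hlin1 (by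
        intro N' hN'1 hN'2 w hw0 hwW
        -- size of `N'`
        have hN'T : (T : ℝ) ^ 13 ≤ N' := by
          have h3 : Λ * (T : ℝ) ^ 13 ≤ Λ * N' := by
            refine le_trans ?_ hN'1
            refine le_trans (le_of_eq ?_) hT25
            rw [hΛ]; ring
          exact le_of_mul_le_mul_left h3 hΛ0
        have hN'0 : 1 ≤ N' := by
          have : (1:ℝ) ≤ N' := (one_le_pow₀ hT1).trans hN'T
          exact_mod_cast this
        have hlin2 : LinAt (ε / 40) Λ N' := by
          have h3 := linAt_sub (η := ε / 160) (Λ := Λ) (by positivity) (by linarith) hΛ1 hN0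
            hlin hN'1 hN'2
          have h4 : 4 * (ε / 160) = ε / 40 := by ring
          rwa [h4] at h3
        set k' : ℕ := Nat.log 2 N' with hk'
        have hk'1 : 2 ^ k' ≤ N' := Nat.pow_log_le_self 2 (by omega)
        have hk'2 : N' < 2 ^ (k' + 1) := Nat.lt_pow_succ_log_self (by norm_num) N'
        have hk'T : k' + 1 ≤ T := by
          have h3 : k' ≤ k := by
            have h4 : 2 ^ k' < 2 ^ (k + 1) := lt_of_le_of_lt (hk'1.trans hN'2) hN2
            have := (Nat.pow_lt_pow_iff_right (by norm_num : 1 < 2)).mp h4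
            omega
          rw [hT]
          have : k + 1 ≤ a + K := hkK
          omega
        have hk'ε : 8 / ε ≤ k' := by
          have h3 : ((2 ^ (⌈8 / ε⌉₊ + 1) : ℕ) : ℝ) ≤ N' := by
            refine (hMp.trans hM0T).trans ?_
            exact (le_self_pow₀ hT1 (by norm_num)).trans hN'T
          have h4 : 2 ^ (⌈8 / ε⌉₊ + 1) ≤ N' := by exact_mod_cast h3
          have h5 : ⌈8 / ε⌉₊ + 1 < k' + 1 + 1 := by
            have h6 : 2 ^ (⌈8 / ε⌉₊ + 1) < 2 ^ (k' + 1 + 1) := by
              refine lt_of_le_of_lt h4 (lt_of_lt_of_le hk'2 ?_)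
              exact Nat.pow_le_pow_right (by norm_num) (by omega)
            exact (Nat.pow_lt_pow_iff_right (by norm_num : 1 < 2)).mp h6
          have h7 : ⌈8 / ε⌉₊ ≤ k' := by omega
          exact (Nat.le_ceil _).trans (by exact_mod_cast h7)
        have hN'Λ : (T : ℝ) ^ 12 * (2 / (ε / 40)) ≤ N' := by
          refine le_trans ?_ hN'T
          have h3 : 2 / (ε / 40) ≤ (T : ℝ) := by
            have h4 : 2 / (ε / 40) = 80 / ε := by field_simp; norm_num
            rw [h4]
            refine le_trans ?_ (hM160.trans hM0T)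
            exact div_le_div_of_nonneg_right (by norm_num) hε.le
          calc (T : ℝ) ^ 12 * (2 / (ε / 40)) ≤ (T : ℝ) ^ 12 * T :=
                mul_le_mul_of_nonneg_left h3 (by positivity)
            _ = (T : ℝ) ^ 13 := by ring
        have h8 := Z_of_lin hε hε1 k' T N' hk'T (hM100.trans hM0T) hk'1 hk'2 hlin2 hN'Λ hk'ε
          W hW w hw0 hwW
        refine h8.trans ?_
        apply mul_le_mul_of_nonneg_right _ (by positivity)
        apply Real.exp_le_exp.mpr
        exact mul_le_mul_of_nonneg_right hεW (Nat.cast_nonneg _))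
      refine sw_blockBd_mono hη ?_ hB
      -- `2 / Λ ≤ c0 / L`
      rw [div_le_div_iff₀ hΛ0 (by linarith)]
      have h3 : 2 * (L : ℝ) ≤ c0 * T := by
        have h4 : 2 ≤ M0 * c0 := by
          rwa [div_le_iff₀ hc0] at hMc
        have h5 : (2:ℝ) * L ≤ (M0 * c0) * L := mul_le_mul_of_nonneg_right h4 (by linarith)
        have h6 : c0 * (M0 * L) ≤ c0 * T := mul_le_mul_of_nonneg_left hMT hc0.le
        linarith
      exact h3.trans (mul_le_mul_of_nonneg_left hTΛ hc0.le)
    · -- growth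
      have hD1 : (1:ℝ) ≤ (C1 + 1) * L := by nlinarith
      have hg := sw_growth ((C1 + 1) * L) hD1 N ((hM64.trans hM0T).trans hTN) (by
        have h3 : 4 * ((C1 + 1) * L) ≤ T := by
          have h4 := mul_le_mul_of_nonneg_right hMC (by linarith : (0:ℝ) ≤ L)
          linarith
        calc (4 * ((C1 + 1) * L)) ^ 4 ≤ (T : ℝ) ^ 4 := pow_le_pow_left₀ (by positivity) h3 4
          _ ≤ (T : ℝ) ^ 25 := pow_le_pow_right₀ hT1 (by norm_num)
          _ ≤ N := hT25)
      refine le_trans ?_ hg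
      apply mul_le_mul_of_nonneg_right
      · nlinarith
      · apply Real.log_nonneg
        have : (0:ℝ) ≤ N := Nat.cast_nonneg _
        linarith
  -- the counts
  have hE1c : (E1.card : ℝ) ≤ 1680 * 27 * (160 / ε) * Real.log T * √K := by
    have h1 := scale_linear_win (ε / 160) (by positivity) (by linarith) (Λ ^ 2)
      (one_le_pow₀ hΛ1) a K
    refine h1.trans ?_
    have h2 : Real.log (Λ ^ 2 / (ε / 160)) ≤ 26 * Real.log T := by
      have h3 : Λ ^ 2 / (ε / 160) ≤ (T : ℝ) ^ 26 := by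
        have h4 : Λ ^ 2 / (ε / 160) = (T : ℝ) ^ 24 * (160 / ε) := by
          rw [hΛ]
          field_simp
        rw [h4]
        have h5 : 160 / ε ≤ (T : ℝ) ^ 2 :=
          (hM160.trans hM0T).trans (le_self_pow₀ hT1 (by norm_num))
        calc (T : ℝ) ^ 24 * (160 / ε) ≤ (T : ℝ) ^ 24 * (T : ℝ) ^ 2 :=
              mul_le_mul_of_nonneg_left h5 (by positivity)
          _ = (T : ℝ) ^ 26 := by ring
      have h6 := Real.log_le_log (by positivity) h3
      rw [Real.log_pow] at h6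
      push_cast at h6
      exact h6
    have h7 : 1680 * (1 + Real.log (Λ ^ 2 / (ε / 160))) / (ε / 160) * √K =
        1680 * (1 + Real.log (Λ ^ 2 / (ε / 160))) * (160 / ε) * √K := by
      field_simp
    rw [h7]
    apply mul_le_mul_of_nonneg_right _ (by positivity)
    have h8 : 1680 * 27 * (160 / ε) * Real.log T = 1680 * (27 * Real.log T) * (160 / ε) := by ring
    rw [h8]
    apply mul_le_mul_of_nonneg_right _ (by positivity)
    apply mul_le_mul_of_nonneg_left _ (by norm_num)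
    linarith
  have hE2c : (E2.card : ℝ) ≤ 38 * Real.log T * √K := by
    set V : ℝ := 25 * Real.log T / Real.log 2 with hV
    have hV0 : 0 ≤ V := by
      rw [hV]
      have : 0 ≤ Real.log T := by linarith
      positivity
    have h1 : E2 ⊆ Finset.range ⌈V⌉₊ := by
      intro k hk
      rw [hE2, mem_filter] at hk
      rw [mem_range, Nat.lt_ceil, hV, lt_div_iff₀ hl2]
      have := Real.log_lt_log (by positivity) hk.2
      rw [Real.log_pow, Real.log_pow] at this
      push_cast at this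
      exact this
    have h2 : (E2.card : ℝ) ≤ V + 1 := by
      have h3 := card_le_card h1
      rw [card_range] at h3
      have h4 : (E2.card : ℝ) ≤ (⌈V⌉₊ : ℝ) := by exact_mod_cast h3
      exact h4.trans (Nat.ceil_lt_add_one hV0).le
    have h3 : V ≤ 37 * Real.log T := by
      rw [hV, div_le_iff₀ hl2]
      nlinarith
    have h4 : 38 * Real.log T ≤ 38 * Real.log T * √K :=
      le_mul_of_one_le_right (by positivity) hsK
    linarith
  have h3 := card_le_card hsub
  have h4 := card_union_le E1 E2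
  have h5 : ((badScales P a K).card : ℝ) ≤ E1.card + E2.card := by
    exact_mod_cast h3.trans h4
  refine h5.trans ?_
  have h6 : (E1.card : ℝ) + E2.card ≤ (1680 * 27 * (160 / ε) + 38) * Real.log T * √K := by
    have : (1680 * 27 * (160 / ε) + 38) * Real.log T * √K =
        1680 * 27 * (160 / ε) * Real.log T * √K + 38 * Real.log T * √K := by ring
    rw [this]
    linarith
  refine h6.trans ?_
  apply mul_le_mul_of_nonneg_right _ (by positivity)
  have h7 : (1680 * 27 * (160 / ε) + 38) * D * Real.log Zz =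
      (1680 * 27 * (160 / ε) + 38) * (D * Real.log Zz) := by ring
  rw [h7]
  exact mul_le_mul_of_nonneg_left hlT (by positivity)

end Pool.Agent.MP_0f71ae_nt.Sz
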