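import Pool.Agent.MP_0f71ae_nt.Sz.Def

/-!
# [Sz-LT, Sz-ZB] linearity at shorter intervals; bounds for all blocks
-/

set_option autoImplicit false

namespace Pool.Agent.MP_0f71ae_nt.Sz

open Finset Pool.Agent.MP_0f71ae_nt.Reg Pool.Agent.MP_0f71ae_nt.Cnt

/-- almost linearity at `N` gives almost linearity at all `N' ∈ [N / Λ, N]` -/
theorem linAt_sub {η Λ : ℝ} (hη : 0 < η) (hη1 : η ≤ 1 / 2) (hΛ : 1 ≤ Λ) {N N' : ℕ} (hN : 1 ≤ N)
    (h : LinAt η (Λ ^ 2) N) (h1 : (N : ℝ) ≤ Λ * N') (h2 : N' ≤ N) : LinAt (4 * η) Λ N' := by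
  have hNR : (0 : ℝ) < N := by exact_mod_cast hN
  have hΛ0 : 0 < Λ := by linarith
  have h2R : (N' : ℝ) ≤ N := by exact_mod_cast h2
  obtain ⟨y, hy⟩ : ∃ y : ℝ, y = (N' : ℝ) / N := ⟨_, rfl⟩
  have hyN : y * N = N' := by rw [hy, div_mul_cancel₀ _ hNR.ne']
  have hy1 : y ≤ 1 := by rw [hy, div_le_one hNR]; exact h2R
  have hy0 : 1 / Λ ≤ y := by
    rw [hy, div_le_div_iff₀ hΛ0 hNR]
    linarith
  have hypos : 0 < y := lt_of_lt_of_le (by positivity) hy0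
  have hr : (0 : ℝ) ≤ r3 N := Nat.cast_nonneg _
  have hyr : 0 ≤ y * r3 N := mul_nonneg hypos.le hr
  have hsq : Λ ≤ Λ ^ 2 := by nlinarith
  have hlow : 1 / Λ ^ 2 ≤ 1 / Λ := one_div_le_one_div_of_le hΛ0 hsq
  have k1 := h y (hlow.trans hy0) (hy1.trans (by nlinarith))
  rw [hyN, Nat.floor_natCast] at k1
  have k2 := (abs_le.1 k1).1
  have hN'r : y * r3 N ≤ 2 * r3 N' := by nlinarith
  intro x hx1 hx2
  have hx0 : 0 < x := lt_of_lt_of_le (by positivity) hx1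
  have hxy1 : 1 / Λ ^ 2 ≤ x * y := by
    calc 1 / Λ ^ 2 = (1 / Λ) * (1 / Λ) := by field_simp
      _ ≤ x * y := mul_le_mul hx1 hy0 (by positivity) hx0.le
  have hxy2 : x * y ≤ Λ ^ 2 := by
    calc x * y ≤ Λ * 1 := mul_le_mul hx2 hy1 hypos.le hΛ0.le
      _ ≤ Λ ^ 2 := by linarith
  have k3 := h (x * y) hxy1 hxy2
  rw [mul_assoc, hyN] at k3
  have k4 : |x * (y * r3 N) - x * r3 N'| ≤ x * (η * (y * r3 N)) := by
    rw [← mul_sub, abs_mul, abs_of_pos hx0, abs_sub_comm]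
    exact mul_le_mul_of_nonneg_left k1 hx0.le
  calc |(r3 ⌊x * (N' : ℝ)⌋₊ : ℝ) - x * r3 N'|
      ≤ |(r3 ⌊x * (N' : ℝ)⌋₊ : ℝ) - x * (y * r3 N)| + |x * (y * r3 N) - x * r3 N'| := by
        have := abs_add_le ((r3 ⌊x * (N' : ℝ)⌋₊ : ℝ) - x * (y * r3 N)) (x * (y * r3 N) - x * r3 N')
        rwa [sub_add_sub_cancel] at this
    _ ≤ η * (x * (y * r3 N)) + x * (η * (y * r3 N)) := by
        refine add_le_add ?_ k4
        rw [mul_assoc] at k3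
        exact k3
    _ = 2 * η * x * (y * r3 N) := by ring
    _ ≤ 2 * η * x * (2 * r3 N') := mul_le_mul_of_nonneg_left hN'r (by positivity)
    _ = 4 * η * (x * r3 N') := by ring

/-- monotonicity of the generating function -/
theorem zb_mono {w : ℝ} (hw : 0 ≤ w) {A B : Finset ℕ} (h : A ⊆ B) : Z w A ≤ Z w B := by
  classical
  unfold Z
  refine Finset.sum_le_sum_of_subset_of_nonneg ?_ (fun i _ _ => pow_nonneg hw _)
  intro I hI
  rw [Finset.mem_filter, Finset.mem_powerset] at hI ⊢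
  exact ⟨hI.1.trans h, hI.2⟩

/-- block bound from linearity and from the bound at all lengths in `[N/Λ, N]` -/
theorem blockBd_of {η Λ W : ℝ} (hη : 0 < η) (hη1 : η ≤ 1) (hΛ : 1 ≤ Λ) {N : ℕ}
    (hΛN : Λ ≤ N) (hlin : LinAt η Λ N)
    (hZ : ∀ N' : ℕ, (N : ℝ) ≤ Λ * N' → N' ≤ N → ∀ w : ℝ, 0 ≤ w → w ≤ W →
      Z w (Icc 1 N') ≤ Real.exp (η * r3 N') * (1 + w) ^ (r3 N')) :
    BlockBd η (2 / Λ) W N := by
  have hΛ0 : 0 < Λ := by linarith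
  have hNR : (0 : ℝ) < N := by linarith
  have hr : (0 : ℝ) ≤ r3 N := Nat.cast_nonneg _
  -- the auxiliary length
  have aux : ∀ ℓ : ℕ, ℓ ≤ N → ∃ N' : ℕ, ℓ ≤ N' ∧ N' ≤ N ∧ (N : ℝ) ≤ Λ * N' ∧
      (r3 N' : ℝ) ≤ (1 + η) * ((ℓ : ℝ) / N + 2 / Λ) * r3 N := by
    intro ℓ hℓ
    have hc1 : (⌈(N : ℝ) / Λ⌉₊ : ℝ) < N / Λ + 1 := Nat.ceil_lt_add_one (by positivity)
    have hc2 : (N : ℝ) / Λ ≤ ⌈(N : ℝ) / Λ⌉₊ := Nat.le_ceil _
    have hc3 : ⌈(N : ℝ) / Λ⌉₊ ≤ N := by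
      rw [Nat.ceil_le, div_le_iff₀ hΛ0]
      nlinarith
    obtain ⟨N', hN'⟩ : ∃ N', N' = max ℓ ⌈(N : ℝ) / Λ⌉₊ := ⟨_, rfl⟩
    have a1 : ℓ ≤ N' := by rw [hN']; exact le_max_left _ _
    have a2 : N' ≤ N := by rw [hN']; exact max_le hℓ hc3
    have a3 : (N : ℝ) / Λ ≤ N' := by
      refine hc2.trans ?_
      rw [hN']
      exact_mod_cast le_max_right _ _
    have a4 : (N : ℝ) ≤ Λ * N' := by
      rw [div_le_iff₀ hΛ0] at a3
      linarith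
    obtain ⟨y, hy⟩ : ∃ y : ℝ, y = (N' : ℝ) / N := ⟨_, rfl⟩
    have hyN : y * N = N' := by rw [hy, div_mul_cancel₀ _ hNR.ne']
    have hy1 : y ≤ 1 := by rw [hy, div_le_one hNR]; exact_mod_cast a2
    have hy0 : 1 / Λ ≤ y := by
      rw [hy, div_le_div_iff₀ hΛ0 hNR]
      linarith
    have hypos : 0 < y := lt_of_lt_of_le (by positivity) hy0
    have k1 := hlin y hy0 (hy1.trans hΛ)
    rw [hyN, Nat.floor_natCast] at k1
    have k2 := (abs_le.1 k1).2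
    have hyb : y ≤ (ℓ : ℝ) / N + 2 / Λ := by
      have b1 : (N' : ℝ) ≤ ℓ + (N / Λ + 1) := by
        rcases le_total ℓ ⌈(N : ℝ) / Λ⌉₊ with hl | hl
        · rw [hN', max_eq_right hl]
          have : (0 : ℝ) ≤ ℓ := Nat.cast_nonneg _
          linarith
        · rw [hN', max_eq_left hl]
          have : (0 : ℝ) ≤ (N : ℝ) / Λ := by positivity
          linarith
      have b2 : 1 ≤ (N : ℝ) / Λ := by rw [le_div_iff₀ hΛ0]; linarith
      have b3 : (N' : ℝ) ≤ ℓ + 2 * (N / Λ) := by linarith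
      rw [hy, div_le_iff₀ hNR, add_mul, div_mul_cancel₀ _ hNR.ne']
      calc (N' : ℝ) ≤ ℓ + 2 * (N / Λ) := b3
        _ = ℓ + 2 / Λ * N := by ring
    refine ⟨N', a1, a2, a4, ?_⟩
    calc (r3 N' : ℝ) ≤ (1 + η) * (y * r3 N) := by linarith
      _ = (1 + η) * y * r3 N := by ring
      _ ≤ (1 + η) * ((ℓ : ℝ) / N + 2 / Λ) * r3 N :=
        mul_le_mul_of_nonneg_right (mul_le_mul_of_nonneg_left hyb (by linarith)) hr
  constructor
  · intro ℓ hℓ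
    obtain ⟨N', a1, a2, a4, a5⟩ := aux ℓ hℓ
    refine le_trans ?_ a5
    exact_mod_cast r3_mono a1
  · intro ℓ hℓ w hw hwW
    obtain ⟨N', a1, a2, a4, a5⟩ := aux ℓ hℓ
    have hw1 : 0 < 1 + w := by linarith
    have hlog : 0 ≤ Real.log (1 + w) := Real.log_nonneg (by linarith)
    have b1 : Z w (Icc 1 ℓ) ≤ Z w (Icc 1 N') := zb_mono hw (Finset.Icc_subset_Icc_right a1)
    refine (b1.trans (hZ N' a4 a2 w hw hwW)).trans ?_
    have b2 : (1 + w) ^ (r3 N') = Real.exp ((r3 N' : ℝ) * Real.log (1 + w)) := by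
      rw [Real.exp_nat_mul, Real.exp_log hw1]
    rw [b2, ← Real.exp_add]
    refine Real.exp_le_exp.2 ?_
    calc η * r3 N' + (r3 N' : ℝ) * Real.log (1 + w) = (r3 N' : ℝ) * (Real.log (1 + w) + η) := by ring
      _ ≤ ((1 + η) * ((ℓ : ℝ) / N + 2 / Λ) * r3 N) * (Real.log (1 + w) + η) :=
        mul_le_mul_of_nonneg_right a5 (by linarith)
      _ = (1 + η) * ((ℓ : ℝ) / N + 2 / Λ) * (Real.log (1 + w) + η) * r3 N := by ring

end Pool.Agent.MP_0f71ae_nt.Sz
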