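import Pool.Agent.MP_0f71ae_nt.Sz.Def

set_option autoImplicit false

namespace Pool.Agent.MP_0f71ae_nt.Sz

open Finset Pool.Agent.MP_0f71ae_nt.Reg

theorem ge_mem (s q m x : ℕ) (hs : 1 ≤ s) (hq : 1 ≤ q) :
    x ∈ prog (s, q, m) ↔ s ≤ x ∧ (x - 1) % q = (s - 1) % q ∧ x < s + q * m := by
  simp only [prog, mem_image, mem_range]
  constructor
  · rintro ⟨j, hj, rfl⟩
    refine ⟨by omega, ?_, ?_⟩
    · have : s + q * j - 1 = (s - 1) + q * j := by omega
      rw [this, Nat.add_mul_mod_self_left]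
    · have := Nat.mul_lt_mul_of_pos_left hj (by omega : 0 < q)
      omega
  · rintro ⟨h1, h2, h3⟩
    have h4 := Nat.sub_mod_eq_zero_of_mod_eq h2
    have h5 : x - 1 - (s - 1) = x - s := by omega
    rw [h5] at h4
    obtain ⟨j, hj⟩ := Nat.dvd_of_mod_eq_zero h4
    refine ⟨j, ?_, by omega⟩
    have h6 : q * j < q * m := by omega
    exact lt_of_mul_lt_mul_left h6 (Nat.zero_le q)

/-- the tail of a residue class -/
def getl (N q s : ℕ) : ℕ × ℕ × ℕ := (s, q, if s ≤ N then (N - s) / q + 1 else 0)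

theorem getl_mem (N q s x : ℕ) (hs : 1 ≤ s) (hq : 1 ≤ q) :
    x ∈ prog (getl N q s) ↔ s ≤ x ∧ (x - 1) % q = (s - 1) % q ∧ x ≤ N := by
  by_cases hN : s ≤ N
  · rw [getl, if_pos hN, ge_mem _ _ _ _ hs hq]
    constructor
    · rintro ⟨h1, h2, h3⟩
      refine ⟨h1, h2, ?_⟩
      have h4 := Nat.sub_mod_eq_zero_of_mod_eq h2
      have h5 : x - 1 - (s - 1) = x - s := by omega
      rw [h5] at h4
      obtain ⟨j, hj⟩ := Nat.dvd_of_mod_eq_zero h4
      have h6 : q * j < q * ((N - s) / q + 1) := by omega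
      have h7 : j < (N - s) / q + 1 := lt_of_mul_lt_mul_left h6 (Nat.zero_le q)
      have h8 : q * j ≤ q * ((N - s) / q) := Nat.mul_le_mul_left q (by omega)
      have h9 := Nat.mul_div_le (N - s) q
      omega
    · rintro ⟨h1, h2, h3⟩
      refine ⟨h1, h2, ?_⟩
      have h4 := Nat.lt_mul_div_succ (N - s) (by omega : 0 < q)
      omega
  · rw [getl, if_neg hN]
    simp only [prog, range_zero, image_empty, notMem_empty, false_iff]
    rintro ⟨h1, _, h3⟩
    omega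

/-- the pieces -/
def gef (N a q l : ℕ) : ℕ → ℕ × ℕ × ℕ
  | 0 => (a, q, l)
  | 1 => ((a - 1) % q + 1, q, (a - 1) / q)
  | 2 => getl N q (a + q * l)
  | t + 3 => if t < q - 1 then
      getl N q ((if t < (a - 1) % q then t else t + 1) + 1) else (0, 1, 0)

theorem gef_pos (N a q l : ℕ) (hq : 1 ≤ q) (i : ℕ) : 1 ≤ (gef N a q l i).2.1 := by
  match i with
  | 0 => exact hq
  | 1 => exact hq
  | 2 => exact hq
  | t + 3 =>
    simp only [gef]
    split_ifs
    · exact hq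
    · exact hq
    · exact le_refl 1

theorem gef_mem0 (N a q l x : ℕ) (ha : 1 ≤ a) (hq : 1 ≤ q) :
    x ∈ prog (gef N a q l 0) ↔ (x - 1) % q = (a - 1) % q ∧ a ≤ x ∧ x < a + q * l := by
  simp only [gef]
  rw [ge_mem _ _ _ _ ha hq]
  tauto

theorem gef_mem1 (N a q l x : ℕ) (ha : 1 ≤ a) (hq : 1 ≤ q) :
    x ∈ prog (gef N a q l 1) ↔ (x - 1) % q = (a - 1) % q ∧ 1 ≤ x ∧ x < a := by
  simp only [gef]
  rw [ge_mem _ _ _ _ (by omega) hq]
  have h1 : (a - 1) % q + 1 - 1 = (a - 1) % q := by omega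
  rw [h1, Nat.mod_mod]
  have h2 := Nat.mod_add_div (a - 1) q
  constructor
  · rintro ⟨h3, h4, h5⟩
    exact ⟨h4, by omega, by omega⟩
  · rintro ⟨h3, h4, h5⟩
    refine ⟨?_, h3, by omega⟩
    rw [← h3]
    have := Nat.mod_le (x - 1) q
    omega

theorem gef_mem2 (N a q l x : ℕ) (ha : 1 ≤ a) (hq : 1 ≤ q) :
    x ∈ prog (gef N a q l 2) ↔ (x - 1) % q = (a - 1) % q ∧ a + q * l ≤ x ∧ x ≤ N := by
  simp only [gef]
  rw [getl_mem _ _ _ _ (by omega) hq]
  have h1 : a + q * l - 1 = (a - 1) + q * l := by omega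
  rw [h1, Nat.add_mul_mod_self_left]
  tauto

theorem gef_mem3 (N a q l x t : ℕ) (hq : 1 ≤ q) :
    x ∈ prog (gef N a q l (t + 3)) ↔ t < q - 1 ∧
      (x - 1) % q = (if t < (a - 1) % q then t else t + 1) ∧ 1 ≤ x ∧ x ≤ N := by
  simp only [gef]
  by_cases ht : t < q - 1
  · rw [if_pos ht]
    set c : ℕ := if t < (a - 1) % q then t else t + 1 with hc
    have hcq : c < q := by
      rw [hc]
      split_ifs <;> omega
    rw [getl_mem _ _ _ _ (by omega) hq]
    have h1 : c + 1 - 1 = c := by omega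
    rw [h1, Nat.mod_eq_of_lt hcq]
    constructor
    · rintro ⟨h2, h3, h4⟩
      exact ⟨ht, h3, by omega, h4⟩
    · rintro ⟨_, h3, h4, h5⟩
      refine ⟨?_, h3, h5⟩
      rw [← h3]
      have := Nat.mod_le (x - 1) q
      omega
  · rw [if_neg ht]
    simp only [prog, range_zero, image_empty, notMem_empty, false_iff]
    rintro ⟨h1, _⟩
    exact ht h1

theorem gef_disj (N a q l : ℕ) (ha : 1 ≤ a) (hq : 1 ≤ q) (i j : ℕ) (hij : i ≠ j) :
    Disjoint (prog (gef N a q l i)) (prog (gef N a q l j)) := by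
  rw [disjoint_left]
  intro x h1 h2
  have m0 := gef_mem0 N a q l x ha hq
  have m1 := gef_mem1 N a q l x ha hq
  have m2 := gef_mem2 N a q l x ha hq
  match i, j, hij with
  | 0, 0, h => exact h rfl
  | 0, 1, _ => rw [m0] at h1; rw [m1] at h2; omega
  | 0, 2, _ => rw [m0] at h1; rw [m2] at h2; omega
  | 1, 0, _ => rw [m1] at h1; rw [m0] at h2; omega
  | 1, 1, h => exact h rfl
  | 1, 2, _ => rw [m1] at h1; rw [m2] at h2; omega
  | 2, 0, _ => rw [m2] at h1; rw [m0] at h2; omega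
  | 2, 1, _ => rw [m2] at h1; rw [m1] at h2; omega
  | 2, 2, h => exact h rfl
  | 0, t + 3, _ =>
    rw [m0] at h1; rw [gef_mem3 N a q l x t hq] at h2
    split_ifs at h2 <;> omega
  | 1, t + 3, _ =>
    rw [m1] at h1; rw [gef_mem3 N a q l x t hq] at h2
    split_ifs at h2 <;> omega
  | 2, t + 3, _ =>
    rw [m2] at h1; rw [gef_mem3 N a q l x t hq] at h2
    split_ifs at h2 <;> omega
  | t + 3, 0, _ =>
    rw [m0] at h2; rw [gef_mem3 N a q l x t hq] at h1
    split_ifs at h1 <;> omega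
  | t + 3, 1, _ =>
    rw [m1] at h2; rw [gef_mem3 N a q l x t hq] at h1
    split_ifs at h1 <;> omega
  | t + 3, 2, _ =>
    rw [m2] at h2; rw [gef_mem3 N a q l x t hq] at h1
    split_ifs at h1 <;> omega
  | t + 3, s + 3, h =>
    rw [gef_mem3 N a q l x t hq] at h1
    rw [gef_mem3 N a q l x s hq] at h2
    split_ifs at h1 h2 <;> omega

theorem gef_part (N L a q l : ℕ) (ha : 1 ≤ a) (haN : a ≤ N + 1) (hq : 1 ≤ q)
    (hp : prog (a, q, l) ⊆ Icc 1 N) (hL : q + 2 ≤ L) :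
    IsPart N L (fun i => gef N a q l i.val) := by
  refine ⟨fun i => gef_pos N a q l hq i, fun i j hij => gef_disj N a q l ha hq _ _
    (fun h => hij (Fin.ext h)), ?_⟩
  ext x
  rw [mem_biUnion, mem_Icc]
  constructor
  · rintro ⟨⟨i, hi⟩, _, hx⟩
    simp only at hx
    match i, hx with
    | 0, hx =>
      have := hp hx
      rw [mem_Icc] at this
      exact this
    | 1, hx =>
      rw [gef_mem1 N a q l x ha hq] at hx
      omega
    | 2, hx =>
      rw [gef_mem2 N a q l x ha hq] at hx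
      exact ⟨by omega, hx.2.2⟩
    | t + 3, hx =>
      rw [gef_mem3 N a q l x t hq] at hx
      exact ⟨hx.2.2.1, hx.2.2.2⟩
  · rintro ⟨h1, h2⟩
    have hR : (x - 1) % q < q := Nat.mod_lt _ (by omega)
    have hA : (a - 1) % q < q := Nat.mod_lt _ (by omega)
    by_cases hRA : (x - 1) % q = (a - 1) % q
    · by_cases hxa : x < a
      · exact ⟨⟨1, by omega⟩, mem_univ _, (gef_mem1 N a q l x ha hq).2 ⟨hRA, h1, hxa⟩⟩
      · by_cases hxb : x < a + q * l
        · exact ⟨⟨0, by omega⟩, mem_univ _,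
            (gef_mem0 N a q l x ha hq).2 ⟨hRA, by omega, hxb⟩⟩
        · exact ⟨⟨2, by omega⟩, mem_univ _,
            (gef_mem2 N a q l x ha hq).2 ⟨hRA, by omega, h2⟩⟩
    · by_cases hlt : (x - 1) % q < (a - 1) % q
      · refine ⟨⟨(x - 1) % q + 3, by omega⟩, mem_univ _, ?_⟩
        refine (gef_mem3 N a q l x _ hq).2 ⟨by omega, ?_, h1, h2⟩
        rw [if_pos hlt]
      · refine ⟨⟨((x - 1) % q - 1) + 3, by omega⟩, mem_univ _, ?_⟩
        refine (gef_mem3 N a q l x _ hq).2 ⟨by omega, ?_, h1, h2⟩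
        rw [if_neg (by omega)]
        omega

theorem exists_part (N L : ℕ) (hN : 1 ≤ N) (p : ℕ × ℕ × ℕ) (hq : 1 ≤ p.2.1)
    (hp : prog p ⊆ Icc 1 N) (hL : p.2.1 + 2 ≤ L) :
    ∃ P : Fin L → ℕ × ℕ × ℕ, IsPart N L P ∧ ∃ i, prog (P i) = prog p := by
  obtain ⟨a, q, l⟩ := p
  simp only at hq hL
  by_cases hl : l = 0
  · subst hl
    have h0 : ∀ b : ℕ, prog (b, q, 0) = ∅ := fun b => by
      simp [prog]
    refine ⟨_, gef_part N L 1 q 0 (le_refl _) (by omega) hq (by rw [h0]; exact empty_subset _) hL,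
      ⟨0, by omega⟩, ?_⟩
    show prog (gef N 1 q 0 0) = _
    simp only [gef]
    rw [h0, h0]
  · have ha : a ∈ Icc 1 N := hp (by
      simp only [prog, mem_image, mem_range]
      exact ⟨0, by omega, by simp⟩)
    rw [mem_Icc] at ha
    exact ⟨_, gef_part N L a q l ha.1 (by omega) hq hp hL, ⟨0, by omega⟩, rfl⟩

end Pool.Agent.MP_0f71ae_nt.Sz
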