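import Pool.Agent.MP_0f71ae_nt.Sz.FI
import Pool.Agent.MP_0f71ae_nt.Sz.GE

/-!
# Equidistribution on a single progression
-/

set_option autoImplicit false

namespace Pool.Agent.MP_0f71ae_nt.Sz

open Finset Pool.Agent.MP_0f71ae_nt.Reg Pool.Agent.MP_0f71ae_nt.Cnt

/-- the case in which the progression is a member of a partition into at most `L` pieces -/
theorem eq_of_part {ε : ℝ} {L N : ℕ} (hN : 1 ≤ N) {A : Finset ℕ} (h : Equi ε L N A)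
    (p : ℕ × ℕ × ℕ) (hp : 1 ≤ p.2.1) (hpN : prog p ⊆ Icc 1 N) (hL : p.2.1 + 2 ≤ L) :
    |((A ∩ prog p).card : ℝ) - (p.2.2 : ℝ) / N * A.card| ≤ ε * A.card := by
  obtain ⟨P, hP, i, hi⟩ := exists_part N L hN p hp hpN hL
  have h1 := h P hP
  have h2 : |((A ∩ prog (P i)).card : ℝ) - ((prog (P i)).card : ℝ) / N * A.card| ≤
      ∑ i, |((A ∩ prog (P i)).card : ℝ) - ((prog (P i)).card : ℝ) / N * A.card| :=
    Finset.single_le_sum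
      (f := fun i => |((A ∩ prog (P i)).card : ℝ) - ((prog (P i)).card : ℝ) / N * A.card|)
      (fun i _ => abs_nonneg _) (Finset.mem_univ i)
  rw [hi, card_prog p hp] at h2
  exact h2.trans h1

theorem eq_prog_one (a q ℓ : ℕ) (hℓ : ℓ ≤ 1) : prog (a, q, ℓ) = prog (a, 1, ℓ) := by
  unfold prog
  refine Finset.image_congr (fun j hj => ?_)
  have hj' := Finset.mem_range.1 (Finset.mem_coe.1 hj)
  simp only at hj'
  have : j = 0 := by omega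
  subst this
  simp

theorem equi_single {ε : ℝ} (hε : 0 < ε) (hε1 : ε ≤ 1) {L N : ℕ} (hN : 1 ≤ N) {A : Finset ℕ}
    (hL : 16 / ε ^ 2 + 4 ≤ L) (h : Equi ε L N A)
    (hup : ∀ ℓ ≤ N, (r3 ℓ : ℝ) ≤ (1 + ε ^ 2 / 8) * ((ℓ : ℝ) / N + ε ^ 2 / 8) * r3 N)
    (hf : APFree A) (hm : ε * r3 N ≤ A.card) (p : ℕ × ℕ × ℕ) (hp : 1 ≤ p.2.1)
    (hpN : prog p ⊆ Icc 1 N) :
    |((A ∩ prog p).card : ℝ) - (p.2.2 : ℝ) / N * A.card| ≤ ε * A.card := by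
  obtain ⟨a, q, ℓ⟩ := p
  simp only at hp ⊢
  have hε2 : 0 < ε ^ 2 := by positivity
  have hL4 : 4 ≤ L := by
    have h1 : (0 : ℝ) ≤ 16 / ε ^ 2 := by positivity
    have h2 : (4 : ℝ) ≤ L := by linarith
    exact_mod_cast h2
  by_cases hℓ : ℓ ≤ 1
  · rw [eq_prog_one a q ℓ hℓ] at hpN ⊢
    exact eq_of_part hN h (a, 1, ℓ) le_rfl hpN (by simp only; omega)
  by_cases hq : q + 2 ≤ L
  · exact eq_of_part hN h (a, q, ℓ) hp hpN hq
  have hℓ2 : 2 ≤ ℓ := by omega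
  have hq2 : L - 1 ≤ q := by omega
  -- the length
  have hlast : a + q * (ℓ - 1) ∈ Icc 1 N := by
    refine hpN ?_
    unfold prog
    refine Finset.mem_image.2 ⟨ℓ - 1, Finset.mem_range.2 ?_, rfl⟩
    simp only
    omega
  have hqℓ : q * (ℓ - 1) ≤ N := by
    have := (Finset.mem_Icc.1 hlast).2
    omega
  have hqN : q ≤ N := le_trans (Nat.le_mul_of_pos_right q (by omega)) hqℓ
  have hℓN : ℓ ≤ N := by
    have h1 : ℓ ≤ q * (ℓ - 1) := by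
      have h2 : 3 ≤ q := by omega
      have h3 : 3 * (ℓ - 1) ≤ q * (ℓ - 1) := Nat.mul_le_mul_right _ h2
      omega
    omega
  have hqr : 16 / ε ^ 2 ≤ (q : ℝ) := by
    have h1 : ((L - 1 : ℕ) : ℝ) ≤ q := by exact_mod_cast hq2
    rw [Nat.cast_sub (by omega)] at h1
    push_cast at h1
    linarith
  have hqpos : (0 : ℝ) < q := lt_of_lt_of_le (by positivity) hqr
  have hNpos : (0 : ℝ) < N := by exact_mod_cast hN
  have hfrac : (ℓ : ℝ) / N ≤ ε ^ 2 / 8 := by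
    have h1 : (q : ℝ) * ((ℓ : ℝ) - 1) ≤ N := by
      have h2 : ((q * (ℓ - 1) : ℕ) : ℝ) ≤ N := by exact_mod_cast hqℓ
      rw [Nat.cast_mul, Nat.cast_sub (by omega)] at h2
      push_cast at h2
      exact h2
    have h3 : (q : ℝ) ≤ N := by exact_mod_cast hqN
    have h4 : (q : ℝ) * ℓ ≤ 2 * N := by nlinarith
    have h5 : 16 * (ℓ : ℝ) ≤ ε ^ 2 * (2 * N) := by
      have h6 : 16 ≤ ε ^ 2 * q := by
        rw [div_le_iff₀ hε2] at hqr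
        linarith
      have h7 : 16 * (ℓ : ℝ) ≤ ε ^ 2 * q * ℓ := mul_le_mul_of_nonneg_right h6 (Nat.cast_nonneg _)
      have h8 : ε ^ 2 * ((q : ℝ) * ℓ) ≤ ε ^ 2 * (2 * N) := mul_le_mul_of_nonneg_left h4 hε2.le
      nlinarith
    rw [div_le_iff₀ hNpos]
    linarith
  have hr0 : (0 : ℝ) ≤ r3 N := Nat.cast_nonneg _
  have hA0 : (0 : ℝ) ≤ A.card := Nat.cast_nonneg _
  have hfrac0 : (0 : ℝ) ≤ (ℓ : ℝ) / N := by positivity
  have hεsq : ε ^ 2 ≤ ε := by nlinarith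
  -- the two terms
  have t1 : ((A ∩ prog (a, q, ℓ)).card : ℝ) ≤ ε * A.card := by
    have h1 : ((A ∩ prog (a, q, ℓ)).card : ℝ) ≤ r3 ℓ := by
      exact_mod_cast card_inter_prog_le hf (a, q, ℓ) hp
    have h2 : (1 + ε ^ 2 / 8) * ((ℓ : ℝ) / N + ε ^ 2 / 8) ≤ ε ^ 2 := by
      have h3 : (1 + ε ^ 2 / 8) * ((ℓ : ℝ) / N + ε ^ 2 / 8) ≤ (1 + 1) * (ε ^ 2 / 8 + ε ^ 2 / 8) :=
        mul_le_mul (by nlinarith) (by linarith) (by positivity) (by norm_num)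
      linarith
    calc ((A ∩ prog (a, q, ℓ)).card : ℝ) ≤ r3 ℓ := h1
      _ ≤ (1 + ε ^ 2 / 8) * ((ℓ : ℝ) / N + ε ^ 2 / 8) * r3 N := hup ℓ hℓN
      _ ≤ ε ^ 2 * r3 N := mul_le_mul_of_nonneg_right h2 hr0
      _ = ε * (ε * r3 N) := by ring
      _ ≤ ε * A.card := mul_le_mul_of_nonneg_left hm hε.le
  have t2 : (ℓ : ℝ) / N * A.card ≤ ε * A.card :=
    mul_le_mul_of_nonneg_right (by linarith) hA0
  have t3 : (0 : ℝ) ≤ ((A ∩ prog (a, q, ℓ)).card : ℝ) := Nat.cast_nonneg _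
  have t4 : (0 : ℝ) ≤ (ℓ : ℝ) / N * A.card := mul_nonneg hfrac0 hA0
  rw [abs_le]
  constructor <;> linarith

/-- the same from the block bound -/
theorem equi_single_of_blockBd {ε η ρ W : ℝ} (hε : 0 < ε) (hε1 : ε ≤ 1) (hη : η ≤ ε ^ 2 / 8)
    (hρ0 : 0 ≤ ρ) (hρ : ρ ≤ ε ^ 2 / 8) {L N : ℕ} (hN : 1 ≤ N) (hB : BlockBd η ρ W N)
    {A : Finset ℕ} (hL : 16 / ε ^ 2 + 4 ≤ L) (h : Equi ε L N A) (hf : APFree A)
    (hm : ε * r3 N ≤ A.card) (p : ℕ × ℕ × ℕ) (hp : 1 ≤ p.2.1) (hpN : prog p ⊆ Icc 1 N) :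
    |((A ∩ prog p).card : ℝ) - (p.2.2 : ℝ) / N * A.card| ≤ ε * A.card := by
  refine equi_single hε hε1 hN hL h (fun ℓ hℓ => (hB.1 ℓ hℓ).trans ?_) hf hm p hp hpN
  have hr0 : (0 : ℝ) ≤ r3 N := Nat.cast_nonneg _
  have hx : (0 : ℝ) ≤ (ℓ : ℝ) / N + ρ := by positivity
  refine mul_le_mul_of_nonneg_right ?_ hr0
  calc (1 + η) * ((ℓ : ℝ) / N + ρ) ≤ (1 + ε ^ 2 / 8) * ((ℓ : ℝ) / N + ρ) :=
        mul_le_mul_of_nonneg_right (by linarith) hx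
    _ ≤ (1 + ε ^ 2 / 8) * ((ℓ : ℝ) / N + ε ^ 2 / 8) :=
        mul_le_mul_of_nonneg_left (by linarith) (by positivity)

end Pool.Agent.MP_0f71ae_nt.Sz
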