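import Pool.Agent.MP_0f71ae_nt.Sz.EQ
import Pool.Agent.MP_0f71ae_nt.Fine.Final

/-!
# From partitions to partitions, single progressions and major arcs
-/

set_option autoImplicit false

namespace Pool.Agent.MP_0f71ae_nt.Sz

open Finset Pool.Agent.MP_0f71ae_nt.Reg Pool.Agent.MP_0f71ae_nt.Cnt Pool.Agent.MP_0f71ae_nt.Fine

theorem ev_code {P : Finset ℕ} (h : IsAP P) : ∃ p : ℕ × ℕ × ℕ, 1 ≤ p.2.1 ∧ prog p = P := by
  obtain ⟨a, q, m, hq, rfl⟩ := h
  exact ⟨(a, q, m), hq, rfl⟩

/-- The definition of `Equi` for families of progressions with another index set. -/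
theorem equi_family {ε : ℝ} {L N : ℕ} {A : Finset ℕ} (h : Equi ε L N A)
    {ι : Type*} (s : Finset ι) (P : ι → Finset ℕ) (hs : s.card ≤ L)
    (hP : ∀ i ∈ s, IsAP (P i)) (hd : ∀ i ∈ s, ∀ j ∈ s, i ≠ j → Disjoint (P i) (P j))
    (hU : ∀ x, x ∈ Icc 1 N ↔ ∃ i ∈ s, x ∈ P i) :
    ∑ i ∈ s, |((A ∩ P i).card : ℝ) - ((P i).card : ℝ) / N * A.card| ≤ ε * A.card := by
  classical
  have hP' : ∀ i, ∃ p : ℕ × ℕ × ℕ, 1 ≤ p.2.1 ∧ (i ∈ s → prog p = P i) := by
    intro i
    by_cases hi : i ∈ s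
    · obtain ⟨p, h1, h2⟩ := ev_code (hP i hi)
      exact ⟨p, h1, fun _ => h2⟩
    · exact ⟨(0, 1, 0), le_rfl, fun h => absurd h hi⟩
  choose f hf1 hf2 using hP'
  obtain ⟨g, hg⟩ : ∃ g : Fin L → ℕ × ℕ × ℕ, ∀ j, g j = if hj : (j : ℕ) < s.card then
    f (s.equivFin.symm ⟨j, hj⟩ : s).1 else (0, 1, 0) := ⟨_, fun _ => rfl⟩
  have hg1 : ∀ (j : Fin L) (hj : (j : ℕ) < s.card), prog (g j) = P (s.equivFin.symm ⟨j, hj⟩ : s).1 := by
    intro j hj
    rw [hg, dif_pos hj]
    exact hf2 _ (s.equivFin.symm ⟨j, hj⟩ : s).2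
  have hg2 : ∀ j : Fin L, ¬ (j : ℕ) < s.card → prog (g j) = ∅ := by
    intro j hj
    rw [hg, dif_neg hj]
    rfl
  have hpart : IsPart N L g := by
    refine ⟨?_, ?_, ?_⟩
    · intro j
      rw [hg]
      by_cases hj : (j : ℕ) < s.card
      · rw [dif_pos hj]
        exact hf1 _
      · rw [dif_neg hj]
    · intro i j hij
      by_cases hi : (i : ℕ) < s.card
      · by_cases hj : (j : ℕ) < s.card
        · rw [hg1 i hi, hg1 j hj]
          apply hd _ (s.equivFin.symm ⟨i, hi⟩ : s).2 _ (s.equivFin.symm ⟨j, hj⟩ : s).2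
          intro hc
          apply hij
          have h1 : s.equivFin.symm ⟨i, hi⟩ = s.equivFin.symm ⟨j, hj⟩ := Subtype.ext hc
          have h2 := s.equivFin.symm.injective h1
          have h3 : (i : ℕ) = j := by simpa using h2
          exact Fin.ext h3
        · rw [hg2 j hj]
          exact disjoint_empty_right _
      · rw [hg2 i hi]
        exact disjoint_empty_left _
    · ext x
      rw [mem_biUnion, hU]
      constructor
      · rintro ⟨j, _, hx⟩
        by_cases hj : (j : ℕ) < s.card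
        · rw [hg1 j hj] at hx
          exact ⟨_, (s.equivFin.symm ⟨j, hj⟩ : s).2, hx⟩
        · rw [hg2 j hj] at hx
          exact absurd hx (notMem_empty x)
      · rintro ⟨i, hi, hx⟩
        refine ⟨⟨(s.equivFin ⟨i, hi⟩ : Fin s.card), lt_of_lt_of_le (s.equivFin ⟨i, hi⟩).2 hs⟩,
          mem_univ _, ?_⟩
        rw [hg1 _ (s.equivFin ⟨i, hi⟩).2]
        simpa using hx
  have h1 := h g hpart
  refine le_trans ?_ h1
  obtain ⟨F, hF⟩ : ∃ F : Finset ℕ → ℝ, ∀ B, F B =
    |((A ∩ B).card : ℝ) - (B.card : ℝ) / N * A.card| := ⟨_, fun _ => rfl⟩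
  have hF0 : ∀ B, 0 ≤ F B := fun B => by rw [hF]; exact abs_nonneg _
  have e1 : ∑ i ∈ s, |((A ∩ P i).card : ℝ) - ((P i).card : ℝ) / N * A.card| =
      ∑ i : s, F (P i.1) := by
    rw [← Finset.sum_coe_sort]
    exact sum_congr rfl fun i _ => (hF _).symm
  have e2 : ∑ i, |((A ∩ prog (g i)).card : ℝ) - ((prog (g i)).card : ℝ) / N * A.card| =
      ∑ i, F (prog (g i)) := sum_congr rfl fun i _ => (hF _).symm
  rw [e1, e2]
  obtain ⟨φ, hφ⟩ : ∃ φ : s ↪ Fin L, ∀ i, φ i = Fin.castLE hs (s.equivFin i) :=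
    ⟨⟨fun i => Fin.castLE hs (s.equivFin i), fun i j hij =>
      s.equivFin.injective (Fin.castLE_injective hs hij)⟩, fun _ => rfl⟩
  have e3 : ∑ i : s, F (P i.1) = ∑ j ∈ (Finset.univ : Finset s).map φ, F (prog (g j)) := by
    rw [sum_map]
    refine sum_congr rfl fun i _ => ?_
    have h2 : ((φ i : Fin L) : ℕ) < s.card := by
      rw [hφ]
      exact (s.equivFin i).2
    rw [hg1 _ h2]
    have h3 : (⟨((φ i : Fin L) : ℕ), h2⟩ : Fin s.card) = s.equivFin i := by
      apply Fin.ext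
      simp [hφ]
    rw [h3, Equiv.symm_apply_apply]
  rw [e3]
  exact sum_le_sum_of_subset_of_nonneg (subset_univ _) fun j _ _ => hF0 _

/-- `Equi` for a partition. -/
theorem equi_finpartition {ε : ℝ} {L N : ℕ} {A : Finset ℕ} (h : Equi ε L N A)
    (Q : Finpartition (Icc 1 N)) (hS : Q.parts.card ≤ L) (hQ : ∀ P ∈ Q.parts, IsAP P) :
    ∑ P ∈ Q.parts, |((A ∩ P).card : ℝ) - (P.card : ℝ) / N * A.card| ≤ ε * A.card := by
  classical
  refine equi_family h Q.parts (fun P => P) hS hQ ?_ ?_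
  · intro P hP P' hP' hne
    exact Q.disjoint hP hP' hne
  · intro x
    constructor
    · intro hx
      have h1 := Q.biUnion_parts
      rw [← h1] at hx
      obtain ⟨P, hP, hx⟩ := mem_biUnion.1 hx
      exact ⟨P, hP, hx⟩
    · rintro ⟨P, hP, hx⟩
      exact Q.le hP hx

/-- `Equi` for the pieces given by a residue class and a block. -/
theorem equi_piece {ε : ℝ} {L N q T : ℕ} (hq : 1 ≤ q) {τ : ℕ → ℕ} (hτ : Monotone τ)
    (hT : ∀ n ∈ Icc 1 N, τ n < T) (hS : q * T ≤ L) {A : Finset ℕ} (h : Equi ε L N A) :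
    ∑ i ∈ range q ×ˢ range T, |((A ∩ piece N q τ i).card : ℝ) -
      ((piece N q τ i).card : ℝ) / N * A.card| ≤ ε * A.card := by
  refine equi_family h _ (piece N q τ) ?_ (fun i _ => piece_ap N hq hτ i) ?_ ?_
  · rw [card_product, card_range, card_range]
    exact hS
  · intro i _ j _ hij
    rw [Finset.disjoint_left]
    intro x hx hy
    have h1 := (mem_filter.1 hx).2
    have h2 := (mem_filter.1 hy).2
    exact hij (Prod.ext (h1.1.symm.trans h2.1) (h1.2.symm.trans h2.2))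
  · intro x
    constructor
    · intro hx
      refine ⟨(x % q, τ x), ?_, ?_⟩
      · rw [mem_product, mem_range, mem_range]
        exact ⟨Nat.mod_lt _ (by omega), hT x hx⟩
      · exact mem_filter.2 ⟨hx, rfl, rfl⟩
    · rintro ⟨i, _, hx⟩
      exact piece_sub N q τ i hx

/-- One major arc, for given blocks. -/
theorem ev_arc_block {e δ : ℝ} {N L' q H : ℕ} (hq : 1 ≤ q)
    (hS : q * (N / H + 1) ≤ L') (hN : 1 ≤ N)
    {A : Finset ℕ} (hAN : A ⊆ Icc 1 N) (hE : Equi e L' N A)
    (b : ℤ) (β : ℝ) (hδ : 0 ≤ δ)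
    (hβ : ∀ m n : ℕ, m ≤ n → m / H = n / H → q ∣ n - m →
      2 * Real.pi * |β| * ((n : ℝ) - m) ≤ δ) :
    ‖∑ n ∈ A, ph ((b : ℝ) / q + β) n - ((A.card : ℝ) / N : ℝ) *
      ∑ n ∈ Icc 1 N, ph ((b : ℝ) / q + β) n‖ ≤ e * A.card + 2 * δ * A.card := by
  have hN0 : (0 : ℝ) < N := by exact_mod_cast hN
  have hT : ∀ n ∈ Icc 1 N, n / H < N / H + 1 := fun n hn =>
    Nat.lt_succ_of_le (Nat.div_le_div_right (mem_Icc.1 hn).2)
  have hpc := equi_piece (q := q) (T := N / H + 1) hq (div_mono H) hT hS hE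
  have h1 := ph_pieces (range q ×ˢ range (N / H + 1)) (piece N q fun n => n / H) (A := A)
    (B := Icc 1 N) (c := (A.card : ℝ) / N) (δ := δ) (D := e * A.card)
    (by positivity) (ph ((b : ℝ) / q + β)) (ph_norm _) hδ
    (piece_sum_fun N q _ hq _ hT hAN)
    (fun g => by
      rw [piece_sum_fun N q _ hq _ hT (Subset.refl _) g]
      refine sum_congr rfl fun i _ => ?_
      rw [inter_eq_right.2 (piece_sub N q _ i)])
    (by
      intro i _ m hm n hn
      have h2 := (mem_filter.1 hm).2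
      have h3 := (mem_filter.1 hn).2
      rcases le_total m n with hmn | hmn
      · have hd : q ∣ n - m := (Nat.modEq_iff_dvd' hmn).1 (h2.1.trans h3.1.symm)
        exact (ph_sub hq b β hmn hd).trans (hβ m n hmn (h2.2.trans h3.2.symm) hd)
      · have hd : q ∣ m - n := (Nat.modEq_iff_dvd' hmn).1 (h3.1.trans h2.1.symm)
        rw [norm_sub_rev]
        exact (ph_sub hq b β hmn hd).trans (hβ n m hmn (h3.2.trans h2.2.symm) hd))
    (by
      refine le_trans (le_of_eq ?_) hpc
      refine sum_congr rfl fun i _ => ?_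
      congr 2
      ring)
  refine h1.trans ?_
  rw [Nat.card_Icc, Nat.add_sub_cancel, div_mul_cancel₀ _ hN0.ne']
  linarith

/-- The major arcs. -/
theorem ev_arc {e L : ℝ} {N L' q : ℕ} (he : 0 < e) (he1 : e ≤ 1) (hL : 1 ≤ L)
    (hN : 1 ≤ N) (hS : 16 * L ^ 2 / e ≤ L')
    {A : Finset ℕ} (hAN : A ⊆ Icc 1 N) (hE : Equi e L' N A)
    (b : ℤ) (β : ℝ) (hq : 1 ≤ q) (hqL : (q : ℝ) ≤ L) (hβ : |β| ≤ L / N) :
    ‖∑ n ∈ A, ph ((b : ℝ) / q + β) n - ((A.card : ℝ) / N : ℝ) *
      ∑ n ∈ Icc 1 N, ph ((b : ℝ) / q + β) n‖ ≤ e * A.card + 2 * e * A.card := by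
  have hN0 : (0 : ℝ) < N := by exact_mod_cast hN
  have hL0 : (0 : ℝ) < L := by linarith
  have hq0 : (0 : ℝ) < q := by exact_mod_cast hq
  have hpi : Real.pi < 3.15 := Real.pi_lt_d2
  have hpi0 : 0 < Real.pi := Real.pi_pos
  have hLL : L ≤ L ^ 2 / e := by
    rw [le_div_iff₀ he]
    nlinarith
  rcases le_or_gt (N : ℝ) (7 * L ^ 2 / e) with hc | hc
  · -- blocks of length q
    refine ev_arc_block (H := q) hq ?_ hN hAN hE b β he.le ?_
    · have hS' : ((q * (N / q + 1) : ℕ) : ℝ) ≤ L' := by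
        refine le_trans ?_ hS
        have h1 : (q : ℝ) * ((N / q : ℕ) : ℝ) ≤ N := by exact_mod_cast Nat.mul_div_le N q
        have h2 : ((q * (N / q + 1) : ℕ) : ℝ) = (q : ℝ) * ((N / q : ℕ) : ℝ) + q := by
          push_cast
          ring
        rw [h2]
        have h3 : 16 * L ^ 2 / e = 7 * L ^ 2 / e + 9 * (L ^ 2 / e) := by ring
        rw [h3]
        nlinarith
      exact_mod_cast hS'
    · intro m n hmn hmod hd
      have h1 : m = n := by
        obtain ⟨c, hc⟩ := hd
        have h2 : n = m + q * c := by omega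
        rw [h2, Nat.add_mul_div_left _ _ (by omega)] at hmod
        have h3 : c = 0 := by omega
        rw [h2, h3]
        simp
      rw [h1, sub_self, mul_zero]
      exact he.le
  · -- blocks of length q h
    obtain ⟨x, hx⟩ : ∃ x : ℝ, x = e * N / (7 * L * q) := ⟨_, rfl⟩
    have hx1 : 1 ≤ x := by
      rw [hx, le_div_iff₀ (by positivity), one_mul]
      rw [div_lt_iff₀ he] at hc
      have h1 : 7 * L * q ≤ 7 * L ^ 2 := by nlinarith
      linarith
    have hf1 : 1 ≤ ⌊x⌋₊ := Nat.le_floor (by exact_mod_cast hx1)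
    have hfx : (⌊x⌋₊ : ℝ) ≤ x := Nat.floor_le (by linarith)
    have hfx2 : x ≤ 2 * (⌊x⌋₊ : ℝ) := by
      have h1 := Nat.lt_floor_add_one x
      have h2 : (1 : ℝ) ≤ ⌊x⌋₊ := by exact_mod_cast hf1
      linarith
    obtain ⟨g, hg⟩ : ∃ g : ℕ, g = ⌊x⌋₊ := ⟨_, rfl⟩
    rw [← hg] at hf1 hfx hfx2
    have hg0 : (0 : ℝ) < g := by exact_mod_cast hf1
    have hqg : 1 ≤ q * g := Nat.one_le_iff_ne_zero.2 (Nat.mul_ne_zero (by omega) (by omega))
    refine ev_arc_block (H := q * g) hq ?_ hN hAN hE b β he.le ?_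
    · have hS' : ((q * (N / (q * g) + 1) : ℕ) : ℝ) ≤ L' := by
        refine le_trans ?_ hS
        have h1 : ((N / (q * g) : ℕ) : ℝ) ≤ N / (q * g : ℝ) := by
          have := Nat.cast_div_le (α := ℝ) (m := N) (n := q * g)
          push_cast at this
          exact this
        have h2 : ((q * (N / (q * g) + 1) : ℕ) : ℝ) ≤ N / g + q := by
          push_cast
          have h3 : (q : ℝ) * (N / (q * g : ℝ) + 1) = N / g + q := by
            field_simp
          rw [← h3]
          apply mul_le_mul_of_nonneg_left _ hq0.le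
          linarith
        refine h2.trans ?_
        have h4 : (N : ℝ) / g ≤ 14 * (L ^ 2 / e) := by
          rw [div_le_iff₀ hg0]
          have h5 : e * N ≤ 14 * L ^ 2 * g := by
            have h6 : e * N = x * (7 * L * q) := by
              rw [hx]
              field_simp
            rw [h6]
            have h7 : x * (7 * L * q) ≤ (2 * g) * (7 * L * L) := by
              apply mul_le_mul hfx2 _ (by positivity) (by positivity)
              nlinarith
            nlinarith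
          have h8 : 14 * (L ^ 2 / e) * g = 14 * L ^ 2 * g / e := by ring
          rw [h8, le_div_iff₀ he]
          linarith
        have h9 : 16 * L ^ 2 / e = 16 * (L ^ 2 / e) := by ring
        rw [h9]
        have h10 : 0 ≤ L ^ 2 / e := by positivity
        linarith
      exact_mod_cast hS'
    · intro m n hmn hmod _
      have h1 : n - m < q * g := by
        have h2 := Nat.div_add_mod m (q * g)
        have h3 := Nat.div_add_mod n (q * g)
        have h4 := Nat.mod_lt n (show q * g > 0 by omega)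
        rw [hmod] at h2
        omega
      have h2 : (n : ℝ) - m ≤ q * g := by
        have h3 : n ≤ m + q * g := by omega
        have h4 : (n : ℝ) ≤ m + q * g := by exact_mod_cast h3
        linarith
      have h0 : 0 ≤ (n : ℝ) - m := by
        have : (m : ℝ) ≤ n := by exact_mod_cast hmn
        linarith
      have h3 : |β| * ((n : ℝ) - m) ≤ L / N * (q * x) := by
        apply mul_le_mul hβ _ h0 (by positivity)
        exact h2.trans (mul_le_mul_of_nonneg_left hfx hq0.le)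
      have h4 : L / N * (q * x) = e / 7 := by
        rw [hx]
        field_simp
      rw [h4] at h3
      have h5 : 2 * Real.pi * |β| * ((n : ℝ) - m) = 2 * Real.pi * (|β| * ((n : ℝ) - m)) := by ring
      rw [h5]
      have h6 : 2 * Real.pi * (|β| * ((n : ℝ) - m)) ≤ 2 * Real.pi * (e / 7) :=
        mul_le_mul_of_nonneg_left h3 (by positivity)
      nlinarith

/-- Equidistribution in partitions into few progressions implies equidistribution in single
progressions and on the major arcs. -/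
theorem even_of_equi {ε L : ℝ} {N L' : ℕ} (hε : 0 < ε) (hε1 : ε ≤ 1) (hL : 1 ≤ L) (hN : 1 ≤ N)
    (hL' : 16 * L ^ 2 / (ε / 4) + 16 / (ε / 4) ^ 2 + 4 ≤ L')
    (hlin : LinAt ((ε / 4) ^ 2 / 8) (8 / (ε / 4) ^ 2) N)
    {A : Finset ℕ} (hf : APFree A) (hAN : A ⊆ Icc 1 N) (hm : ε / 4 * r3 N ≤ A.card)
    (hE : Equi (ε / 4) L' N A) : Even ε L N A := by
  obtain ⟨e, he⟩ : ∃ e : ℝ, e = ε / 4 := ⟨_, rfl⟩
  rw [← he] at hL' hlin hm hE
  have he0 : 0 < e := by rw [he]; positivity
  have he1 : e ≤ 1 / 4 := by rw [he]; linarith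
  have hεe : ε = 4 * e := by rw [he]; ring
  have hA0 : (0 : ℝ) ≤ A.card := Nat.cast_nonneg _
  have heA : 0 ≤ e * (A.card : ℝ) := mul_nonneg he0.le hA0
  have hx1 : 0 ≤ 16 * L ^ 2 / e := by positivity
  have hx2 : 0 ≤ 16 / e ^ 2 := by positivity
  have hLL : L ≤ 16 * L ^ 2 / e := by
    rw [le_div_iff₀ he0]
    nlinarith
  refine ⟨fun Q hQ hQP => ?_, fun P hP hPN => ?_, fun b q β hq hqL hβ => ?_⟩
  · have h0 : (Q.parts.card : ℝ) ≤ L' := by linarith
    have h1 := equi_finpartition hE Q (by exact_mod_cast h0) hQP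
    rw [hεe]
    linarith
  · obtain ⟨p, hp, rfl⟩ := ev_code hP
    have he2 : e ^ 2 ≤ 1 := by nlinarith
    have he20 : 0 < e ^ 2 := by positivity
    have h8 : 1 / (8 / e ^ 2) = e ^ 2 / 8 := by field_simp
    have h1 := equi_single he0 (by linarith) hN (by linarith) hE (fun ℓ hℓ => by
      have h2 := r3_le_of_lin hlin (by positivity) (by
        rw [le_div_iff₀ he20]
        linarith) hN hℓ
      rw [h8] at h2
      exact h2) hf hm p hp hPN
    rw [card_prog p hp, hεe]
    linarith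
  · have h1 := ev_arc he0 (by linarith) hL hN (by linarith) hAN hE b β hq hqL hβ
    rw [hεe]
    linarith

end Pool.Agent.MP_0f71ae_nt.Sz
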