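import Pool.Agent.MP_0f71ae_nt.Sz.Def

/-!
# A set which is not equidistributed has a surplus on a union of pieces
-/

set_option autoImplicit false

namespace Pool.Agent.MP_0f71ae_nt.Sz

open Finset Pool.Agent.MP_0f71ae_nt.Reg

/-- if the sum is `0`, the sum of the absolute values is twice the sum of the positive terms -/
lemma sb0_abs {L : ℕ} (x : Fin L → ℝ) (h : ∑ i, x i = 0) :
    ∑ i, |x i| = 2 * ∑ i with 0 < x i, x i := by
  have h1 : ∀ i, |x i| = 2 * (if 0 < x i then x i else 0) - x i := by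
    intro i
    split_ifs with hi
    · rw [abs_of_pos hi]; ring
    · rw [abs_of_nonpos (not_lt.1 hi)]; ring
  calc ∑ i, |x i| = ∑ i, (2 * (if 0 < x i then x i else 0) - x i) :=
        Finset.sum_congr rfl fun i _ => h1 i
    _ = 2 * ∑ i with 0 < x i, x i := by
        rw [Finset.sum_sub_distrib, h, ← Finset.mul_sum, Finset.sum_filter, sub_zero]

/-- the pieces of a partition exhaust `A` -/
lemma sb0_sum_card {L N : ℕ} {P : Fin L → ℕ × ℕ × ℕ} (hP : IsPart N L P) {A : Finset ℕ}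
    (hA : A ⊆ Icc 1 N) : ∑ i, (A ∩ prog (P i)).card = A.card := by
  rw [← Finset.card_biUnion fun i _ j _ hij => ?_, ← Finset.inter_biUnion, hP.2.2,
    Finset.inter_eq_left.2 hA]
  exact (hP.2.1 i j hij).mono inter_subset_right inter_subset_right

lemma sb0_sum_prog {L N : ℕ} {P : Fin L → ℕ × ℕ × ℕ} (hP : IsPart N L P) :
    ∑ i, (prog (P i)).card = N := by
  have h := sb0_sum_card hP (subset_refl (Icc 1 N))
  rw [Nat.card_Icc, Nat.add_sub_cancel] at h
  rw [← h]
  refine Finset.sum_congr rfl fun i _ => ?_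
  congr 1
  refine (Finset.inter_eq_right.2 ?_).symm
  rw [← hP.2.2]
  exact Finset.subset_biUnion_of_mem (fun i => prog (P i)) (Finset.mem_univ i)

/-- the sum of all discrepancies -/
lemma sb0_zero {L N : ℕ} (hN : 1 ≤ N) {P : Fin L → ℕ × ℕ × ℕ} (hP : IsPart N L P) {A : Finset ℕ}
    (hA : A ⊆ Icc 1 N) :
    ∑ i, (((A ∩ prog (P i)).card : ℝ) - ((prog (P i)).card : ℝ) / N * A.card) = 0 := by
  have hN' : (N : ℝ) ≠ 0 := by
    have : 0 < N := hN
    positivity
  rw [Finset.sum_sub_distrib, ← Finset.sum_mul, ← Finset.sum_div, ← Nat.cast_sum, ← Nat.cast_sum,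
    sb0_sum_card hP hA, sb0_sum_prog hP, div_self hN', one_mul, sub_self]

/-- the discrepancies from an upper bound of the surplus -/
lemma sb0_le {L N : ℕ} (hN : 1 ≤ N) {P : Fin L → ℕ × ℕ × ℕ} (hP : IsPart N L P) {A : Finset ℕ}
    (hA : A ⊆ Icc 1 N) {K : ℝ}
    (h : ∀ S : Finset (Fin L), ((∑ i ∈ S, (A ∩ prog (P i)).card : ℕ) : ℝ) -
      ((∑ i ∈ S, (prog (P i)).card : ℕ) : ℝ) / N * A.card ≤ K) :
    ∑ i, |((A ∩ prog (P i)).card : ℝ) - ((prog (P i)).card : ℝ) / N * A.card| ≤ 2 * K := by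
  rw [sb0_abs _ (sb0_zero hN hP hA)]
  have h1 := h (Finset.univ.filter fun i =>
    0 < ((A ∩ prog (P i)).card : ℝ) - ((prog (P i)).card : ℝ) / N * A.card)
  rw [Finset.sum_sub_distrib, ← Finset.sum_mul, ← Finset.sum_div, ← Nat.cast_sum, ← Nat.cast_sum]
  linarith

/-- a set which is not equidistributed has a surplus on a union of pieces -/
theorem exists_surplus {ε : ℝ} {L N : ℕ} (hN : 1 ≤ N) (A : Finset ℕ) (hA : A ⊆ Icc 1 N)
    (h : ¬ Equi ε L N A) : ∃ P : Fin L → ℕ × ℕ × ℕ, IsPart N L P ∧ ∃ S : Finset (Fin L),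
      (((∑ i ∈ S, (prog (P i)).card : ℕ) : ℝ) / N + ε / 2) * A.card ≤
        ((∑ i ∈ S, (A ∩ prog (P i)).card : ℕ) : ℝ) := by
  unfold Equi at h
  push Not at h
  obtain ⟨P, hP, hε⟩ := h
  refine ⟨P, hP, ?_⟩
  by_contra hcon
  push Not at hcon
  have h1 := sb0_le hN hP hA (K := ε / 2 * A.card) fun S => by
    have h2 := hcon S
    rw [add_mul] at h2
    linarith
  linarith

end Pool.Agent.MP_0f71ae_nt.Sz
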