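import Pool.Agent.MP_0f71ae_nt.Sz.FI
import Pool.Agent.MP_0f71ae_nt.Sz.SB0

/-!
# Nearly extremal sets are equidistributed, without exception
-/

set_option autoImplicit false

namespace Pool.Agent.MP_0f71ae_nt.Sz

open Finset Pool.Agent.MP_0f71ae_nt.Reg

/-- the surplus of a union of pieces -/
lemma sb2_surplus {η ρ W : ℝ} (hη1 : η ≤ 1) (hρ : 0 ≤ ρ) {L N : ℕ}
    (hB : BlockBd η ρ W N) {A : Finset ℕ} (hf : APFree A) {P : Fin L → ℕ × ℕ × ℕ}
    (hP : IsPart N L P) (S : Finset (Fin L)) :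
    ((∑ i ∈ S, (A ∩ prog (P i)).card : ℕ) : ℝ) ≤
      (1 + η) * (((∑ i ∈ S, (prog (P i)).card : ℕ) : ℝ) / N) * r3 N + 2 * (L * ρ * r3 N) := by
  have hr : (0 : ℝ) ≤ r3 N := Nat.cast_nonneg _
  have h1 : ∀ i, ((A ∩ prog (P i)).card : ℝ) ≤
      (1 + η) * (((prog (P i)).card : ℝ) / N + ρ) * r3 N := by
    intro i
    have hc := card_prog (P i) (hP.1 i)
    have hle : (P i).2.2 ≤ N := by
      rw [← hc, ← sb0_sum_prog hP]
      exact Finset.single_le_sum (f := fun i => (prog (P i)).card) (fun _ _ => Nat.zero_le _)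
        (Finset.mem_univ i)
    have h2 : ((A ∩ prog (P i)).card : ℝ) ≤ r3 (P i).2.2 := by
      exact_mod_cast card_inter_prog_le hf (P i) (hP.1 i)
    refine h2.trans ?_
    rw [hc]
    exact hB.1 _ hle
  have h3 : (S.card : ℝ) ≤ L := by
    have h4 := S.card_le_univ
    rw [Fintype.card_fin] at h4
    exact_mod_cast h4
  push_cast
  calc ∑ i ∈ S, ((A ∩ prog (P i)).card : ℝ)
      ≤ ∑ i ∈ S, (1 + η) * (((prog (P i)).card : ℝ) / N + ρ) * r3 N :=
        Finset.sum_le_sum fun i _ => h1 i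
    _ = (1 + η) * ((∑ i ∈ S, ((prog (P i)).card : ℝ)) / N) * r3 N +
          (1 + η) * (S.card * ρ * r3 N) := by
        rw [← Finset.sum_mul, ← Finset.mul_sum, Finset.sum_add_distrib, ← Finset.sum_div,
          Finset.sum_const, nsmul_eq_mul]
        ring
    _ ≤ (1 + η) * ((∑ i ∈ S, ((prog (P i)).card : ℝ)) / N) * r3 N + 2 * (L * ρ * r3 N) := by
        have h5 : (S.card : ℝ) * ρ * r3 N ≤ L * ρ * r3 N := by gcongr
        have h6 : (0 : ℝ) ≤ S.card * ρ * r3 N := by positivity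
        have h7 : (1 + η) * (S.card * ρ * r3 N) ≤ 2 * (S.card * ρ * r3 N) :=
          mul_le_mul_of_nonneg_right (by linarith) h6
        linarith

/-- nearly extremal sets are equidistributed, without exception -/
theorem equi_of_large {η ρ W δ ε : ℝ} (hη : 0 ≤ η) (hη1 : η ≤ 1) (hρ : 0 ≤ ρ) (hδ : 0 ≤ δ)
    (hε1 : ε ≤ 1) {L N : ℕ} (hN : 1 ≤ N) (hB : BlockBd η ρ W N)
    (hsm : η + δ + 2 * L * ρ ≤ ε / 4) (A : Finset ℕ) (hA : A ⊆ Icc 1 N) (hf : APFree A)
    (hc : (1 - δ) * r3 N ≤ A.card) : Equi ε L N A := by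
  intro P hP
  have hr : (0 : ℝ) ≤ r3 N := Nat.cast_nonneg _
  have hLρ : (0 : ℝ) ≤ 2 * L * ρ := by positivity
  have hN' : (0 : ℝ) < N := by
    have : 0 < N := hN
    positivity
  have h1 := sb0_le hN hP hA (K := ε / 4 * r3 N) fun S => by
    have h2 := sb2_surplus hη1 hρ hB hf hP S
    set y : ℝ := ((∑ i ∈ S, (prog (P i)).card : ℕ) : ℝ) / N with hy
    have hy0 : 0 ≤ y := by positivity
    have hy1 : y ≤ 1 := by
      rw [hy, div_le_one hN']
      have h3 : ∑ i ∈ S, (prog (P i)).card ≤ N := by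
        calc ∑ i ∈ S, (prog (P i)).card ≤ ∑ i, (prog (P i)).card :=
              Finset.sum_le_sum_of_subset (Finset.subset_univ S)
          _ = N := sb0_sum_prog hP
      exact_mod_cast h3
    have h4 : y * ((1 - δ) * r3 N) ≤ y * A.card := mul_le_mul_of_nonneg_left hc hy0
    have h5 : y * ((η + δ) * r3 N) ≤ 1 * ((η + δ) * r3 N) :=
      mul_le_mul_of_nonneg_right hy1 (by positivity)
    have h6 : (η + δ + 2 * L * ρ) * r3 N ≤ ε / 4 * r3 N := mul_le_mul_of_nonneg_right hsm hr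
    linarith [h2, h4, h5, h6]
  refine h1.trans ?_
  have h7 : δ ≤ 1 / 4 := by linarith
  have h8 : (r3 N : ℝ) / 2 ≤ A.card := by
    refine le_trans ?_ hc
    have h9 : δ * r3 N ≤ 1 / 4 * r3 N := mul_le_mul_of_nonneg_right h7 hr
    linarith
  have hε0 : 0 ≤ ε := by linarith
  have h10 := mul_le_mul_of_nonneg_left h8 hε0
  linarith

end Pool.Agent.MP_0f71ae_nt.Sz
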