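import Pool.Agent.MP_0f71ae_nt.Sz.SB1
import Pool.Agent.MP_0f71ae_nt.Sz.SB2
import Pool.Agent.MP_0f71ae_nt.Sz.NP
import Pool.Agent.MP_0f71ae_nt.Sz.CH

/-!
# Typical sets without three-term progressions, of every size
-/


set_option autoImplicit false

namespace Pool.Agent.MP_0f71ae_nt.Sz

open Finset Pool.Agent.MP_0f71ae_nt.Reg

/-- The number of elements of a union of pieces. -/
theorem sum_card_prog_le {N L : ℕ} {P : Fin L → ℕ × ℕ × ℕ} (hP : IsPart N L P)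
    (S : Finset (Fin L)) : ∑ i ∈ S, (prog (P i)).card ≤ N := by
  classical
  have h1 : ∑ i ∈ S, (prog (P i)).card ≤ ∑ i, (prog (P i)).card :=
    sum_le_sum_of_subset (subset_univ _)
  have h2 : (Finset.univ.biUnion (fun i => prog (P i))).card = ∑ i, (prog (P i)).card := by
    apply card_biUnion
    intro i _ j _ hij
    exact hP.2.1 i j hij
  rw [hP.2.2, Nat.card_Icc, Nat.add_sub_cancel] at h2
  omega

theorem sc_exponent {ε η V D lam θ y lw : ℝ} (hη : 0 < η) (hη1 : η ≤ 1) (hV0 : 0 ≤ V)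
    (hDV : D ≤ V) (hD2 : D ≤ y * (lam * θ + θ ^ 2 / 8) + lw)
    (hηW : 4 * η * (V + 1) ≤ ε ^ 4 / 16) :
    (1 + η) * (D + η + η * (V + η)) ≤ y * (lam * θ + θ ^ 2 / 8) + ε ^ 4 / 16 + lw := by
  have h1 : η * D ≤ η * V := mul_le_mul_of_nonneg_left hDV hη.le
  have h2 : η * η ≤ η * 1 := mul_le_mul_of_nonneg_left hη1 hη.le
  have h3 : η * (η * V) ≤ 1 * (η * V) := mul_le_mul_of_nonneg_right hη1 (by positivity)
  have h4 : η * (η * η) ≤ 1 * (η * η) := mul_le_mul_of_nonneg_right hη1 (by positivity)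
  have e2 : (1 + η) * (D + η + η * (V + η)) =
      D + η * D + η + η * V + 2 * (η * η) + η * (η * V) + η * (η * η) := by ring
  have e3 : 4 * η * (V + 1) = 4 * (η * V) + 4 * η := by ring
  rw [e3] at hηW
  have h5 : 0 ≤ η * V := by positivity
  rw [e2]
  linarith

theorem sc_final {ε lam y : ℝ} (hε : 0 < ε) (hlamε : ε ≤ lam) (hy1 : y ≤ 1) :
    y * ((2 * ε * lam) ^ 2 / 8) - (2 * ε * lam) * ε * lam / 2 + ε ^ 4 / 16 ≤
      -(7 / 16 * ε ^ 4) := by
  have e3 : y * ((2 * ε * lam) ^ 2 / 8) - (2 * ε * lam) * ε * lam / 2 =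
      (y / 2 - 1) * (ε ^ 2 * lam ^ 2) := by ring
  have h6 : ε ^ 2 * ε ^ 2 ≤ ε ^ 2 * lam ^ 2 := by
    apply mul_le_mul_of_nonneg_left _ (by positivity)
    exact pow_le_pow_left₀ hε.le hlamε 2
  have h7 : (y / 2 - 1) * (ε ^ 2 * lam ^ 2) ≤ (-1 / 2) * (ε ^ 2 * lam ^ 2) := by
    apply mul_le_mul_of_nonneg_right _ (by positivity)
    linarith
  have e4 : ε ^ 2 * ε ^ 2 = ε ^ 4 := by ring
  rw [e3]
  linarith

theorem sc_main {cnt E θ t bin w : ℝ} {n m : ℕ} (hw : 0 < w)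
    (h1 : cnt * (w ^ m * Real.exp (θ * t)) ≤ Real.exp ((E + Real.log (1 + w)) * (n : ℝ)))
    (h2 : (1 + w) ^ n ≤ ((n : ℝ) + 1) * bin * w ^ m) :
    cnt ≤ Real.exp (E * n - θ * t) * (((n : ℝ) + 1) * bin) := by
  have hpow : Real.exp (Real.log (1 + w) * n) = (1 + w) ^ n := by
    rw [mul_comm, Real.exp_nat_mul, Real.exp_log (by linarith)]
  have e1 : Real.exp ((E + Real.log (1 + w)) * (n : ℝ)) = Real.exp (E * n) * (1 + w) ^ n := by
    rw [← hpow, ← Real.exp_add]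
    congr 1
    ring
  rw [e1] at h1
  have hwm : 0 < w ^ m := by positivity
  have h3 : cnt * Real.exp (θ * t) ≤ Real.exp (E * n) * (((n : ℝ) + 1) * bin) := by
    have h4 : w ^ m * (cnt * Real.exp (θ * t)) ≤
        w ^ m * (Real.exp (E * n) * (((n : ℝ) + 1) * bin)) := by
      calc w ^ m * (cnt * Real.exp (θ * t)) = cnt * (w ^ m * Real.exp (θ * t)) := by ring
        _ ≤ Real.exp (E * n) * (1 + w) ^ n := h1
        _ ≤ Real.exp (E * n) * (((n : ℝ) + 1) * bin * w ^ m) :=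
            mul_le_mul_of_nonneg_left h2 (Real.exp_pos _).le
        _ = _ := by ring
    exact le_of_mul_le_mul_left h4 hwm
  rw [Real.exp_sub, div_mul_eq_mul_div, le_div_iff₀ (Real.exp_pos _)]
  exact h3

open Classical in
/-- One partition and one union of pieces: the surplus sets of size `m`. -/
theorem surplus_count {ε η W : ℝ} (hε : 0 < ε) (hε1 : ε ≤ 1) (hη : 0 < η) (hη1 : η ≤ 1)
    {L N : ℕ} (hL : 1 ≤ L) (hN : 1 ≤ N) (hW : 0 ≤ W) (hB : BlockBd η (η / L) W N)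
    (hηW : 4 * η * (Real.log (1 + W) + 1) ≤ ε ^ 4 / 16)
    (P : Fin L → ℕ × ℕ × ℕ) (hP : IsPart N L P) (S : Finset (Fin L)) (m : ℕ) (hm0 : 0 < m)
    (hmr : m < r3 N) (hmε : ε * r3 N ≤ m)
    (hwW : (m : ℝ) / ((r3 N : ℝ) - m) * Real.exp 2 ≤ W) :
    ((((Icc 1 N).powerset.filter (fun A => APFree A ∧ A.card = m ∧
      (((∑ i ∈ S, (prog (P i)).card : ℕ) : ℝ) / N + ε / 2) * m ≤
        ((∑ i ∈ S, (A ∩ prog (P i)).card : ℕ) : ℝ))).card : ℕ) : ℝ) ≤
      Real.exp (-(7 / 16 * ε ^ 4) * r3 N) * (((r3 N : ℝ) + 1) * (r3 N).choose m) := by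
  have hN0 : (0 : ℝ) < N := by exact_mod_cast hN
  have hL0 : (0 : ℝ) < L := by exact_mod_cast hL
  obtain ⟨y, hy⟩ : ∃ y : ℝ, y = ((∑ i ∈ S, (prog (P i)).card : ℕ) : ℝ) / N := ⟨_, rfl⟩
  have hy0 : 0 ≤ y := by rw [hy]; positivity
  have hy1 : y ≤ 1 := by
    rw [hy, div_le_one hN0]
    exact_mod_cast sum_card_prog_le hP S
  obtain ⟨w, hw⟩ : ∃ w : ℝ, w = (m : ℝ) / ((r3 N : ℝ) - m) := ⟨_, rfl⟩
  obtain ⟨lam, hlam⟩ : ∃ lam : ℝ, lam = (m : ℝ) / (r3 N : ℝ) := ⟨_, rfl⟩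
  have hmr' : (m : ℝ) < (r3 N : ℝ) := by exact_mod_cast hmr
  have hm0' : (0 : ℝ) < m := by exact_mod_cast hm0
  have hr0 : (0 : ℝ) < (r3 N : ℝ) := by linarith
  have hrm : 0 < (r3 N : ℝ) - m := by linarith
  have hw0 : 0 < w := by rw [hw]; positivity
  have hlam0 : 0 < lam := by rw [hlam]; positivity
  have hlam1 : lam ≤ 1 := by rw [hlam, div_le_one hr0]; exact hmr'.le
  have hlamε : ε ≤ lam := by rw [hlam, le_div_iff₀ hr0]; exact hmε
  have h1w : 1 + w = (r3 N : ℝ) / ((r3 N : ℝ) - m) := by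
    rw [hw, eq_div_iff hrm.ne', add_mul, div_mul_cancel₀ _ hrm.ne']
    ring
  have hwl : w / (1 + w) = lam := by
    rw [h1w, hw, hlam, div_div_div_cancel_right₀ hrm.ne']
  have hθ2 : 2 * ε * lam ≤ 2 := by
    have h1 : ε * lam ≤ 1 * 1 := mul_le_mul hε1 hlam1 hlam0.le zero_le_one
    linarith
  have hθ0 : 0 ≤ 2 * ε * lam := by positivity
  have hwθ : w * Real.exp (2 * ε * lam) ≤ W := by
    refine le_trans ?_ hwW
    rw [← hw]
    exact mul_le_mul_of_nonneg_left (Real.exp_le_exp.2 hθ2) hw0.le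
  have hch := chernoff hη.le (show (0 : ℝ) ≤ η / L by positivity) hN hB P hP S w (2 * ε * lam)
    hw0 hθ0 hwθ m ((y + ε / 2) * m)
  rw [← hy] at hch ⊢
  have hpc := pow_le_choose (r3 N) m hm0 hmr
  rw [← hw] at hpc
  have hexp1 : 1 ≤ Real.exp (2 * ε * lam) := Real.one_le_exp hθ0
  have hwle : w ≤ w * Real.exp (2 * ε * lam) := le_mul_of_one_le_right hw0.le hexp1
  have hlw1 : Real.log (1 + w) ≤ Real.log (1 + w * Real.exp (2 * ε * lam)) :=
    Real.log_le_log (by linarith) (by linarith)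
  have hlw2 : Real.log (1 + w * Real.exp (2 * ε * lam)) ≤ Real.log (1 + W) :=
    Real.log_le_log (by linarith) (by linarith)
  have hhf := hoeff w (2 * ε * lam) hw0
  rw [hwl] at hhf
  have hDV : y * (Real.log (1 + w * Real.exp (2 * ε * lam)) - Real.log (1 + w)) +
      Real.log (1 + w) ≤ Real.log (1 + W) := by
    have h1 : y * (Real.log (1 + w * Real.exp (2 * ε * lam)) - Real.log (1 + w)) ≤
        1 * (Real.log (1 + w * Real.exp (2 * ε * lam)) - Real.log (1 + w)) :=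
      mul_le_mul_of_nonneg_right hy1 (by linarith)
    linarith
  have hD2 : y * (Real.log (1 + w * Real.exp (2 * ε * lam)) - Real.log (1 + w)) +
      Real.log (1 + w) ≤ y * (lam * (2 * ε * lam) + (2 * ε * lam) ^ 2 / 8) +
        Real.log (1 + w) := by
    have h1 : y * (Real.log (1 + w * Real.exp (2 * ε * lam)) - Real.log (1 + w)) ≤
        y * (lam * (2 * ε * lam) + (2 * ε * lam) ^ 2 / 8) :=
      mul_le_mul_of_nonneg_left (by linarith) hy0
    linarith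
  have hE := sc_exponent hη hη1 (Real.log_nonneg (by linarith)) hDV hD2 hηW
  have e1 : (L : ℝ) * (η / L) = η := mul_div_cancel₀ η hL0.ne'
  rw [e1] at hch
  have hch2 := hch.trans (Real.exp_le_exp.2 (mul_le_mul_of_nonneg_right hE hr0.le))
  have h5 := sc_main hw0 hch2 hpc
  refine h5.trans ?_
  apply mul_le_mul_of_nonneg_right _ (by positivity)
  apply Real.exp_le_exp.2
  have hmlam : (m : ℝ) = lam * r3 N := by rw [hlam, div_mul_cancel₀ _ hr0.ne']
  have e2 : (y * (lam * (2 * ε * lam) + (2 * ε * lam) ^ 2 / 8) + ε ^ 4 / 16) * (r3 N : ℝ) -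
      2 * ε * lam * ((y + ε / 2) * (m : ℝ)) =
      (y * ((2 * ε * lam) ^ 2 / 8) - (2 * ε * lam) * ε * lam / 2 + ε ^ 4 / 16) * (r3 N : ℝ) := by
    rw [hmlam]; ring
  rw [e2]
  exact mul_le_mul_of_nonneg_right (sc_final hε hlamε hy1) hr0.le

open Classical in
theorem typical (ε : ℝ) (hε : 0 < ε) (hε1 : ε ≤ 1) :
    ∃ η : ℝ, 0 < η ∧ η ≤ 1 ∧ ∃ W : ℝ, 1 ≤ W ∧ ∃ C1 : ℝ, 0 ≤ C1 ∧ ∃ c0 : ℝ, 0 < c0 ∧ c0 ≤ 1 ∧
      ∃ c : ℝ, 0 < c ∧ ∀ L N : ℕ, 1 ≤ L → 1 ≤ N →
      BlockBd η (c0 / L) W N → C1 * L * Real.log (N + 1) ≤ r3 N → ∀ m : ℕ, ε * r3 N ≤ m →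
        ((((Icc 1 N).powerset.filter
          (fun A => APFree A ∧ A.card = m ∧ ¬ Equi ε L N A)).card : ℕ) : ℝ) ≤
          (2 : ℝ) ^ (-c * r3 N) * (r3 N).choose m := by
  set δ : ℝ := ε / 16 with hδ
  have hδ0 : 0 < δ := by positivity
  set W0 : ℝ := 1 / δ with hW0
  have hW01 : 1 ≤ W0 := by
    rw [hW0, le_div_iff₀ hδ0, hδ]
    linarith
  set W : ℝ := W0 * Real.exp 2 with hW
  have hexp2 : 1 ≤ Real.exp 2 := Real.one_le_exp (by norm_num)
  have hW1 : 1 ≤ W := by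
    rw [hW]
    exact one_le_mul_of_one_le_of_one_le hW01 hexp2
  set V : ℝ := Real.log (1 + W) with hV
  have hV0 : 0 ≤ V := Real.log_nonneg (by linarith)
  set η : ℝ := ε ^ 4 / (64 * (V + 1)) with hη
  have hε4 : 0 < ε ^ 4 := by positivity
  have hη0 : 0 < η := by positivity
  have hε41 : ε ^ 4 ≤ ε := by
    have : ε ^ 3 ≤ 1 := pow_le_one₀ hε.le hε1
    calc ε ^ 4 = ε ^ 3 * ε := by ring
      _ ≤ 1 * ε := mul_le_mul_of_nonneg_right this hε.le
      _ = ε := one_mul _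
  have hη64 : η ≤ ε / 64 := by
    rw [hη, div_le_div_iff₀ (by positivity) (by norm_num)]
    have h1 := mul_nonneg hε.le hV0
    have e1 : ε * (64 * (V + 1)) = 64 * (ε * V) + 64 * ε := by ring
    rw [e1]
    linarith
  have hη1 : η ≤ 1 := by linarith
  have hηV : 4 * η * (V + 1) = ε ^ 4 / 16 := by
    have hV1 : V + 1 ≠ 0 := by positivity
    have e1 : ε ^ 4 / (64 * (V + 1)) * (V + 1) = ε ^ 4 / 64 := by
      rw [div_mul_eq_mul_div, mul_div_mul_right _ _ hV1]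
    rw [hη, mul_assoc, e1]
    ring
  refine ⟨η, hη0, hη1, W, hW1, 32 / ε ^ 4, by positivity, η, hη0, hη1, ε ^ 4 / 4, by positivity, ?_⟩
  intro L N hL hN hB hG m hm
  have hN0 : (0 : ℝ) < N := by exact_mod_cast hN
  have hL0 : (1 : ℝ) ≤ L := by exact_mod_cast hL
  set r : ℝ := (r3 N : ℝ) with hr
  have hr1 : 1 ≤ r := by rw [hr]; exact_mod_cast r3_pos hN
  have hr0 : 0 < r := by linarith
  by_cases hbig : (1 - δ) * r ≤ m
  · have hemp : (Icc 1 N).powerset.filter (fun A => APFree A ∧ A.card = m ∧ ¬ Equi ε L N A) = ∅ := by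
      rw [filter_eq_empty_iff]
      rintro A hA ⟨hf, hc, hne⟩
      apply hne
      apply equi_of_large hη0.le hη1 (show (0 : ℝ) ≤ η / L by positivity) hδ0.le hε1 hN hB _ A
        (mem_powerset.1 hA) hf
      · rw [hc]; exact hbig
      · have e1 : 2 * (L : ℝ) * (η / L) = 2 * η := by field_simp
        rw [e1, hδ]
        linarith
    rw [hemp]
    simp only [card_empty, Nat.cast_zero]
    positivity
  push Not at hbig
  have hδr : (1 - δ) * r = r - δ * r := by ring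
  have hδr0 : 0 < δ * r := by positivity
  have hmr' : (m : ℝ) < r := by linarith
  have hmr : m < r3 N := by rw [hr] at hmr'; exact_mod_cast hmr'
  have hm0' : (0 : ℝ) < m := by
    have : 0 < ε * r := by positivity
    linarith
  have hm0 : 0 < m := by exact_mod_cast hm0'
  have hwW : (m : ℝ) / (r - m) * Real.exp 2 ≤ W := by
    rw [hW]
    apply mul_le_mul_of_nonneg_right _ (Real.exp_pos _).le
    rw [hW0, div_le_div_iff₀ (by linarith) hδ0]
    have h1 : (m : ℝ) * (1 + δ) ≤ (1 - δ) * r * (1 + δ) :=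
      mul_le_mul_of_nonneg_right hbig.le (by linarith)
    have e1 : (1 - δ) * r * (1 + δ) = r - δ * (δ * r) := by ring
    have e2 : (m : ℝ) * (1 + δ) = m + m * δ := by ring
    have h2 : 0 ≤ δ * (δ * r) := by positivity
    linarith
  obtain ⟨Q, hQc, hQ, hQall⟩ := exists_family N L hN
  set X : ℝ := Real.exp (-(7 / 16 * ε ^ 4) * r) * ((r + 1) * (r3 N).choose m) with hX
  have hX0 : 0 ≤ X := by positivity
  -- union bound
  have hsub : (Icc 1 N).powerset.filter (fun A => APFree A ∧ A.card = m ∧ ¬ Equi ε L N A) ⊆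
      (Q ×ˢ (Finset.univ : Finset (Finset (Fin L)))).biUnion (fun PS =>
        (Icc 1 N).powerset.filter (fun A => APFree A ∧ A.card = m ∧
          (((∑ i ∈ PS.2, (prog (PS.1 i)).card : ℕ) : ℝ) / N + ε / 2) * m ≤
            ((∑ i ∈ PS.2, (A ∩ prog (PS.1 i)).card : ℕ) : ℝ))) := by
    intro A hA
    rw [mem_filter, mem_powerset] at hA
    obtain ⟨hAN, hf, hc, hne⟩ := hA
    obtain ⟨P, hP, S, hS⟩ := exists_surplus hN A hAN hne
    obtain ⟨P', hP', hPP⟩ := hQall P hP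
    rw [mem_biUnion]
    refine ⟨(P', S), mem_product.2 ⟨hP', mem_univ _⟩, ?_⟩
    rw [mem_filter, mem_powerset]
    refine ⟨hAN, hf, hc, ?_⟩
    rw [hc] at hS
    simp only [← hPP]
    exact hS
  have hcard : ((((Icc 1 N).powerset.filter
      (fun A => APFree A ∧ A.card = m ∧ ¬ Equi ε L N A)).card : ℕ) : ℝ) ≤
      ((N : ℝ) + 1) ^ (3 * L) * 2 ^ L * X := by
    have h1 := (card_le_card hsub).trans card_biUnion_le
    have h2 : ((((Icc 1 N).powerset.filter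
      (fun A => APFree A ∧ A.card = m ∧ ¬ Equi ε L N A)).card : ℕ) : ℝ) ≤
      ∑ PS ∈ Q ×ˢ (Finset.univ : Finset (Finset (Fin L))),
        ((((Icc 1 N).powerset.filter (fun A => APFree A ∧ A.card = m ∧
          (((∑ i ∈ PS.2, (prog (PS.1 i)).card : ℕ) : ℝ) / N + ε / 2) * m ≤
            ((∑ i ∈ PS.2, (A ∩ prog (PS.1 i)).card : ℕ) : ℝ))).card : ℕ) : ℝ) := by
      exact_mod_cast h1
    have h3 : ∑ PS ∈ Q ×ˢ (Finset.univ : Finset (Finset (Fin L))),
        ((((Icc 1 N).powerset.filter (fun A => APFree A ∧ A.card = m ∧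
          (((∑ i ∈ PS.2, (prog (PS.1 i)).card : ℕ) : ℝ) / N + ε / 2) * m ≤
            ((∑ i ∈ PS.2, (A ∩ prog (PS.1 i)).card : ℕ) : ℝ))).card : ℕ) : ℝ) ≤
        ∑ PS ∈ Q ×ˢ (Finset.univ : Finset (Finset (Fin L))), X := by
      apply sum_le_sum
      intro PS hPS
      have hPQ := hQ PS.1 (mem_product.1 hPS).1
      exact surplus_count hε hε1 hη0 hη1 hL hN (by linarith) hB hηV.le PS.1 hPQ PS.2 m hm0 hmr hm hwW
    refine h2.trans (h3.trans ?_)
    rw [sum_const, nsmul_eq_mul, card_product, card_univ, Fintype.card_finset, Fintype.card_fin]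
    push_cast
    apply mul_le_mul_of_nonneg_right _ hX0
    exact mul_le_mul_of_nonneg_right hQc (by positivity)
  refine hcard.trans ?_
  -- the number of partitions is small
  set ℓ : ℝ := Real.log ((N : ℝ) + 1) with hℓ
  have hℓ0 : 0 ≤ ℓ := Real.log_nonneg (by linarith)
  have hLℓ : L * ℓ ≤ ε ^ 4 / 32 * r := by
    have h1 : 32 / ε ^ 4 * L * ℓ ≤ r := hG
    have h2 : ε ^ 4 / 32 * (32 / ε ^ 4 * L * ℓ) ≤ ε ^ 4 / 32 * r :=
      mul_le_mul_of_nonneg_left h1 (by positivity)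
    have e : ε ^ 4 / 32 * (32 / ε ^ 4 * L * ℓ) = L * ℓ := by field_simp
    linarith
  have hℓL : ℓ ≤ L * ℓ := le_mul_of_one_le_left hℓ0 hL0
  have hb1 : ((N : ℝ) + 1) ^ (3 * L) = Real.exp (3 * L * ℓ) := by
    have : (3 * L * ℓ : ℝ) = ((3 * L : ℕ) : ℝ) * ℓ := by push_cast; ring
    rw [this, Real.exp_nat_mul, hℓ, Real.exp_log (by linarith)]
  have hb2 : (2 : ℝ) ^ L ≤ Real.exp (L * ℓ) := by
    rw [Real.exp_nat_mul, hℓ, Real.exp_log (by linarith)]
    apply pow_le_pow_left₀ (by norm_num)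
    have : (1 : ℝ) ≤ N := by exact_mod_cast hN
    linarith
  have hb3 : r + 1 ≤ Real.exp ℓ := by
    rw [hℓ, Real.exp_log (by linarith)]
    have : r ≤ N := by rw [hr]; exact_mod_cast r3_le N
    linarith
  have hb4 : Real.exp (-(ε ^ 4 / 4) * r) ≤ (2 : ℝ) ^ (-(ε ^ 4 / 4) * r) := by
    rw [Real.rpow_def_of_pos (by norm_num)]
    apply Real.exp_le_exp.2
    have h1 := Real.log_two_lt_d9
    have h2 := Real.log_two_gt_d9
    have h3 : 0 ≤ ε ^ 4 / 4 * r := by positivity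
    have h4 := mul_le_mul_of_nonneg_right (show Real.log 2 ≤ 1 by linarith) h3
    have e1 : Real.log 2 * (-(ε ^ 4 / 4) * r) = -(Real.log 2 * (ε ^ 4 / 4 * r)) := by ring
    rw [e1]
    linarith
  have hch0 : (0 : ℝ) ≤ (r3 N).choose m := Nat.cast_nonneg _
  calc ((N : ℝ) + 1) ^ (3 * L) * 2 ^ L * X
      ≤ Real.exp (3 * L * ℓ) * Real.exp (L * ℓ) *
        (Real.exp (-(7 / 16 * ε ^ 4) * r) * (Real.exp ℓ * (r3 N).choose m)) := by
        rw [hb1, hX]
        apply mul_le_mul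
        · exact mul_le_mul_of_nonneg_left hb2 (Real.exp_pos _).le
        · apply mul_le_mul_of_nonneg_left _ (Real.exp_pos _).le
          exact mul_le_mul_of_nonneg_right hb3 hch0
        · positivity
        · positivity
    _ = Real.exp (3 * L * ℓ + L * ℓ + -(7 / 16 * ε ^ 4) * r + ℓ) * (r3 N).choose m := by
        rw [Real.exp_add, Real.exp_add, Real.exp_add]
        ring
    _ ≤ Real.exp (-(ε ^ 4 / 4) * r) * (r3 N).choose m := by
        apply mul_le_mul_of_nonneg_right _ hch0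
        apply Real.exp_le_exp.2
        have e1 : 3 * (L : ℝ) * ℓ = 3 * (L * ℓ) := by ring
        rw [e1]
        have h0 : 0 ≤ ε ^ 4 * r := by positivity
        have e2 : ε ^ 4 / 32 * r = 1 / 32 * (ε ^ 4 * r) := by ring
        have e3 : -(7 / 16 * ε ^ 4) * r = -(7 / 16) * (ε ^ 4 * r) := by ring
        have e4 : -(ε ^ 4 / 4) * r = -(1 / 4) * (ε ^ 4 * r) := by ring
        rw [e2] at hLℓ
        rw [e3, e4]
        linarith
    _ ≤ (2 : ℝ) ^ (-(ε ^ 4 / 4) * r) * (r3 N).choose m :=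
        mul_le_mul_of_nonneg_right hb4 hch0

end Pool.Agent.MP_0f71ae_nt.Sz
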