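import Pool.Agent.MP_0f71ae_nt.Sz.SA
import Pool.Agent.MP_0f71ae_nt.Sz.SB
import Pool.Agent.MP_0f71ae_nt.Sz.SC
import Pool.Agent.MP_0f71ae_nt.Sz.SW
import Pool.Agent.MP_0f71ae_nt.Cnt.Rounds

/-!
# The size law and the typical structure at almost all scales: assembly
-/

set_option autoImplicit false

namespace Pool.Agent.MP_0f71ae_nt.Sz

open Finset Pool.Agent.MP_0f71ae_nt.Reg Pool.Agent.MP_0f71ae_nt.Cnt

theorem BlockBd.mono {η η' ρ ρ' W W' : ℝ} {N : ℕ} (hη : 0 ≤ η) (h1 : η ≤ η') (hρ : 0 ≤ ρ)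
    (h2 : ρ ≤ ρ') (h3 : W' ≤ W) (h : BlockBd η ρ W N) : BlockBd η' ρ' W' N := by
  have hr : (0 : ℝ) ≤ r3 N := Nat.cast_nonneg _
  refine ⟨?_, ?_⟩
  · intro l hl
    refine (h.1 l hl).trans ?_
    apply mul_le_mul_of_nonneg_right _ hr
    have h0 : (0 : ℝ) ≤ (l : ℝ) / N := by positivity
    exact mul_le_mul (by linarith) (by linarith) (by linarith) (by linarith)
  · intro l hl w hw hw'
    refine (h.2 l hl w hw (hw'.trans h3)).trans ?_
    apply Real.exp_le_exp.2
    apply mul_le_mul_of_nonneg_right _ hr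
    have h0 : (0 : ℝ) ≤ (l : ℝ) / N := by positivity
    have hl0 : 0 ≤ Real.log (1 + w) := Real.log_nonneg (by linarith)
    apply mul_le_mul _ (by linarith) (by linarith) (by
      apply mul_nonneg (by linarith) (by linarith))
    exact mul_le_mul (by linarith) (by linarith) (by linarith) (by linarith)

theorem Equi.mono {ε ε' : ℝ} {L N : ℕ} {A : Finset ℕ} (h : ε ≤ ε') (hE : Equi ε L N A) :
    Equi ε' L N A := by
  intro P hP
  refine (hE P hP).trans ?_
  exact mul_le_mul_of_nonneg_right h (Nat.cast_nonneg _)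

theorem fa_badScales_mono {P Q : ℕ → Prop} (h : ∀ N, 1 ≤ N → P N → Q N) (a K : ℕ) :
    ((badScales Q a K).card : ℝ) ≤ (badScales P a K).card := by
  classical
  have h1 : badScales Q a K ⊆ badScales P a K := by
    intro k hk
    rw [badScales, mem_filter] at hk ⊢
    refine ⟨hk.1, fun hc => hk.2 ?_⟩
    intro N h1 h2
    exact h N (le_trans Nat.one_le_two_pow h1) (hc N h1 h2)
  exact_mod_cast card_le_card h1

open Classical in
theorem size_law (ε : ℝ) (hε : 0 < ε) (hε1 : ε ≤ 1) : ∃ c : ℝ, 0 < c ∧ ∃ C : ℝ,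
    ∀ L a K : ℕ, 1 ≤ L → ((badScales (fun N =>
      (∀ m ≤ r3 N, (r3 N).choose m ≤ F N m ∧
        (F N m : ℝ) ≤ (2 : ℝ) ^ (ε * r3 N) * (r3 N).choose m) ∧
      (∀ m : ℕ, ε * r3 N ≤ m → ((((Icc 1 N).powerset.filter
        (fun A => APFree A ∧ A.card = m ∧ ¬ Equi ε L N A)).card : ℕ) : ℝ) ≤
          (2 : ℝ) ^ (-c * r3 N) * (r3 N).choose m) ∧
      ((((Icc 1 N).powerset.filter (fun A => APFree A ∧
        ¬ (|(A.card : ℝ) - r3 N / 2| ≤ ε * r3 N ∧ Equi ε L N A))).card : ℕ) : ℝ) ≤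
          (2 : ℝ) ^ (-c * r3 N) * apCount N) a K).card : ℝ) ≤
      C * Real.log (L * (a + K + 2)) * √K := by
  set e : ℝ := min ε (1 / 4) with he
  have he0 : 0 < e := lt_min hε (by norm_num)
  have heε : e ≤ ε := min_le_left _ _
  have he4 : e ≤ 1 / 4 := min_le_right _ _
  have he1 : e ≤ 1 := by linarith
  obtain ⟨η1, hη1, hη11, W1, hW1, C1, hup⟩ := size_upper ε hε hε1
  obtain ⟨η2, hη2, hη21, W2, hW2, C2, hC2, c0, hc0, hc01, c2, hc2, htyp⟩ := typical e he0 he1
  obtain ⟨η3, hη3, hη31, W3, hW3, c3, hc3, hhalf⟩ := half e he0 he1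
  set η : ℝ := min η1 (min η2 η3) with hη
  have hη0 : 0 < η := lt_min hη1 (lt_min hη2 hη3)
  have hηa : η ≤ η1 := min_le_left _ _
  have hηb : η ≤ η2 := (min_le_right _ _).trans (min_le_left _ _)
  have hηc : η ≤ η3 := (min_le_right _ _).trans (min_le_right _ _)
  set W : ℝ := max W1 (max W2 W3) with hW
  have hWa : W1 ≤ W := le_max_left _ _
  have hWb : W2 ≤ W := (le_max_left _ _).trans (le_max_right _ _)
  have hWc : W3 ≤ W := (le_max_right _ _).trans (le_max_right _ _)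
  set d0 : ℝ := min c0 (min η1 η3) with hd0
  have hd00 : 0 < d0 := lt_min hc0 (lt_min hη1 hη3)
  have hda : d0 ≤ c0 := min_le_left _ _
  have hdb : d0 ≤ η1 := (min_le_right _ _).trans (min_le_left _ _)
  have hdc : d0 ≤ η3 := (min_le_right _ _).trans (min_le_right _ _)
  set c4 : ℝ := min c2 c3 with hc4
  have hc40 : 0 < c4 := lt_min hc2 hc3
  have hc4a : c4 ≤ c2 := min_le_left _ _
  have hc4b : c4 ≤ c3 := min_le_right _ _
  have hl2 : 0 < Real.log 2 := Real.log_pos (by norm_num)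
  have hl2g := Real.log_two_gt_d9
  set C3 : ℝ := max (max C1 C2) (8 / c4) with hC3
  have hC3a : C1 ≤ C3 := (le_max_left _ _).trans (le_max_left _ _)
  have hC3b : C2 ≤ C3 := (le_max_right _ _).trans (le_max_left _ _)
  have hC3c : 8 / c4 ≤ C3 := le_max_right _ _
  have hC30 : 0 ≤ C3 := le_trans (by positivity) hC3c
  obtain ⟨C, hC⟩ := blockBd_win η W d0 C3 hη0 (hηa.trans hη11) (hW1.trans hWa) hd00
    (hda.trans hc01) hC30
  refine ⟨c4 / 2, by positivity, C, ?_⟩
  intro L a K hL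
  refine (fa_badScales_mono ?_ a K).trans (hC L a K hL)
  rintro N hN ⟨hB, hG⟩
  have hLr : (1 : ℝ) ≤ L := by exact_mod_cast hL
  have hL0 : (0 : ℝ) < L := by linarith
  have hρ0 : 0 ≤ d0 / L := by positivity
  have hρ1 : d0 / L ≤ d0 := div_le_self hd00.le hLr
  set r : ℝ := (r3 N : ℝ) with hr
  have hr0 : 0 ≤ r := Nat.cast_nonneg _
  have hlogN : Real.log 2 ≤ Real.log ((N : ℝ) + 1) := by
    apply Real.log_le_log (by norm_num)
    have : (1 : ℝ) ≤ N := by exact_mod_cast hN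
    linarith
  have hlogN0 : 0 ≤ Real.log ((N : ℝ) + 1) := by linarith
  -- growth
  have hG1 : C1 * Real.log ((N : ℝ) + 1) ≤ r := by
    refine le_trans ?_ hG
    have h1 : C1 * Real.log ((N : ℝ) + 1) ≤ C3 * Real.log ((N : ℝ) + 1) :=
      mul_le_mul_of_nonneg_right hC3a hlogN0
    have h2 : C3 * Real.log ((N : ℝ) + 1) ≤ C3 * L * Real.log ((N : ℝ) + 1) := by
      apply mul_le_mul_of_nonneg_right _ hlogN0
      exact le_mul_of_one_le_right hC30 hLr
    linarith
  have hG2 : C2 * L * Real.log ((N : ℝ) + 1) ≤ r := by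
    refine le_trans ?_ hG
    apply mul_le_mul_of_nonneg_right _ hlogN0
    exact mul_le_mul_of_nonneg_right hC3b hL0.le
  have hG3 : 4 ≤ c4 * r := by
    have h1 : 8 / c4 * Real.log 2 ≤ C3 * L * Real.log ((N : ℝ) + 1) := by
      apply mul_le_mul _ hlogN hl2.le (by positivity)
      calc 8 / c4 ≤ C3 := hC3c
        _ ≤ C3 * L := le_mul_of_one_le_right hC30 hLr
    have h2 : 8 / c4 * Real.log 2 ≤ r := h1.trans hG
    have h3 : c4 * (8 / c4 * Real.log 2) ≤ c4 * r := mul_le_mul_of_nonneg_left h2 hc40.le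
    have h4 : c4 * (8 / c4 * Real.log 2) = 8 * Real.log 2 := by field_simp
    rw [h4] at h3
    linarith
  have hB1 : BlockBd η1 (d0 / L) W1 N := hB.mono hη0.le hηa hρ0 le_rfl hWa
  have hB2 : BlockBd η2 (c0 / L) W2 N :=
    hB.mono hη0.le hηb hρ0 (div_le_div_of_nonneg_right hda hL0.le) hWb
  have hB3 : BlockBd η3 (d0 / L) W3 N := hB.mono hη0.le hηc hρ0 le_rfl hWc
  have htyp' := htyp L N hL hN hB2 hG2
  have hpow : (2 : ℝ) ^ (-c2 * r) ≤ (2 : ℝ) ^ (-(c4 / 2) * r) := by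
    apply Real.rpow_le_rpow_of_exponent_le (by norm_num)
    nlinarith
  refine ⟨?_, ?_, ?_⟩
  · intro m hm
    exact ⟨size_lower N m hm, hup N hN (d0 / L) hρ0 (hρ1.trans hdb) hB1 hG1 m hm⟩
  · intro m hm
    have hm' : e * r ≤ m := (mul_le_mul_of_nonneg_right heε hr0).trans hm
    have h1 : (((Icc 1 N).powerset.filter
        (fun A => APFree A ∧ A.card = m ∧ ¬ Equi ε L N A)).card : ℝ) ≤
        (((Icc 1 N).powerset.filter
        (fun A => APFree A ∧ A.card = m ∧ ¬ Equi e L N A)).card : ℝ) := by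
      norm_cast
      apply card_le_card
      intro A hA
      rw [mem_filter] at hA ⊢
      exact ⟨hA.1, hA.2.1, hA.2.2.1, fun h => hA.2.2.2 (h.mono heε)⟩
    refine (h1.trans (htyp' m hm')).trans ?_
    exact mul_le_mul_of_nonneg_right hpow (Nat.cast_nonneg _)
  · -- all sizes
    set S := (Icc 1 N).powerset.filter (fun A => APFree A ∧
        ¬ (|(A.card : ℝ) - r3 N / 2| ≤ ε * r3 N ∧ Equi ε L N A)) with hS
    set S1 := (Icc 1 N).powerset.filter
          (fun A => APFree A ∧ ¬ |(A.card : ℝ) - r3 N / 2| ≤ e * r3 N) with hS1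
    set S2 : ℕ → Finset (Finset ℕ) := fun m => (Icc 1 N).powerset.filter
        (fun A => APFree A ∧ A.card = m ∧ ¬ Equi e L N A) with hS2
    set M := (range (r3 N + 1)).filter (fun m : ℕ => e * r ≤ m) with hM
    have hsub : S ⊆ S1 ∪ M.biUnion S2 := by
      intro A hA
      rw [hS, mem_filter] at hA
      rw [mem_union]
      by_cases hcase : |(A.card : ℝ) - r3 N / 2| ≤ e * r3 N
      · right
        rw [mem_biUnion]
        have hA3 : ¬ Equi e L N A := by
          intro h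
          apply hA.2.2
          exact ⟨hcase.trans (mul_le_mul_of_nonneg_right heε hr0), h.mono heε⟩
        refine ⟨A.card, ?_, ?_⟩
        · rw [hM, mem_filter, mem_range]
          refine ⟨?_, ?_⟩
          · have := card_le_r3 (mem_powerset.1 hA.1) hA.2.1
            omega
          · have h2 := (abs_le.1 hcase).1
            have h3 : e * r ≤ 1 / 4 * r := mul_le_mul_of_nonneg_right he4 hr0
            linarith
        · rw [hS2]
          simp only
          rw [mem_filter]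
          exact ⟨hA.1, hA.2.1, rfl, hA3⟩
      · left
        rw [hS1, mem_filter]
        exact ⟨hA.1, hA.2.1, hcase⟩
    have h1 : (S.card : ℝ) ≤ S1.card + ∑ m ∈ M, ((S2 m).card : ℝ) := by
      have h2 := (card_le_card hsub).trans (card_union_le _ _)
      have h3 : (M.biUnion S2).card ≤ ∑ m ∈ M, (S2 m).card := card_biUnion_le
      have h4 : S.card ≤ S1.card + ∑ m ∈ M, (S2 m).card := by omega
      exact_mod_cast h4
    have h2 : (S1.card : ℝ) ≤ 2 * (2 : ℝ) ^ ((1 - c3) * r) :=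
      hhalf N hN (d0 / L) hρ0 (hρ1.trans hdc) hB3
    have h3 : ∑ m ∈ M, ((S2 m).card : ℝ) ≤ (2 : ℝ) ^ (-c2 * r) * (2 : ℝ) ^ r := by
      calc ∑ m ∈ M, ((S2 m).card : ℝ) ≤ ∑ m ∈ M, (2 : ℝ) ^ (-c2 * r) * ((r3 N).choose m : ℝ) := by
            apply sum_le_sum
            intro m hm
            rw [hM, mem_filter] at hm
            exact htyp' m hm.2
        _ ≤ ∑ m ∈ range (r3 N + 1), (2 : ℝ) ^ (-c2 * r) * ((r3 N).choose m : ℝ) := by
            apply sum_le_sum_of_subset_of_nonneg (filter_subset _ _)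
            intro m _ _
            positivity
        _ = (2 : ℝ) ^ (-c2 * r) * (2 : ℝ) ^ r := by
            rw [← mul_sum]
            congr 1
            have := Nat.sum_range_choose (r3 N)
            rw [hr, Real.rpow_natCast]
            exact_mod_cast this
    have h4 : (2 : ℝ) ^ r ≤ apCount N := by
      rw [hr, Real.rpow_natCast]
      exact_mod_cast two_pow_le_apCount N
    have h20 : (0 : ℝ) < 2 := by norm_num
    have h5 : (2 : ℝ) ^ ((1 - c3) * r) ≤ (2 : ℝ) ^ (-c4 * r) * (2 : ℝ) ^ r := by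
      rw [← Real.rpow_add h20]
      apply Real.rpow_le_rpow_of_exponent_le (by norm_num)
      nlinarith
    have h6 : (2 : ℝ) ^ (-c2 * r) ≤ (2 : ℝ) ^ (-c4 * r) := by
      apply Real.rpow_le_rpow_of_exponent_le (by norm_num)
      nlinarith
    have h7 : 4 * (2 : ℝ) ^ (-c4 * r) ≤ (2 : ℝ) ^ (-(c4 / 2) * r) := by
      have e1 : (4 : ℝ) = (2 : ℝ) ^ (2 : ℝ) := by norm_num
      rw [e1, ← Real.rpow_add h20]
      apply Real.rpow_le_rpow_of_exponent_le (by norm_num)
      nlinarith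
    have hp0 : 0 < (2 : ℝ) ^ (-c4 * r) := Real.rpow_pos_of_pos h20 _
    have hp1 : 0 < (2 : ℝ) ^ r := Real.rpow_pos_of_pos h20 _
    calc (S.card : ℝ) ≤ 2 * ((2 : ℝ) ^ (-c4 * r) * (2 : ℝ) ^ r) +
          (2 : ℝ) ^ (-c4 * r) * (2 : ℝ) ^ r := by
            have h8 := mul_le_mul_of_nonneg_right h6 hp1.le
            linarith
      _ = 3 * (2 : ℝ) ^ (-c4 * r) * (2 : ℝ) ^ r := by ring
      _ ≤ (2 : ℝ) ^ (-(c4 / 2) * r) * (2 : ℝ) ^ r := by
            apply mul_le_mul_of_nonneg_right _ hp1.le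
            linarith
      _ ≤ (2 : ℝ) ^ (-(c4 / 2) * r) * apCount N :=
            mul_le_mul_of_nonneg_left h4 (Real.rpow_pos_of_pos h20 _).le

end Pool.Agent.MP_0f71ae_nt.Sz
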