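import Pool.Agent.MP_0f71ae_nt.Sz.Def

/-!
# The product inequality for disjoint blocks
-/

set_option autoImplicit false

namespace Pool.Agent.MP_0f71ae_nt.Sz

open Finset Pool.Agent.MP_0f71ae_nt.Reg Pool.Agent.MP_0f71ae_nt.Cnt

theorem pi_two_blocks [DecidablePred (fun A : Finset ℕ => APFree A)] (S T : Finset ℕ)
    (f g : Finset ℕ → ℝ) (hf : ∀ I, 0 ≤ f I) (hg : ∀ I, 0 ≤ g I) :
    ∑ A ∈ (S ∪ T).powerset.filter (fun I => APFree I), f (A ∩ S) * g (A ∩ T) ≤
      (∑ I ∈ S.powerset.filter (fun I => APFree I), f I) *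
        ∑ J ∈ T.powerset.filter (fun I => APFree I), g J := by
  have hmono : ∀ {A B : Finset ℕ}, A ⊆ B → APFree B → APFree A :=
    fun h hB a d hd hc => hB a d hd ⟨h hc.1, h hc.2.1, h hc.2.2⟩
  rw [Finset.sum_mul_sum, ← Finset.sum_product']
  have hinj : Set.InjOn (fun A : Finset ℕ => (A ∩ S, A ∩ T))
      (((S ∪ T).powerset.filter (fun I => APFree I) : Finset (Finset ℕ)) : Set (Finset ℕ)) := by
    intro A hA B hB hAB
    rw [Finset.mem_coe, Finset.mem_filter, Finset.mem_powerset] at hA hB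
    simp only [Prod.mk.injEq] at hAB
    have h1 : A = (A ∩ S) ∪ (A ∩ T) := by
      rw [← Finset.inter_union_distrib_left, Finset.inter_eq_left.2 hA.1]
    have h2 : B = (B ∩ S) ∪ (B ∩ T) := by
      rw [← Finset.inter_union_distrib_left, Finset.inter_eq_left.2 hB.1]
    rw [h1, h2, hAB.1, hAB.2]
  rw [← Finset.sum_image (f := fun p : Finset ℕ × Finset ℕ => f p.1 * g p.2)
    (g := fun A : Finset ℕ => (A ∩ S, A ∩ T)) hinj]
  apply Finset.sum_le_sum_of_subset_of_nonneg
  · intro p hp
    obtain ⟨A, hA, rfl⟩ := Finset.mem_image.1 hp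
    rw [Finset.mem_filter, Finset.mem_powerset] at hA
    rw [Finset.mem_product, Finset.mem_filter, Finset.mem_filter, Finset.mem_powerset,
      Finset.mem_powerset]
    exact ⟨⟨Finset.inter_subset_right, hmono Finset.inter_subset_left hA.2⟩,
      Finset.inter_subset_right, hmono Finset.inter_subset_left hA.2⟩
  · intro p _ _
    exact mul_nonneg (hf _) (hg _)

theorem pi_prod [DecidablePred (fun A : Finset ℕ => APFree A)] {ι : Type*} [DecidableEq ι]
    (s : Finset ι) (B : ι → Finset ℕ) (v : ι → ℝ) (hv : ∀ i, 0 ≤ v i) :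
    ∑ A ∈ (s.biUnion B).powerset.filter (fun A => APFree A), ∏ i ∈ s, v i ^ (A ∩ B i).card ≤
      ∏ i ∈ s, ∑ I ∈ (B i).powerset.filter (fun A => APFree A), v i ^ I.card := by
  induction s using Finset.induction_on with
  | empty =>
    rw [Finset.biUnion_empty, Finset.prod_empty, Finset.powerset_empty, Finset.filter_singleton]
    split_ifs <;> simp
  | insert i s hi ih =>
    rw [Finset.biUnion_insert, Finset.prod_insert hi]
    calc ∑ A ∈ (B i ∪ s.biUnion B).powerset.filter (fun A => APFree A),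
          ∏ j ∈ insert i s, v j ^ (A ∩ B j).card
        = ∑ A ∈ (B i ∪ s.biUnion B).powerset.filter (fun A => APFree A),
          v i ^ (A ∩ B i).card * ∏ j ∈ s, v j ^ ((A ∩ s.biUnion B) ∩ B j).card := by
          refine Finset.sum_congr rfl (fun A _ => ?_)
          rw [Finset.prod_insert hi]
          congr 1
          refine Finset.prod_congr rfl (fun j hj => ?_)
          rw [Finset.inter_assoc, Finset.inter_eq_right.2 (Finset.subset_biUnion_of_mem B hj)]
      _ ≤ (∑ I ∈ (B i).powerset.filter (fun A => APFree A), v i ^ I.card) *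
          ∑ J ∈ (s.biUnion B).powerset.filter (fun A => APFree A),
            ∏ j ∈ s, v j ^ (J ∩ B j).card :=
          pi_two_blocks (B i) (s.biUnion B) (fun I => v i ^ I.card)
            (fun J => ∏ j ∈ s, v j ^ (J ∩ B j).card) (fun _ => pow_nonneg (hv i) _)
            (fun _ => Finset.prod_nonneg (fun j _ => pow_nonneg (hv j) _))
      _ ≤ _ := mul_le_mul_of_nonneg_left ih
          (Finset.sum_nonneg (fun _ _ => pow_nonneg (hv i) _))

theorem prod_ineq (L : ℕ) (B : Fin L → Finset ℕ) (U : Finset ℕ)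
    (hd : ∀ i j, i ≠ j → Disjoint (B i) (B j)) (hU : Finset.univ.biUnion B = U)
    (v : Fin L → ℝ) (hv : ∀ i, 0 ≤ v i) [DecidablePred (fun A : Finset ℕ => APFree A)] :
    ∑ A ∈ U.powerset.filter (fun A => APFree A), ∏ i, v i ^ (A ∩ B i).card ≤
      ∏ i, Z (v i) (B i) := by
  clear hd
  subst hU
  refine (pi_prod Finset.univ B v hv).trans (le_of_eq ?_)
  refine Finset.prod_congr rfl (fun i _ => ?_)
  unfold Z
  refine Finset.sum_congr ?_ (fun _ _ => rfl)
  ext I
  simp only [Finset.mem_filter]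

end Pool.Agent.MP_0f71ae_nt.Sz
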