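import Pool.Agent.MP_0f71ae_nt.Sz.FA
import Pool.Agent.MP_0f71ae_nt.Sz.EV

/-!
# The typical structure at almost all scales
-/

set_option autoImplicit false

namespace Pool.Agent.MP_0f71ae_nt.Sz

open Finset Pool.Agent.MP_0f71ae_nt.Reg Pool.Agent.MP_0f71ae_nt.Cnt Pool.Agent.MP_0f71ae_nt.Fine

theorem ts_badScales_and {P Q R : ℕ → Prop} (h : ∀ N, 1 ≤ N → P N → Q N → R N) (a K : ℕ) :
    ((badScales R a K).card : ℝ) ≤ (badScales P a K).card + (badScales Q a K).card := by
  classical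
  have h1 : badScales R a K ⊆ badScales P a K ∪ badScales Q a K := by
    intro k hk
    rw [mem_union]
    by_contra hc
    rw [not_or] at hc
    rw [badScales, mem_filter] at hk hc
    rw [badScales, mem_filter] at hc
    apply hk.2
    intro N h1 h2
    have hP : P N := by
      by_contra hP
      exact hc.1 ⟨hk.1, fun hall => hP (hall N h1 h2)⟩
    have hQ : Q N := by
      by_contra hQ
      exact hc.2 ⟨hk.1, fun hall => hQ (hall N h1 h2)⟩
    exact h N (Nat.one_le_two_pow.trans h1) hP hQ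
  exact_mod_cast (card_le_card h1).trans (card_union_le _ _)

open Classical in
/-- The structure of the typical progression-free subsets of `{1, …, N}`:
* the number `F N m` of progression-free sets with `m` elements;
* almost all progression-free sets with `m ≥ ε r₃(N)` elements are equidistributed;
* almost all progression-free sets have about `r₃(N) / 2` elements and are equidistributed. -/
def Law (ε c L : ℝ) (N : ℕ) : Prop :=
  (∀ m ≤ r3 N, (r3 N).choose m ≤ F N m ∧
    (F N m : ℝ) ≤ (2 : ℝ) ^ (ε * r3 N) * (r3 N).choose m) ∧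
  (∀ m : ℕ, ε * r3 N ≤ m → ((((Finset.Icc 1 N).powerset.filter
    (fun A => APFree A ∧ A.card = m ∧ ¬ Even ε L N A)).card : ℕ) : ℝ) ≤
      (2 : ℝ) ^ (-c * r3 N) * (r3 N).choose m) ∧
  ((((Finset.Icc 1 N).powerset.filter (fun A => APFree A ∧
    ¬ (|(A.card : ℝ) - r3 N / 2| ≤ ε * r3 N ∧ Even ε L N A))).card : ℕ) : ℝ) ≤
      (2 : ℝ) ^ (-c * r3 N) * apCount N

theorem law_even (ε : ℝ) (hε : 0 < ε) (hε1 : ε ≤ 1) : ∃ c : ℝ, 0 < c ∧ ∃ C : ℝ,
    ∀ L : ℝ, 1 ≤ L → ∀ a K : ℕ, ((badScales (Law ε c L) a K).card : ℝ) ≤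
      C * Real.log (L * (a + K + 2)) * √K := by
  classical
  obtain ⟨e, he⟩ : ∃ e : ℝ, e = ε / 4 := ⟨_, rfl⟩
  have he0 : 0 < e := by rw [he]; positivity
  have he1 : e ≤ 1 / 4 := by rw [he]; linarith
  have heε : e ≤ ε := by rw [he]; linarith
  have hl2 : 0 < Real.log 2 := Real.log_pos (by norm_num)
  obtain ⟨c, hc, C1, hC1⟩ := size_law e he0 (by linarith)
  obtain ⟨η, hη⟩ : ∃ η : ℝ, η = e ^ 2 / 8 := ⟨_, rfl⟩
  obtain ⟨M, hM⟩ : ∃ M : ℝ, M = 8 / e ^ 2 := ⟨_, rfl⟩
  have hη0 : 0 < η := by rw [hη]; positivity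
  have hη1 : η ≤ 1 / 12 := by
    rw [hη]
    nlinarith
  have hM1 : 1 ≤ M := by
    rw [hM, le_div_iff₀ (by positivity)]
    nlinarith
  obtain ⟨D, hD⟩ : ∃ D : ℝ, D = 16 / e + 16 / e ^ 2 + 5 := ⟨_, rfl⟩
  have hD1 : 1 ≤ D := by
    rw [hD]
    have h1 : 0 ≤ 16 / e := by positivity
    have h2 : 0 ≤ 16 / e ^ 2 := by positivity
    linarith
  obtain ⟨C2, hC2⟩ : ∃ C2 : ℝ, C2 = 1680 * (1 + Real.log (M / η)) / η := ⟨_, rfl⟩
  have hC20 : 0 ≤ C2 := by
    rw [hC2]
    have h1 : 0 ≤ Real.log (M / η) := by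
      apply Real.log_nonneg
      rw [le_div_iff₀ hη0]
      linarith
    positivity
  refine ⟨c, hc, max C1 0 * (Real.log D / Real.log 2 + 2) + C2 / Real.log 2, ?_⟩
  intro L hL a K
  obtain ⟨L', hL'⟩ : ∃ L' : ℕ, L' = ⌈16 * L ^ 2 / e + 16 / e ^ 2 + 4⌉₊ := ⟨_, rfl⟩
  have hLa : 16 * L ^ 2 / e + 16 / e ^ 2 + 4 ≤ L' := by
    rw [hL']
    exact Nat.le_ceil _
  have hx0 : 0 ≤ 16 * L ^ 2 / e + 16 / e ^ 2 + 4 := by positivity
  have hLb : (L' : ℝ) ≤ D * L ^ 2 := by
    have h1 := (Nat.ceil_lt_add_one hx0).le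
    rw [← hL'] at h1
    have h2 : 1 ≤ L ^ 2 := by nlinarith
    have h3 : 0 ≤ 16 / e ^ 2 := by positivity
    have h4 : D * L ^ 2 = 16 * L ^ 2 / e + (16 / e ^ 2 + 5) * L ^ 2 := by
      rw [hD]
      ring
    rw [h4]
    nlinarith
  have hL1' : (1 : ℝ) ≤ L' := by
    have h3 : 0 ≤ 16 / e ^ 2 := by positivity
    have h4 : 0 ≤ 16 * L ^ 2 / e := by positivity
    linarith
  have hL1 : 1 ≤ L' := by exact_mod_cast hL1'
  have hb1 := hC1 L' a K hL1
  have hb2 := scale_linear_win η hη0 (by linarith) M hM1 a K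
  rw [← hC2] at hb2
  have hb : ((badScales (Law ε c L) a K).card : ℝ) ≤
      C1 * Real.log (L' * (a + K + 2)) * √K + C2 * √K := by
    refine le_trans (ts_badScales_and ?_ a K) (add_le_add hb1 hb2)
    rintro N hN ⟨hS1, hS2, hS3⟩ hlin
    have hr0 : (0 : ℝ) ≤ r3 N := Nat.cast_nonneg _
    have hev : ∀ A ⊆ Icc 1 N, APFree A → e * r3 N ≤ A.card → Equi e L' N A → Even ε L N A := by
      intro A hAN hf hm hE
      rw [he] at hm hE
      rw [hη, hM, he] at hlin
      rw [he] at hLa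
      exact even_of_equi hε hε1 hL hN hLa hlin hf hAN hm hE
    refine ⟨?_, ?_, ?_⟩
    · intro m hm
      refine ⟨(hS1 m hm).1, (hS1 m hm).2.trans ?_⟩
      apply mul_le_mul_of_nonneg_right _ (Nat.cast_nonneg _)
      apply Real.rpow_le_rpow_of_exponent_le (by norm_num)
      exact mul_le_mul_of_nonneg_right heε hr0
    · intro m hm
      have hm' : e * r3 N ≤ m := (mul_le_mul_of_nonneg_right heε hr0).trans hm
      refine le_trans ?_ (hS2 m hm')
      norm_cast
      apply card_le_card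
      intro A hA
      rw [mem_filter] at hA ⊢
      refine ⟨hA.1, hA.2.1, hA.2.2.1, fun hE => hA.2.2.2 ?_⟩
      exact hev A (mem_powerset.1 hA.1) hA.2.1 (by rw [hA.2.2.1]; exact hm') hE
    · refine le_trans ?_ hS3
      norm_cast
      apply card_le_card
      intro A hA
      rw [mem_filter] at hA ⊢
      refine ⟨hA.1, hA.2.1, fun h1 => hA.2.2 ?_⟩
      refine ⟨h1.1.trans (mul_le_mul_of_nonneg_right heε hr0),
        hev A (mem_powerset.1 hA.1) hA.2.1 ?_ h1.2⟩
      have h2 := (abs_le.1 h1.1).1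
      have h3 : e * r3 N ≤ 1 / 4 * (r3 N : ℝ) := mul_le_mul_of_nonneg_right he1 hr0
      linarith
  refine hb.trans ?_
  have haK : (2 : ℝ) ≤ (a : ℝ) + K + 2 := by
    have h1 : (0 : ℝ) ≤ a := Nat.cast_nonneg _
    have h2 : (0 : ℝ) ≤ K := Nat.cast_nonneg _
    linarith
  have hlog2 : Real.log 2 ≤ Real.log (L * (a + K + 2)) := by
    apply Real.log_le_log (by norm_num)
    nlinarith
  have hlogL : Real.log (L' * (a + K + 2)) ≤
      (Real.log D / Real.log 2 + 2) * Real.log (L * (a + K + 2)) := by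
    have h1 : (L' : ℝ) * (a + K + 2) ≤ D * (L * (a + K + 2)) ^ 2 := by
      have h2 : (L' : ℝ) * (a + K + 2) ≤ D * L ^ 2 * (a + K + 2) :=
        mul_le_mul_of_nonneg_right hLb (by linarith)
      have h3 : D * (L * (a + K + 2)) ^ 2 = D * L ^ 2 * (a + K + 2) * (a + K + 2) := by ring
      rw [h3]
      refine h2.trans ?_
      apply le_mul_of_one_le_right (by positivity)
      linarith
    have h4 : Real.log (L' * (a + K + 2)) ≤ Real.log D + 2 * Real.log (L * (a + K + 2)) := by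
      have hL'0 : (0 : ℝ) < L' := by linarith
      have h5 := Real.log_le_log (by positivity) h1
      have h7 : Real.log (D * (L * (a + K + 2)) ^ 2) =
          Real.log D + 2 * Real.log (L * (a + K + 2)) := by
        rw [Real.log_mul (by positivity) (by positivity), Real.log_pow]
        push_cast
        ring
      rw [h7] at h5
      exact h5
    have h6 : Real.log D ≤ Real.log D / Real.log 2 * Real.log (L * (a + K + 2)) := by
      rw [div_mul_eq_mul_div, le_div_iff₀ hl2]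
      exact mul_le_mul_of_nonneg_left hlog2 (Real.log_nonneg hD1)
    linarith
  have hs : 0 ≤ √(K : ℝ) := Real.sqrt_nonneg _
  have hlog0 : 0 ≤ Real.log (L' * (a + K + 2)) := by
    apply Real.log_nonneg
    nlinarith
  have h1 : C1 * Real.log (L' * (a + K + 2)) ≤
      max C1 0 * ((Real.log D / Real.log 2 + 2) * Real.log (L * (a + K + 2))) :=
    (mul_le_mul_of_nonneg_right (le_max_left _ _) hlog0).trans
      (mul_le_mul_of_nonneg_left hlogL (le_max_right _ _))
  have h2 : C2 ≤ C2 / Real.log 2 * Real.log (L * (a + K + 2)) := by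
    rw [div_mul_eq_mul_div, le_div_iff₀ hl2]
    exact mul_le_mul_of_nonneg_left hlog2 hC20
  calc C1 * Real.log (L' * (a + K + 2)) * √K + C2 * √K =
      (C1 * Real.log (L' * (a + K + 2)) + C2) * √K := by ring
    _ ≤ _ := by
      apply mul_le_mul_of_nonneg_right _ hs
      have h3 : (max C1 0 * (Real.log D / Real.log 2 + 2) + C2 / Real.log 2) *
          Real.log (L * (a + K + 2)) =
          max C1 0 * ((Real.log D / Real.log 2 + 2) * Real.log (L * (a + K + 2))) +
          C2 / Real.log 2 * Real.log (L * (a + K + 2)) := by ring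
      rw [h3]
      exact add_le_add h1 h2

end Pool.Agent.MP_0f71ae_nt.Sz
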